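import Pool.Agent.Q13.NS.Form
import Pool.Agent.W602.GT.SpecDefs
import Pool.Agent.TH466.QT.Tens
import Pool.Agent.Y172.Adic

/-!
Fibrations of general type in the sense of Campana.
-/

set_option autoImplicit false
set_option linter.overlappingInstances false

open FF Pool.Agent.W602.GT Pool.Agent.Y172

namespace Pool.Agent.Q13.NS

/-- There is a fibration of general type on the varieties with function field `F`, of
transcendence degree `w` over `ℂ`, and boundary `Bd` (the set of places without centre on the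
variety): the function field of the base, of dimension `p > 0`, is the algebraic closure of
`ℂ(z 1, …, z p)` in `F`, and for some `N > 0` there are `p + 1` sections
`s j * (dz 1 ∧ … ∧ dz p) ^ N` of the `N`-th power of the saturation of the pull-back of the
canonical bundle of the base in the `p`-forms of the variety (with logarithmic poles along the
boundary), whose ratios are functions on the base and contain `p` algebraically independent
ones. -/
def FibGT {F : Type} [Field F] [Algebra ℂ F] (w : ℕ) (Bd : Place ℂ F → Prop) : Prop :=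
  ∃ (p N : ℕ) (z : Fin p → F) (s : Fin (p + 1) → F), 0 < p ∧ 0 < N ∧
    AlgebraicIndependent ℂ z ∧ s 0 ≠ 0 ∧
    (∀ j, IsAlgebraic (IntermediateField.adjoin ℂ (Set.range z)) (s j / s 0)) ∧
    AlgebraicIndependent ℂ (fun j : Fin p => s j.succ / s 0) ∧
    (∀ P : Place ℂ F, Divisorial w P → ∀ D : Fin p → Derivation ℂ F F, (∀ i, DerLog P (D i)) →
      ∀ j, P.Reg (s j * (Matrix.of fun a b => D a (z b)).det ^ N)) ∧
    ∀ P : Place ℂ F, Divisorial w P → ¬ Bd P → ∀ D : Fin p → Derivation ℂ F F,
      (∀ i, DerReg P (D i)) → ∀ j, P.Reg (s j * (Matrix.of fun a b => D a (z b)).det ^ N)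

variable {F : Type} [Field F] [Algebra ℂ F]

/-- the base coordinates can be chosen as ratios of the sections -/
theorem FibGT.genFib {w : ℕ} {Bd : Place ℂ F → Prop} (h : FibGT w Bd) :
    ∃ (p N : ℕ) (g : Fin p → F) (c : F), 0 < p ∧ 0 < N ∧ c ≠ 0 ∧ AlgebraicIndependent ℂ g ∧
      GenFib w Bd g c N := by
  classical
  obtain ⟨p, N, z, s, hp, hN, hz, hs0, halg, hind, hlog, hreg⟩ := h
  obtain ⟨E, hE⟩ := Pool.Agent.TH466.QT.exists_dual_of_indep hz
  obtain ⟨g, hg⟩ : ∃ g : Fin p → F, ∀ j, g j = s j.succ / s 0 := ⟨_, fun _ => rfl⟩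
  have hgind : AlgebraicIndependent ℂ g := by
    have : g = fun j : Fin p => s j.succ / s 0 := funext hg
    rwa [this]
  have hchain : ∀ (D : Derivation ℂ F F) (b : Fin p), D (g b) = ∑ a, D (z a) * E a (g b) := by
    intro D b
    have h1 : Kills (D - ∑ a, D (z a) • E a) (acl ℂ (Set.range z)) := by
      refine kills_acl ?_
      rintro _ ⟨i, rfl⟩
      rw [Derivation.sub_apply, sum_smul_apply, Finset.sum_eq_single i]
      · rw [hE, if_pos rfl, mul_one, sub_self]
      · intro a _ ha
        rw [hE, if_neg (Ne.symm ha), mul_zero]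
      · intro hi
        exact absurd (Finset.mem_univ i) hi
    have h2 : g b ∈ acl ℂ (Set.range z) := by
      rw [mem_acl, hg]
      exact halg b.succ
    have h3 := h1 _ h2
    rw [Derivation.sub_apply, sum_smul_apply, sub_eq_zero] at h3
    exact h3
  obtain ⟨J, hJ⟩ : ∃ J : F, J = (Matrix.of fun a b => E a (g b)).det := ⟨_, rfl⟩
  have hdet : ∀ D : Fin p → Derivation ℂ F F, (Matrix.of fun a b => D a (g b)).det =
      (Matrix.of fun a b => D a (z b)).det * J := by
    intro D
    rw [hJ, ← Matrix.det_mul]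
    congr 1
    ext a b
    rw [Matrix.of_apply, Matrix.mul_apply, hchain]
    rfl
  have hJ0 : J ≠ 0 := by
    obtain ⟨D, hD⟩ := Pool.Agent.TH466.QT.exists_dual_of_indep hgind
    intro h0
    have h1 := hdet D
    rw [h0, mul_zero] at h1
    have h2 : (Matrix.of fun a b => D a (g b)) = (1 : Matrix (Fin p) (Fin p) F) := by
      ext j i
      rw [Matrix.of_apply, hD, Matrix.one_apply]
      by_cases hij : i = j
      · rw [if_pos hij, if_pos hij.symm]
      · rw [if_neg hij, if_neg (Ne.symm hij)]
    rw [h2, Matrix.det_one] at h1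
    exact one_ne_zero h1
  have hval : ∀ (D : Fin p → Derivation ℂ F F) (j : Fin (p + 1)),
      (Fin.cons 1 g : Fin (p + 1) → F) j * (s 0 * (J ^ N)⁻¹) *
        (Matrix.of fun a b => D a (g b)).det ^ N =
      s j * (Matrix.of fun a b => D a (z b)).det ^ N := by
    intro D j
    have h1 : (Fin.cons 1 g : Fin (p + 1) → F) j * s 0 = s j := by
      refine Fin.cases ?_ (fun i => ?_) j
      · rw [Fin.cons_zero, one_mul]
      · rw [Fin.cons_succ, hg, div_mul_cancel₀ _ hs0]
    have hJN : J ^ N ≠ 0 := pow_ne_zero _ hJ0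
    rw [hdet, mul_pow, ← h1]
    field_simp
  refine ⟨p, N, g, s 0 * (J ^ N)⁻¹, hp, hN, mul_ne_zero hs0 (inv_ne_zero (pow_ne_zero _ hJ0)),
    hgind, fun P hP D hD j => ?_, fun P hP hb D hD j => ?_⟩
  · rw [hval]
    exact hlog P hP D hD j
  · rw [hval]
    exact hreg P hP hb D hD j

theorem derReg_of_log {P : Place ℂ F} {D : Derivation ℂ F F} (hD : DerLog P D) : DerReg P D := by
  intro f hf
  by_cases hf0 : f = 0
  · rw [hf0, map_zero]; exact P.reg_zero
  · have h1 := P.reg_mul (hD f) hf
    rwa [div_mul_cancel₀ _ hf0] at h1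

/-- Varieties with a fibration of general type are not special: there is a Bogomolov sheaf. -/
theorem FibGT.not_special {w : ℕ} {Bd : Place ℂ F → Prop} (h : FibGT w Bd) :
    ¬ Special ℂ F w Bd := by
  classical
  obtain ⟨p, N, z, s, hp, hN, hz, hs0, -, hind, hlog, hreg⟩ := h
  intro hsp
  refine hsp p hp ⟨dform z, ?_, N, hN, s, fun P hP D hD j => ?_, fun P hP hb D hD j => ?_, hs0,
    hind⟩
  · obtain ⟨D, hD⟩ := Pool.Agent.TH466.QT.exists_dual_of_indep hz
    intro h0
    have h1 : dform (k := ℂ) z D = 0 := by rw [h0]; rfl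
    rw [dform_apply] at h1
    have h2 : (Matrix.of fun a b => D a (z b)) = (1 : Matrix (Fin p) (Fin p) F) := by
      ext j i
      rw [Matrix.of_apply, hD, Matrix.one_apply]
      by_cases hij : i = j
      · rw [if_pos hij, if_pos hij.symm]
      · rw [if_neg hij, if_neg (Ne.symm hij)]
    rw [h2, Matrix.det_one] at h1
    exact one_ne_zero h1
  · rw [dform_apply]
    exact hlog P hP D hD j
  · rw [dform_apply]
    exact hreg P hP hb D hD j

end Pool.Agent.Q13.NS
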