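import Pool.Agent.Q13.NS.Main
import Pool.Agent.Q13.KO.Gen
import Pool.Agent.Q13.KO.Lin
import Pool.Agent.Q13.KO.Orb

/-!
Orbits and invariant functions.
-/

set_option autoImplicit false

namespace Pool.Agent.Q13.NS

open MvPolynomial Filter Pool.Agent.TH143.DE Pool.Agent.TH143.HE Pool.Agent.TH143.TW
  Pool.Agent.TH143.GE Pool.Agent.TH143.GT Pool.Agent.W602.GT Pool.Agent.Q13.KO

variable {n N : ℕ}

/-- A function which is invariant under an iterate is constant on the arithmetic progressions. -/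
theorem line_of_fixed {v : Fin n → GG} (hv : Stable v) {K : Type} [Field K] [Algebra ℂ K]
    {f : SS v →ₐ[ℂ] K} (hf : Function.Injective f) {σ : K →ₐ[ℂ] K}
    (hs : ∀ (z : SS v) (hz : shG (z : GG) ∈ SS v), σ (f z) = f ⟨shG z, hz⟩) {g : K} {k : ℕ}
    (hk : 0 < k) (hg : (σ ^ k) g = g) {A B : ℕ → ℂ} (hA : gg A ∈ SS v) (hB : gg B ∈ SS v)
    (hAB : f ⟨gg A, hA⟩ = g * f ⟨gg B, hB⟩) (c : ℕ) :
    ∃ α β : ℂ, (α ≠ 0 ∨ β ≠ 0) ∧ ∀ᶠ m in atTop, A (c + k * m) * β = B (c + k * m) * α := by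
  classical
  have hN := SS_noeth v
  let L : Submodule (SS v) (SS v × SS v) :=
    { carrier := {q | f q.1 = g * f q.2}
      add_mem' := by
        intro q q' hq hq'
        change f (q.1 + q'.1) = g * f (q.2 + q'.2)
        rw [map_add, map_add, show f q.1 = _ from hq, show f q'.1 = _ from hq']
        ring
      zero_mem' := by
        change f 0 = g * f 0
        rw [map_zero, mul_zero]
      smul_mem' := by
        intro r q hq
        change f (r * q.1) = g * f (r * q.2)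
        rw [map_mul, map_mul, show f q.1 = _ from hq]
        ring }
  obtain ⟨T, hT⟩ := (IsNoetherian.noetherian L : L.FG)
  choose u hu using fun x : SS v => gg_surj (x : GG)
  have hgg : ∀ {x : SS v} {a : ℕ → ℂ}, (x : GG) = gg a → ∀ᶠ m in atTop, u x m = a m := by
    intro x a h
    refine gg_eq.1 ?_
    rw [hu, h]
  -- the values at `m` of the pairs in `L` depend linearly on the values of the generators
  have hspan : ∀ q ∈ Submodule.span (SS v) (T : Set (SS v × SS v)),
      ∀ᶠ m in atTop, ∀ α β : ℂ, (∀ s ∈ T, u s.1 m * β = u s.2 m * α) →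
        u q.1 m * β = u q.2 m * α := by
    intro q hq
    induction hq using Submodule.span_induction with
    | mem x hx => exact Eventually.of_forall fun n α β h => h x hx
    | zero =>
      have h1 := hgg (x := (0 : SS v)) (a := 0) (by rw [map_zero]; rfl)
      filter_upwards [h1] with m hm α β _
      change u 0 m * β = u 0 m * α
      rw [hm, Pi.zero_apply, zero_mul, zero_mul]
    | add x y _ _ hx hy =>
      have h1 := hgg (x := x.1 + y.1) (a := u x.1 + u y.1) (by
        rw [map_add, hu, hu]; rfl)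
      have h2 := hgg (x := x.2 + y.2) (a := u x.2 + u y.2) (by
        rw [map_add, hu, hu]; rfl)
      filter_upwards [hx, hy, h1, h2] with m h3 h4 h5 h6 α β h7
      change u (x.1 + y.1) m * β = u (x.2 + y.2) m * α
      rw [h5, h6, Pi.add_apply, Pi.add_apply, add_mul, add_mul, h3 α β h7, h4 α β h7]
    | smul r x _ hx =>
      have h1 := hgg (x := r * x.1) (a := u r * u x.1) (by
        rw [map_mul, hu, hu]; rfl)
      have h2 := hgg (x := r * x.2) (a := u r * u x.2) (by
        rw [map_mul, hu, hu]; rfl)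
      filter_upwards [hx, h1, h2] with m h3 h5 h6 α β h7
      change u (r * x.1) m * β = u (r * x.2) m * α
      rw [h5, h6, Pi.mul_apply, Pi.mul_apply, mul_assoc, mul_assoc, h3 α β h7]
  -- the shift
  have hshift : ∀ q ∈ L, ∃ q' ∈ L, (∀ᶠ m in atTop, u q'.1 m = u q.1 (m + k)) ∧
      ∀ᶠ m in atTop, u q'.2 m = u q.2 (m + k) := by
    intro q hq
    refine ⟨(⟨(shG ^ k) (q.1 : GG), hv.pow k _ q.1.2⟩, ⟨(shG ^ k) (q.2 : GG), hv.pow k _ q.2.2⟩),
      ?_, ?_, ?_⟩
    · change f ⟨(shG ^ k) (q.1 : GG), _⟩ = g * f ⟨(shG ^ k) (q.2 : GG), _⟩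
      rw [← sigma_pow hs hv, ← sigma_pow hs hv, show f q.1 = _ from hq, map_mul, hg]
    · exact hgg (by
        change (shG ^ k) (q.1 : GG) = _
        rw [← hu q.1, shG_pow])
    · exact hgg (by
        change (shG ^ k) (q.2 : GG) = _
        rw [← hu q.2, shG_pow])
  choose! q' hq'L hq'1 hq'2 using hshift
  have hTL : ∀ s ∈ T, s ∈ L := fun s hs => by
    rw [← hT]
    exact Submodule.subset_span hs
  have hstep : ∀ᶠ m in atTop, ∀ α β : ℂ, (∀ s ∈ T, u s.1 m * β = u s.2 m * α) →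
      ∀ s ∈ T, u s.1 (m + k) * β = u s.2 (m + k) * α := by
    have h1 : ∀ᶠ m in atTop, ∀ s ∈ T, ∀ α β : ℂ, (∀ s ∈ T, u s.1 m * β = u s.2 m * α) →
        u s.1 (m + k) * β = u s.2 (m + k) * α := by
      rw [Finset.eventually_all]
      intro s hs
      filter_upwards [hspan (q' s) (by rw [hT]; exact hq'L s (hTL s hs)), hq'1 s (hTL s hs),
        hq'2 s (hTL s hs)] with m h1 h2 h3 α β h4
      rw [← h2, ← h3]
      exact h1 α β h4
    filter_upwards [h1] with m hm α β h2 s hs
    exact hm s hs α β h2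
  have hprop : ∀ᶠ m in atTop, ∀ s ∈ T, ∀ s' ∈ T, u s.1 m * u s'.2 m = u s.2 m * u s'.1 m := by
    rw [Finset.eventually_all]
    intro s hs
    rw [Finset.eventually_all]
    intro s' hs'
    have h1 : s.1 * s'.2 = s.2 * s'.1 := by
      apply hf
      rw [map_mul, map_mul, show f s.1 = _ from hTL s hs, show f s'.1 = _ from hTL s' hs']
      ring
    have h2 := hgg (x := s.1 * s'.2) (a := u s.1 * u s'.2) (by
      rw [map_mul, hu, hu]; rfl)
    have h3 := hgg (x := s.2 * s'.1) (a := u s.2 * u s'.1) (by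
      rw [map_mul, hu, hu]; rfl)
    rw [h1] at h2
    filter_upwards [h2, h3] with m h4 h5
    rw [h4, Pi.mul_apply, Pi.mul_apply] at h5
    exact h5
  obtain ⟨m1, hm1⟩ := eventually_atTop.1 (hstep.and hprop)
  have hAB' : ∀ᶠ m in atTop, ∀ α β : ℂ, (∀ s ∈ T, u s.1 m * β = u s.2 m * α) →
      A m * β = B m * α := by
    have h1 := hspan (⟨gg A, hA⟩, ⟨gg B, hB⟩) (by
      rw [hT]
      exact hAB)
    have h2 : ∀ᶠ m in atTop, u ⟨gg A, hA⟩ m = A m := hgg rfl
    have h3 : ∀ᶠ m in atTop, u ⟨gg B, hB⟩ m = B m := hgg rfl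
    filter_upwards [h1, h2, h3] with m h4 h5 h6 α β h7
    have h8 := h4 α β h7
    change u ⟨gg A, hA⟩ m * β = u ⟨gg B, hB⟩ m * α at h8
    rwa [h5, h6] at h8
  have htend : Tendsto (fun m => c + k * m) atTop atTop := by
    refine tendsto_atTop_mono (fun m => ?_) tendsto_id
    change m ≤ c + k * m
    have : 1 * m ≤ k * m := Nat.mul_le_mul_right m hk
    omega
  have hAB2 := htend.eventually hAB'
  by_cases hcase : ∃ t, m1 ≤ c + k * t ∧ ∃ s ∈ T, u s.1 (c + k * t) ≠ 0 ∨ u s.2 (c + k * t) ≠ 0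
  · obtain ⟨t, ht, s, hs, hne⟩ := hcase
    refine ⟨u s.1 (c + k * t), u s.2 (c + k * t), hne, ?_⟩
    have h1 : ∀ i, ∀ s' ∈ T, u s'.1 (c + k * (t + i)) * u s.2 (c + k * t) =
        u s'.2 (c + k * (t + i)) * u s.1 (c + k * t) := by
      intro i
      induction i with
      | zero =>
        intro s' hs'
        exact (hm1 _ ht).2 s' hs' s hs
      | succ i ih =>
        have h2 : m1 ≤ c + k * (t + i) := by
          have : k * t ≤ k * (t + i) := Nat.mul_le_mul_left k (Nat.le_add_right t i)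
          omega
        have h3 := (hm1 _ h2).1 _ _ ih
        have h4 : c + k * (t + (i + 1)) = c + k * (t + i) + k := by ring
        rw [h4]
        exact h3
    filter_upwards [hAB2, eventually_ge_atTop t] with m h2 h3
    refine h2 _ _ ?_
    have h4 := h1 (m - t)
    rw [Nat.add_sub_cancel' h3] at h4
    exact h4
  · push Not at hcase
    refine ⟨1, 1, Or.inl one_ne_zero, ?_⟩
    filter_upwards [hAB2, htend.eventually (eventually_ge_atTop m1)] with m h2 h3
    refine h2 1 1 fun s hs => ?_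
    have h4 := hcase m h3 s hs
    rw [h4.1, h4.2]

section dense

variable {p : Ideal (MvPolynomial (Fin (N + 1)) ℂ)} {Q : MvPolynomial (Fin (N + 1)) ℂ}
  {F : Type} [Field F] [Algebra ℂ F] {w : ℕ} {y : Fin (N + 1) → F}

theorem prod_mem' (hy : FunField p Q F w y) {ι : Type}
    (s : Finset ι) {H : ι → MvPolynomial (Fin (N + 1)) ℂ} (hH : ∀ i, IsForm (H i))
    (h : ∏ i ∈ s, H i ∈ p) : ∃ i ∈ s, H i ∈ p := by
  have h2 := hy.sub.mem _ h
  unfold W602.GT.val at h2
  rw [map_prod, Finset.prod_eq_zero_iff] at h2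
  obtain ⟨i, hi, h3⟩ := h2
  exact ⟨i, hi, hy.mem _ (hH i) h3⟩

/-- one of the arithmetic progressions is dense -/
theorem dense_split' (hy : FunField p Q F w y)
    {x : ℕ → Fin (N + 1) → ℂ} (h : TailDense p x) {M : ℕ} (hM : 0 < M) :
    ∃ b, TailDense p fun m => x (b + M * m) := by
  by_contra hcon
  push Not at hcon
  unfold TailDense at hcon
  push Not at hcon
  choose H hH hz hHp using hcon
  have h1 : ∏ b ∈ Finset.range M, H b ∈ p := by
    refine h _ (prod_form _ hH) ?_
    have h2 : ∀ᶠ m in atTop, ∀ b ∈ Finset.range M, eval (x (b + M * m)) (H b) = 0 := by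
      rw [Finset.eventually_all]
      exact fun b _ => hz b
    obtain ⟨m0, hm0⟩ := eventually_atTop.1 h2
    refine eventually_atTop.2 ⟨M * m0, fun m hm => ?_⟩
    rw [map_prod]
    refine Finset.prod_eq_zero (Finset.mem_range.2 (Nat.mod_lt m hM)) ?_
    have h3 := hm0 (m / M) ((Nat.le_div_iff_mul_le hM).2 (by rw [Nat.mul_comm]; exact hm)) (m % M)
      (Finset.mem_range.2 (Nat.mod_lt m hM))
    rwa [Nat.mod_add_div] at h3
  obtain ⟨b, -, hb⟩ := prod_mem' hy _ hH h1
  exact hHp b hb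

/-- **Invariant functions and density.** -/
theorem not_dense_of_fixed (hy : FunField p Q F w y) {v : Fin n → GG} (hv : Stable v)
    {x : ℕ → Fin (N + 1) → ℂ} (hx : Rel v x) (hden : TailDense p x) {K : Type} [Field K]
    [Algebra ℂ K] {f : SS v →ₐ[ℂ] K} (hf : Function.Injective f) {σ : K →ₐ[ℂ] K}
    (hs : ∀ (z : SS v) (hz : shG (z : GG) ∈ SS v), σ (f z) = f ⟨shG z, hz⟩) {i0 : Fin (N + 1)}
    (ι : F →ₐ[ℂ] K)
    (hι : ∀ i, f ⟨_, AA_le v (hx i)⟩ = f ⟨_, AA_le v (hx i0)⟩ * ι (y i / y i0))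
    {g : F} (hg : Transcendental ℂ g) {k : ℕ} (hk : 0 < k) (hfix : (σ ^ k) (ι g) = ι g) :
    False := by
  classical
  obtain ⟨d, G1, G0, hG1, hG0, hG0y, hgG⟩ := exists_frac hy.sub.gen g
  -- the germs of the values
  have hmem : ∀ G : MvPolynomial (Fin (N + 1)) ℂ, gg (fun m => eval (x m) G) ∈ SS v := by
    intro G
    apply AA_le
    rw [gg_eval]
    have h1 : ∀ i, (gg fun m => x m i) ∈ AA v := hx
    induction G using MvPolynomial.induction_on with
    | C c => rw [aeval_C]; exact (AA v).algebraMap_mem c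
    | add p q hp hq => rw [map_add]; exact (AA v).add_mem hp hq
    | mul_X p i hp => rw [map_mul, aeval_X]; exact (AA v).mul_mem hp (h1 i)
  have hval : ∀ G : MvPolynomial (Fin (N + 1)) ℂ, G.IsHomogeneous d →
      f ⟨_, hmem G⟩ = (f ⟨_, AA_le v (hx i0)⟩ * ι (y i0)⁻¹) ^ d * ι (W602.GT.val y G) := by
    intro G hG
    have h1 : (⟨_, hmem G⟩ : SS v) = aeval (fun j => (⟨_, AA_le v (hx j)⟩ : SS v)) G := by
      apply Subtype.ext
      have h2 := MvPolynomial.comp_aeval_apply
        (f := fun j => (⟨_, AA_le v (hx j)⟩ : SS v)) (SS v).val G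
      change gg (fun m => eval (x m) G) =
        (SS v).val (aeval (fun j => (⟨_, AA_le v (hx j)⟩ : SS v)) G)
      rw [h2, gg_eval]
      rfl
    rw [h1]
    have h2 := MvPolynomial.comp_aeval_apply
      (f := fun j => (⟨_, AA_le v (hx j)⟩ : SS v)) f G
    rw [h2]
    have h3 : (fun j => f (⟨_, AA_le v (hx j)⟩ : SS v)) = fun j =>
        (f ⟨_, AA_le v (hx i0)⟩ * ι (y i0)⁻¹) * ι (y j) := by
      funext j
      rw [hι j, map_div₀, map_inv₀]
      ring
    rw [h3, aeval_scale_hom hG]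
    congr 1
    exact (MvPolynomial.comp_aeval_apply (f := y) ι G).symm
  have hAB : f ⟨_, hmem G1⟩ = ι g * f ⟨_, hmem G0⟩ := by
    rw [hval G1 hG1, hval G0 hG0, hgG, map_div₀]
    have h1 : ι (W602.GT.val y G0) ≠ 0 := by rwa [Ne, map_eq_zero]
    field_simp
  obtain ⟨b, hb⟩ := dense_split' hy hden hk
  obtain ⟨α, β, hαβ, hline⟩ := line_of_fixed hv hf hs hk hfix (hmem G1) (hmem G0) hAB b
  have h1 : G1 * C β - G0 * C α ∈ p := by
    refine hb _ ⟨d, ?_⟩ ?_
    · have h2 := hG1.mul (isHomogeneous_C (Fin (N + 1)) β)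
      have h3 := hG0.mul (isHomogeneous_C (Fin (N + 1)) α)
      rw [add_zero] at h2 h3
      exact h2.sub h3
    · filter_upwards [hline] with m hm
      rw [map_sub, map_mul, map_mul, eval_C, eval_C, hm, sub_self]
  have h2 := hy.sub.mem _ h1
  unfold W602.GT.val at h2
  rw [map_sub, map_mul, map_mul, aeval_C, aeval_C, sub_eq_zero] at h2
  by_cases hβ : β = 0
  · rw [hβ, map_zero, mul_zero] at h2
    have h3 : algebraMap ℂ F α ≠ 0 := by
      rw [Ne, map_eq_zero]
      exact hαβ.resolve_right (not_not.2 hβ)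
    exact hG0y ((mul_eq_zero.1 h2.symm).resolve_right h3)
  · apply hg
    have h3 : g = algebraMap ℂ F (α / β) := by
      rw [hgG, map_div₀]
      have h4 : algebraMap ℂ F β ≠ 0 := by rwa [Ne, map_eq_zero]
      have h5 : (aeval y G0 : F) ≠ 0 := hG0y
      change aeval y G1 / aeval y G0 = _
      rw [div_eq_div_iff h5 h4, h2, mul_comm]
    rw [h3]
    exact isAlgebraic_algebraMap _

/-- **Orbits are not dense** in varieties with a fibration of general type. -/
theorem not_dense_fib {p : Ideal (MvPolynomial (Fin (N + 1)) ℂ)} {F : Type} [Field F]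
    [Algebra ℂ F] {w : ℕ} {y : Fin (N + 1) → F} (hy : FunField p 1 F w y) {q e : ℕ}
    {g : Fin q → F} {c : F} (hq : 0 < q) (he : 0 < e) (hc : c ≠ 0)
    (hg : AlgebraicIndependent ℂ g) (h : GenFib w (fun _ : FF.Place ℂ F => False) g c e)
    (v : Fin n → GG) (x : ℕ → Fin (N + 1) → ℂ) (hv : Stable v) (hx : Rel v x) :
    (∀ᶠ m in atTop, x m ≠ 0) → (∀ᶠ m in atTop, ∀ H ∈ p, eval (x m) H = 0) →
    ¬ TailDense p x := by
  refine noeth (fun _ x => (∀ᶠ m in atTop, x m ≠ 0) →
    (∀ᶠ m in atTop, ∀ H ∈ p, eval (x m) H = 0) → ¬ TailDense p x) ?_ ?_ v x hv hx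
  · clear hv hx
    intro v x hv hd hx hne hX hden
    obtain ⟨K, _, _, _, f, σ, hf, hs⟩ := exists_field hv hd
    have hz := aeval_zero hf hx
    obtain ⟨Y, hY⟩ : ∃ Y : Fin (N + 1) → K, Y = fun j => f ⟨_, AA_le v (hx j)⟩ := ⟨_, rfl⟩
    rw [← hY] at hz
    have hyz : ∀ G : MvPolynomial (Fin (N + 1)) ℂ, IsForm G →
        (W602.GT.val y G = 0 ↔ W602.GT.val Y G = 0) := by
      intro G hG
      have h1 : W602.GT.val Y G = 0 ↔ ∀ᶠ m in atTop, eval (x m) G = 0 := hz G
      rw [h1]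
      constructor
      · intro h0
        filter_upwards [hX] with m hm
        exact hm G (hy.mem G hG h0)
      · intro h0
        exact hy.sub.mem G (hden G hG h0)
    obtain ⟨i0, hi0⟩ := Function.ne_iff.1 hy.sub.ne
    have hi0' : y i0 ≠ 0 := hi0
    have hYi : Y i0 ≠ 0 := by
      intro h0
      apply hi0'
      have h1 := (hyz (X i0) ⟨1, isHomogeneous_X _ _⟩).2 (by
        unfold W602.GT.val
        rw [aeval_X]
        exact h0)
      unfold W602.GT.val at h1
      rwa [aeval_X] at h1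
    obtain ⟨ι, hι⟩ := exists_embedding hi0' hYi hy.sub.gen hyz
    have hess : Algebra.EssFiniteType ℂ F := ess_of_coords hy.sub.gen
    obtain ⟨k, hk, hper⟩ := ko_proj hy.sub.dim he hc hg h σ ι
    refine not_dense_of_fixed hy hv hx hden hf (fun z _ => hs z) (i0 := i0) ι (fun i => ?_)
      (hg.transcendental ⟨0, hq⟩) hk (hper _)
    have h1 := hι i
    rw [h1]
    have h2 : f ⟨_, AA_le v (hx i0)⟩ = Y i0 := by rw [hY]
    have h3 : f ⟨_, AA_le v (hx i)⟩ = Y i := by rw [hY]
    rw [h2, h3, mul_div_cancel₀ _ hYi]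
  · clear hv hx
    intro v x hv hx M hM ih hne hX hden
    obtain ⟨b, hb⟩ := dense_split' hy hden hM
    exact ih b (ev_res hne hM) (ev_res hX hM) hb

end dense

end Pool.Agent.Q13.NS
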