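import Pool.Agent.Q13.NS.Pair
import Pool.Agent.Q13.NS.Orb
import Pool.Agent.TH122.AB.Fd
import Pool.Agent.W602.GT.Circ

/-!
Orbits and orbifold pairs of general type.
-/

set_option autoImplicit false
set_option linter.overlappingInstances false

open FF MvPolynomial Filter Pool.Agent.W602.GT Pool.Agent.W603.LV Pool.Agent.Q13.KO
  Pool.Agent.TH143.GT Pool.Agent.TH143.DE Pool.Agent.TH143.HE Pool.Agent.TH143.TW
  Pool.Agent.TH143.GE Pool.Agent.Y172

namespace Pool.Agent.Q13.NS

section defs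

variable {F : Type} [Field F] [Algebra ℂ F] {N : ℕ}

/-- The order, at the place `P`, of the divisor `G = 0` on the variety with generic point `y`: here
`G` is a form of degree `d`, and `y i0` is the coordinate of least order at `P`. -/
noncomputable def dord (P : Place ℂ F) (y : Fin (N + 1) → F) (i0 : Fin (N + 1))
    (G : MvPolynomial (Fin (N + 1)) ℂ) (d : ℕ) : ℤ :=
  P.ord (W602.GT.val y G) - d * P.ord (y i0)

/-- The order, at the place `P`, of the closed subscheme given by the forms `G l` of degree `d l`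
(some of them can be zero), on the variety with generic point `y`; here `y i0` is the coordinate of
least order at `P`. -/
noncomputable def iord (P : Place ℂ F) (y : Fin (N + 1) → F) (i0 : Fin (N + 1)) {q : ℕ}
    (G : Fin q → MvPolynomial (Fin (N + 1)) ℂ) (d : Fin q → ℕ) : ℕ :=
  sInf {n : ℕ | ∃ l, W602.GT.val y (G l) ≠ 0 ∧ dord P y i0 (G l) (d l) = n}

/-- Let `X` be a projective variety with function field `F` over `ℂ`, of dimension `w`, with generic
point `y`, and let `D i` be the closed subscheme of `X` (for instance, an effective divisor) given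
by the forms `G i l` of degree `d i l`. The pair `(X, ∑ (1 - 1 / m i) D i)` is of general type: for
some `M > 0` there are `w + 1` sections `s j * (dz 1 ∧ … ∧ dz w) ^ M` of `M (K + Δ)`, with `w`
algebraically independent ratios. The value `m i = 0` stands for the multiplicity `∞` (note that
`1 / 0 = 0` in Lean).

In terms of the prime divisors `P` of all models of `X`, a section of `M (K + Δ)` has, on
logarithmic vector fields, the order at least `M * ∑ ord_P (D i) / m i` at `P`, and it is regular at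
the `P` whose centre is not on the `D i`. -/
def PairGT (w : ℕ) (y : Fin (N + 1) → F) {r q : ℕ}
    (G : Fin r → Fin q → MvPolynomial (Fin (N + 1)) ℂ) (d : Fin r → Fin q → ℕ) (m : Fin r → ℕ) :
    Prop :=
  ∃ (M : ℕ) (z : Fin w → F) (s : Fin (w + 1) → F), 0 < M ∧ AlgebraicIndependent ℂ z ∧ s 0 ≠ 0 ∧
    AlgebraicIndependent ℂ (fun j : Fin w => s j.succ / s 0) ∧
    ∀ P : Place ℂ F, Divisorial w P → ∀ i0, y i0 ≠ 0 →
      (∀ i, y i ≠ 0 → P.ord (y i0) ≤ P.ord (y i)) → ∀ j,
        (∀ D : Fin w → Derivation ℂ F F, (∀ i, DerLog P (D i)) →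
          s j * (Matrix.of fun a b => D a (z b)).det ^ M = 0 ∨
            (M : ℚ) * ∑ i, (iord P y i0 (G i) (d i) : ℚ) / (m i : ℚ) ≤
              P.ord (s j * (Matrix.of fun a b => D a (z b)).det ^ M)) ∧
        ((∀ i, iord P y i0 (G i) (d i) = 0) → ∀ D : Fin w → Derivation ℂ F F,
          (∀ i, DerReg P (D i)) → P.Reg (s j * (Matrix.of fun a b => D a (z b)).det ^ M))

/-- the order of a divisor is not negative -/
theorem dord_nonneg {P : Place ℂ F} {y : Fin (N + 1) → F} {i0 : Fin (N + 1)} (h0 : y i0 ≠ 0)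
    (hmin : ∀ i, y i ≠ 0 → P.ord (y i0) ≤ P.ord (y i)) {G : MvPolynomial (Fin (N + 1)) ℂ} {d : ℕ}
    (hG : G.IsHomogeneous d) (hG0 : W602.GT.val y G ≠ 0) : 0 ≤ dord P y i0 G d := by
  have h1 : W602.GT.val y G = y i0 ^ d * aeval (fun i => y i / y i0) G := by
    have h2 := aeval_scale_hom (R := ℂ) hG (fun i => y i / y i0) (y i0)
    have h3 : (fun j => y i0 * (y j / y i0)) = y := by
      funext j
      rw [mul_div_cancel₀ _ h0]
    rw [h3] at h2
    exact h2
  have h2 : aeval (fun i => y i / y i0) G ≠ 0 := by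
    intro h3
    rw [h1, h3, mul_zero] at hG0
    exact hG0 rfl
  have h3 : P.Reg (aeval (fun i => y i / y i0) G) := by
    refine W603.GR.reg_aeval P (fun i => ?_) G
    by_cases hi : y i = 0
    · left
      rw [hi, zero_div]
    · right
      rw [P.ord_div hi h0]
      linarith [hmin i hi]
  unfold dord
  rw [h1, P.ord_mul (pow_ne_zero _ h0) h2, P.ord_pow]
  linarith [(P.reg_iff h2).1 h3]

theorem iord_le {P : Place ℂ F} {y : Fin (N + 1) → F} {i0 : Fin (N + 1)} (h0 : y i0 ≠ 0)
    (hmin : ∀ i, y i ≠ 0 → P.ord (y i0) ≤ P.ord (y i)) {q : ℕ}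
    {G : Fin q → MvPolynomial (Fin (N + 1)) ℂ} {d : Fin q → ℕ}
    (hG : ∀ l, (G l).IsHomogeneous (d l)) {l : Fin q} (hl : W602.GT.val y (G l) ≠ 0) :
    (iord P y i0 G d : ℤ) ≤ dord P y i0 (G l) (d l) := by
  obtain ⟨n, hn⟩ := Int.eq_ofNat_of_zero_le (dord_nonneg h0 hmin (hG l) hl)
  rw [hn]
  exact_mod_cast Nat.sInf_le (s := {n : ℕ | ∃ l, W602.GT.val y (G l) ≠ 0 ∧
    dord P y i0 (G l) (d l) = n}) ⟨l, hl, hn⟩

theorem iord_mem {P : Place ℂ F} {y : Fin (N + 1) → F} {i0 : Fin (N + 1)} (h0 : y i0 ≠ 0)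
    (hmin : ∀ i, y i ≠ 0 → P.ord (y i0) ≤ P.ord (y i)) {q : ℕ}
    {G : Fin q → MvPolynomial (Fin (N + 1)) ℂ} {d : Fin q → ℕ}
    (hG : ∀ l, (G l).IsHomogeneous (d l)) (hne : ∃ l, W602.GT.val y (G l) ≠ 0) :
    ∃ l, W602.GT.val y (G l) ≠ 0 ∧ dord P y i0 (G l) (d l) = iord P y i0 G d := by
  obtain ⟨l, hl⟩ := hne
  obtain ⟨n, hn⟩ := Int.eq_ofNat_of_zero_le (dord_nonneg h0 hmin (hG l) hl)
  exact Nat.sInf_mem (s := {n : ℕ | ∃ l, W602.GT.val y (G l) ≠ 0 ∧
    dord P y i0 (G l) (d l) = n}) ⟨n, l, hl, hn⟩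

/-- the ratios of the sections as coordinates -/
theorem exists_coord {w : ℕ} {z : Fin w → F} (hz : AlgebraicIndependent ℂ z) {s : Fin (w + 1) → F}
    (hs0 : s 0 ≠ 0) (halg : ∀ j, IsAlgebraic (IntermediateField.adjoin ℂ (Set.range z)) (s j / s 0))
    (hind : AlgebraicIndependent ℂ (fun j : Fin w => s j.succ / s 0)) (M : ℕ) :
    ∃ (g : Fin w → F) (c : F), c ≠ 0 ∧ AlgebraicIndependent ℂ g ∧
      ∀ (j : Fin (w + 1)) (D : Fin w → Derivation ℂ F F),
        tv g c M j D = s j * (Matrix.of fun a b => D a (z b)).det ^ M := by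
  classical
  obtain ⟨E, hE⟩ := Pool.Agent.TH466.QT.exists_dual_of_indep hz
  obtain ⟨g, hg⟩ : ∃ g : Fin w → F, ∀ j, g j = s j.succ / s 0 := ⟨_, fun _ => rfl⟩
  have hgind : AlgebraicIndependent ℂ g := by
    have : g = fun j : Fin w => s j.succ / s 0 := funext hg
    rwa [this]
  have hchain : ∀ (D : Derivation ℂ F F) (b : Fin w), D (g b) = ∑ a, D (z a) * E a (g b) := by
    intro D b
    have h1 : Kills (D - ∑ a, D (z a) • E a) (acl ℂ (Set.range z)) := by
      refine kills_acl ?_
      rintro _ ⟨i, rfl⟩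
      rw [Derivation.sub_apply, sum_smul_apply, Finset.sum_eq_single i]
      · rw [hE, if_pos rfl, mul_one, sub_self]
      · intro a _ ha
        rw [hE, if_neg (Ne.symm ha), mul_zero]
      · intro hi
        exact absurd (Finset.mem_univ i) hi
    have h2 : g b ∈ acl ℂ (Set.range z) := by
      rw [mem_acl, hg]
      exact halg b.succ
    have h3 := h1 _ h2
    rw [Derivation.sub_apply, sum_smul_apply, sub_eq_zero] at h3
    exact h3
  obtain ⟨J, hJ⟩ : ∃ J : F, J = (Matrix.of fun a b => E a (g b)).det := ⟨_, rfl⟩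
  have hdet : ∀ D : Fin w → Derivation ℂ F F, (Matrix.of fun a b => D a (g b)).det =
      (Matrix.of fun a b => D a (z b)).det * J := by
    intro D
    rw [hJ, ← Matrix.det_mul]
    congr 1
    ext a b
    rw [Matrix.of_apply, Matrix.mul_apply, hchain]
    rfl
  have hJ0 : J ≠ 0 := by
    obtain ⟨D, hD⟩ := Pool.Agent.TH466.QT.exists_dual_of_indep hgind
    intro h0
    have h1 := hdet D
    rw [h0, mul_zero] at h1
    have h2 : (Matrix.of fun a b => D a (g b)) = (1 : Matrix (Fin w) (Fin w) F) := by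
      ext j i
      rw [Matrix.of_apply, hD, Matrix.one_apply]
      by_cases hij : i = j
      · rw [if_pos hij, if_pos hij.symm]
      · rw [if_neg hij, if_neg (Ne.symm hij)]
    rw [h2, Matrix.det_one] at h1
    exact one_ne_zero h1
  refine ⟨g, s 0 * (J ^ M)⁻¹, mul_ne_zero hs0 (inv_ne_zero (pow_ne_zero _ hJ0)), hgind,
    fun j D => ?_⟩
  have h1 : (Fin.cons 1 g : Fin (w + 1) → F) j * s 0 = s j := by
    refine Fin.cases ?_ (fun i => ?_) j
    · rw [Fin.cons_zero, one_mul]
    · rw [Fin.cons_succ, hg, div_mul_cancel₀ _ hs0]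
  have hJN : J ^ M ≠ 0 := pow_ne_zero _ hJ0
  unfold tv
  rw [hdet, mul_pow, ← h1]
  field_simp

/-- finitely many elements are regular at the places with centre on an open subset of the affine
space with given coordinates -/
theorem exists_h {K : Type} [Field K] [Algebra ℂ K] {d n : ℕ} {Z : Fin d → K}
    (hZ : IsTranscendenceBasis ℂ Z) (u : Fin n → K) :
    ∃ h : MvPolynomial (Fin d) ℂ, h ≠ 0 ∧ ∀ P : Place ℂ K,
      (∀ f : MvPolynomial (Fin d) ℂ, P.Reg (aeval Z f)) → P.ord (aeval Z h) = 0 →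
        ∀ i, P.Reg (u i) := by
  classical
  choose q hq0 hq using fun i => Pool.Agent.TH122.AB.exists_mult hZ (u i)
  have hZ0 : ∀ f : MvPolynomial (Fin d) ℂ, f ≠ 0 → aeval Z f ≠ 0 := fun f hf h0 =>
    hf ((injective_iff_map_eq_zero _).1 hZ.1 _ h0)
  refine ⟨∏ i, q i, Finset.prod_ne_zero_iff.2 fun i _ => hq0 i, fun P hP h0 i => ?_⟩
  rw [map_prod, W602.GT.ord_prod' P _ _ fun i _ => hZ0 _ (hq0 i)] at h0
  have h1 : P.ord (aeval Z (q i)) = 0 :=
    (Finset.sum_eq_zero_iff_of_nonneg fun i _ =>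
      (hP (q i)).resolve_left (hZ0 _ (hq0 i))).1 h0 i (Finset.mem_univ i)
  have h2 := Pool.Agent.TH122.AB.reg_of_int hP (hq i)
  by_cases hu : u i = 0
  · exact Or.inl hu
  right
  have h3 := h2.resolve_left (mul_ne_zero (hZ0 _ (hq0 i)) hu)
  rw [P.ord_mul (hZ0 _ (hq0 i)) hu, h1, zero_add] at h3
  exact h3

end defs

section

variable {n N : ℕ}

/-- the algebra generated by the `v i` is closed under the shift -/
def AStable (v : Fin n → GG) : Prop := ∀ i, shG (v i) ∈ AA v

theorem AStable.stable {v : Fin n → GG} (h : AStable v) : Stable v := fun i => AA_le v (h i)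

theorem AStable.all {v : Fin n → GG} (h : AStable v) : ∀ z ∈ AA v, shG z ∈ AA v := by
  intro u hu
  unfold AA at hu
  induction hu using Algebra.adjoin_induction with
  | mem x hx =>
    obtain ⟨i, rfl⟩ := hx
    exact h i
  | algebraMap c =>
    have h1 : shG (algebraMap ℂ GG c) = algebraMap ℂ GG c := by
      rw [← gg.commutes c, shG_gg]
      rfl
    rw [h1]
    exact (AA v).algebraMap_mem c
  | add x y _ _ hx hy =>
    rw [map_add]
    exact (AA v).add_mem hx hy
  | mul x y _ _ hx hy =>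
    rw [map_mul]
    exact (AA v).mul_mem hx hy

theorem AStable.pow {v : Fin n → GG} (h : AStable v) (M : ℕ) : ∀ z ∈ AA v, (shG ^ M) z ∈ AA v := by
  induction M with
  | zero => exact fun z hz => hz
  | succ M ih =>
    intro z hz
    rw [← shG_pow_succ]
    exact h.all _ (ih z hz)

theorem AStable.res {v : Fin n → GG} (h : AStable v) (b M : ℕ) (hM : 0 < M) :
    AStable (rs b M hM v) := by
  intro i
  unfold rs
  rw [shG_resG]
  exact res_AA (h.pow M _ (Algebra.subset_adjoin ⟨i, rfl⟩))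

/-- The germ at infinity of the sequence `x` is an orbifold point, over the algebra generated by
the `v i`: the ideal generated by the `G i l (x)` is generated by a product of powers with exponents
at least `m i`. -/
def GPt (v : Fin n → GG) {r q : ℕ} (G : Fin r → Fin q → MvPolynomial (Fin (N + 1)) ℂ)
    (m : Fin r → ℕ) (x : ℕ → Fin (N + 1) → ℂ) : Prop :=
  (∃ b : Fin (N + 1) → GG, (∀ j, b j ∈ AA v) ∧ ∑ j, b j * (gg fun t => x t j) = 1) ∧
  ∀ i, ∃ (s : ℕ) (a : Fin s → GG) (e : Fin s → ℕ), (∀ l, a l ∈ AA v) ∧ (∀ l, m i ≤ e l) ∧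
    (m i = 0 → s = 0) ∧
    (∀ l, ∃ c ∈ AA v, gg (fun t => eval (x t) (G i l)) = c * ∏ l, a l ^ e l) ∧
    ∃ b : Fin q → GG, (∀ l, b l ∈ AA v) ∧
      ∏ l, a l ^ e l = ∑ l, b l * gg (fun t => eval (x t) (G i l))

theorem GPt.res {v : Fin n → GG} {r q : ℕ} {G : Fin r → Fin q → MvPolynomial (Fin (N + 1)) ℂ}
    {m : Fin r → ℕ} {x : ℕ → Fin (N + 1) → ℂ} (h : GPt v G m x) (b M : ℕ) (hM : 0 < M) :
    GPt (rs b M hM v) G m fun t => x (b + M * t) := by
  obtain ⟨⟨c, hc, hc1⟩, h2⟩ := h
  refine ⟨⟨fun j => resG b M hM (c j), fun j => res_AA (hc j), ?_⟩, fun i => ?_⟩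
  · have h3 := congrArg (resG b M hM) hc1
    rw [map_sum, map_one] at h3
    rw [← h3]
    refine Finset.sum_congr rfl fun j _ => ?_
    rw [map_mul, resG_gg]
  · obtain ⟨s, a, e, ha, he, hs, hG, b', hb', hbG⟩ := h2 i
    have hprod : ∏ l, resG b M hM (a l) ^ e l = resG b M hM (∏ l, a l ^ e l) := by
      rw [map_prod]
      simp only [map_pow]
    refine ⟨s, fun l => resG b M hM (a l), e, fun l => res_AA (ha l), he, hs, fun l => ?_,
      fun l => resG b M hM (b' l), fun l => res_AA (hb' l), ?_⟩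
    · obtain ⟨c', hc', h3⟩ := hG l
      refine ⟨resG b M hM c', res_AA hc', ?_⟩
      have h4 := congrArg (resG b M hM) h3
      rw [resG_gg, map_mul] at h4
      rw [h4, hprod]
    · rw [hprod, hbG, map_sum]
      refine Finset.sum_congr rfl fun l _ => ?_
      rw [map_mul, resG_gg]

/-- the orders of the divisors at the places below -/
theorem order_mul {F K : Type} [Field F] [Algebra ℂ F] [Field K] [Algebra ℂ K]
    {y : Fin (N + 1) → F} {i1 : Fin (N + 1)} (hi1 : y i1 ≠ 0) {ν : Place ℂ F}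
    (hmin : ∀ i, y i ≠ 0 → ν.ord (y i1) ≤ ν.ord (y i)) {P : Place ℂ K} {ψ : F →ₐ[ℂ] K} {e : ℕ}
    (hν : ∀ z, P.ord (ψ z) = e * ν.ord z) {X : Fin (N + 1) → K} {c : K} (hc : c ≠ 0)
    (hX : ∀ j, X j = c * ψ (y j)) (hreg : ∀ j, P.Reg (X j)) {b : Fin (N + 1) → K}
    (hb : ∀ j, P.Reg (b j)) (hbX : ∑ j, b j * X j = 1)
    {G : MvPolynomial (Fin (N + 1)) ℂ} {d : ℕ} (hG : G.IsHomogeneous d)
    (hG0 : W602.GT.val y G ≠ 0) :
    aeval X G ≠ 0 ∧ P.ord (aeval X G) = e * dord ν y i1 G d := by
  classical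
  have hX0 : ∀ j, y j ≠ 0 → X j ≠ 0 := fun j hj => by
    rw [hX]
    exact mul_ne_zero hc (by rwa [Ne, map_eq_zero])
  have hXo : ∀ j, y j ≠ 0 → P.ord (X j) = P.ord c + e * ν.ord (y j) := fun j hj => by
    rw [hX, P.ord_mul hc (by rwa [Ne, map_eq_zero]), hν]
  have hge : 0 ≤ P.ord (X i1) := (hreg i1).resolve_left (hX0 i1 hi1)
  have hle : P.ord (X i1) ≤ 0 := by
    by_contra hcon
    push Not at hcon
    have h1 : Ge P 1 (∑ j, b j * X j) := by
      refine Ge.sum _ _ fun j _ => ?_
      have h2 : Ge P 1 (X j) := by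
        by_cases hj : y j = 0
        · left
          rw [hX, hj, map_zero, mul_zero]
        · right
          rw [hXo j hj]
          rw [hXo i1 hi1] at hcon
          have h3 := mul_le_mul_of_nonneg_left (hmin j hj) (Int.natCast_nonneg e)
          linarith
      have h3 : Ge P 0 (b j) := hb j
      have h4 := h3.mul h2
      rwa [zero_add] at h4
    rw [hbX] at h1
    rcases h1 with h1 | h1
    · exact one_ne_zero h1
    · rw [P.ord_one] at h1
      omega
  have hz : P.ord (X i1) = 0 := le_antisymm hle hge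
  rw [hXo i1 hi1] at hz
  have hval : aeval X G = c ^ d * ψ (W602.GT.val y G) := by
    have h3 : X = fun j => c * ψ (y j) := funext hX
    rw [h3, aeval_scale_hom hG]
    congr 1
    exact (MvPolynomial.comp_aeval_apply (f := y) ψ G).symm
  have hne : ψ (W602.GT.val y G) ≠ 0 := by rwa [Ne, map_eq_zero]
  refine ⟨by rw [hval]; exact mul_ne_zero (pow_ne_zero _ hc) hne, ?_⟩
  rw [hval, P.ord_mul (pow_ne_zero _ hc) hne, P.ord_pow, hν]
  unfold dord
  have h4 : P.ord c = -(e * ν.ord (y i1)) := by linarith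
  rw [h4]
  ring

/-- the orders of the closed subschemes at the places below -/
theorem order_ideal {F K : Type} [Field F] [Algebra ℂ F] [Field K] [Algebra ℂ K]
    {y : Fin (N + 1) → F} {i1 : Fin (N + 1)} (hi1 : y i1 ≠ 0) {ν : Place ℂ F}
    (hmin : ∀ i, y i ≠ 0 → ν.ord (y i1) ≤ ν.ord (y i)) {P : Place ℂ K} {ψ : F →ₐ[ℂ] K} {e : ℕ}
    (hν : ∀ z, P.ord (ψ z) = e * ν.ord z) {X : Fin (N + 1) → K} {c : K} (hc : c ≠ 0)
    (hX : ∀ j, X j = c * ψ (y j)) (hreg : ∀ j, P.Reg (X j)) {b : Fin (N + 1) → K}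
    (hb : ∀ j, P.Reg (b j)) (hbX : ∑ j, b j * X j = 1) {q : ℕ}
    {G : Fin q → MvPolynomial (Fin (N + 1)) ℂ} {d : Fin q → ℕ}
    (hG : ∀ l, (G l).IsHomogeneous (d l)) (hne : ∃ l, W602.GT.val y (G l) ≠ 0) {g : K}
    (hdiv : ∀ l, ∃ c', P.Reg c' ∧ aeval X (G l) = c' * g) {b' : Fin q → K}
    (hb' : ∀ l, P.Reg (b' l)) (hg : g = ∑ l, b' l * aeval X (G l)) :
    g ≠ 0 ∧ P.ord g = e * iord ν y i1 G d := by
  have key := fun l hl => order_mul hi1 hmin hν hc hX hreg hb hbX (hG l) (hG0 := hl)
  obtain ⟨l0, hl0, hl0'⟩ := iord_mem hi1 hmin hG hne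
  obtain ⟨h1, h2⟩ := key l0 hl0
  obtain ⟨c', hc', h3⟩ := hdiv l0
  have hc0 : c' ≠ 0 := by
    rintro rfl
    rw [zero_mul] at h3
    exact h1 h3
  have hg0 : g ≠ 0 := by
    rintro rfl
    rw [mul_zero] at h3
    exact h1 h3
  refine ⟨hg0, le_antisymm ?_ ?_⟩
  · rw [h3, P.ord_mul hc0 hg0, hl0'] at h2
    have h4 := hc'.resolve_left hc0
    linarith
  · have h4 : Ge P (e * iord ν y i1 G d) g := by
      rw [hg]
      refine Ge.sum _ _ fun l _ => ?_
      have h5 : Ge P (e * iord ν y i1 G d) (aeval X (G l)) := by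
        by_cases hl : W602.GT.val y (G l) = 0
        · left
          have h3 : X = fun j => c * ψ (y j) := funext hX
          have h6 : aeval (fun j => ψ (y j)) (G l) = ψ (W602.GT.val y (G l)) :=
            (MvPolynomial.comp_aeval_apply (f := y) ψ (G l)).symm
          rw [h3, aeval_scale_hom (hG l), h6, hl, map_zero, mul_zero]
        · right
          rw [(key l hl).2]
          exact mul_le_mul_of_nonneg_left (iord_le hi1 hmin hG hl) (Int.natCast_nonneg e)
      have h6 : Ge P 0 (b' l) := hb' l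
      have h7 := h6.mul h5
      rwa [zero_add] at h7
    exact h4.resolve_left hg0

/-- the order of a product of powers -/
theorem order_alt {K : Type} [Field K] [Algebra ℂ K] {P : Place ℂ K} {g : K} {s : ℕ}
    {a : Fin s → K} {e : Fin s → ℕ} {m : ℕ}
    (ha : ∀ l, P.Reg (a l)) (he : ∀ l, m ≤ e l) (hs : m = 0 → s = 0) (hg : g = ∏ l, a l ^ e l)
    (hg0 : g ≠ 0) : P.ord g = 0 ∨ (0 < m ∧ (m : ℤ) ≤ P.ord g) := by
  classical
  have hp0 : ∏ l, a l ^ e l ≠ 0 := by rwa [← hg]
  have hpl : ∀ l, a l ^ e l ≠ 0 := fun l => (Finset.prod_ne_zero_iff.1 hp0) l (Finset.mem_univ l)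
  have h2 : P.ord g = ∑ l, (e l : ℤ) * P.ord (a l) := by
    rw [hg, W602.GT.ord_prod' P _ _ fun l _ => hpl l]
    exact Finset.sum_congr rfl fun l _ => P.ord_pow _ _
  have hnn : ∀ l, 0 ≤ (e l : ℤ) * P.ord (a l) := by
    intro l
    rcases ha l with h0 | h0
    · rw [h0, P.ord_zero, mul_zero]
    · exact mul_nonneg (Int.natCast_nonneg _) h0
  by_cases hall : ∀ l, (e l : ℤ) * P.ord (a l) = 0
  · left
    rw [h2]
    exact Finset.sum_eq_zero fun l _ => hall l
  · push Not at hall
    obtain ⟨l, hl⟩ := hall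
    right
    have hm : 0 < m := by
      rcases Nat.eq_zero_or_pos m with h0 | h0
      · obtain rfl := hs h0
        exact l.elim0
      · exact h0
    refine ⟨hm, ?_⟩
    have h3 : (e l : ℤ) * P.ord (a l) ≤ P.ord g := by
      rw [h2]
      exact Finset.single_le_sum (f := fun l => (e l : ℤ) * P.ord (a l)) (fun l _ => hnn l)
        (Finset.mem_univ l)
    have h4 : 1 ≤ P.ord (a l) := by
      rcases ha l with h0 | h0
      · rw [h0, P.ord_zero, mul_zero] at hl
        exact absurd rfl hl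
      · rcases h0.lt_or_eq with h5 | h5
        · omega
        · rw [← h5, mul_zero] at hl
          exact absurd rfl hl
    have h5 : (m : ℤ) ≤ e l := by exact_mod_cast he l
    nlinarith

/-- **Orbifold points given by orbits are not dense** if the pair is of general type. -/
theorem not_dense_pair {p : Ideal (MvPolynomial (Fin (N + 1)) ℂ)} {F : Type} [Field F]
    [Algebra ℂ F] {w : ℕ} {y : Fin (N + 1) → F} (hy : FunField p 1 F w y) (hw : 0 < w) {r : ℕ}
    {q : ℕ} {G : Fin r → Fin q → MvPolynomial (Fin (N + 1)) ℂ} {d : Fin r → Fin q → ℕ}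
    {m : Fin r → ℕ} (hG : ∀ i l, (G i l).IsHomogeneous (d i l)) (hGp : ∀ i, ∃ l, G i l ∉ p)
    (hGT : PairGT w y G d m)
    (v : Fin n → GG) (x : ℕ → Fin (N + 1) → ℂ) (hv : Stable v) (hx : Rel v x) :
    AStable v → GPt v G m x → (∀ᶠ t in atTop, ∀ H ∈ p, eval (x t) H = 0) →
    ¬ TailDense p x := by
  classical
  refine noeth (fun v x => AStable v → GPt v G m x →
    (∀ᶠ t in atTop, ∀ H ∈ p, eval (x t) H = 0) → ¬ TailDense p x) ?_ ?_ v x hv hx
  · clear hv hx
    intro v x hv hd hx hav hpt hX hden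
    obtain ⟨K, _, _, _, f, σ, hf, hs⟩ := exists_field hv hd
    have hz := aeval_zero hf hx
    obtain ⟨Y, hY⟩ : ∃ Y : Fin (N + 1) → K, Y = fun j => f ⟨_, AA_le v (hx j)⟩ := ⟨_, rfl⟩
    rw [← hY] at hz
    have hyz : ∀ G : MvPolynomial (Fin (N + 1)) ℂ, IsForm G →
        (W602.GT.val y G = 0 ↔ W602.GT.val Y G = 0) := by
      intro G hG
      have h1 : W602.GT.val Y G = 0 ↔ ∀ᶠ m in atTop, eval (x m) G = 0 := hz G
      rw [h1]
      constructor
      · intro h0
        filter_upwards [hX] with m hm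
        exact hm G (hy.mem G hG h0)
      · intro h0
        exact hy.sub.mem G (hden G hG h0)
    obtain ⟨i0, hi0⟩ := Function.ne_iff.1 hy.sub.ne
    have hi0' : y i0 ≠ 0 := hi0
    have hYi : Y i0 ≠ 0 := by
      intro h0
      apply hi0'
      have h1 := (hyz (X i0) ⟨1, isHomogeneous_X _ _⟩).2 (by
        unfold W602.GT.val
        rw [aeval_X]
        exact h0)
      unfold W602.GT.val at h1
      rwa [aeval_X] at h1
    obtain ⟨ι, hι⟩ := exists_embedding hi0' hYi hy.sub.gen hyz
    have hess : Algebra.EssFiniteType ℂ F := ess_of_coords hy.sub.gen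
    obtain ⟨dd, hdd⟩ : ∃ dd : ℕ, Algebra.trdeg ℂ K = dd :=
      Cardinal.lt_aleph0.1 (trdeg_lt_aleph0 ℂ K)
    obtain ⟨Z, hZ⟩ := Pool.Agent.Y173.QA.exists_tb hdd
    obtain ⟨hh, hh0, hhh⟩ := exists_h hZ fun i =>
      f ⟨v i, AA_le v (Algebra.subset_adjoin ⟨i, rfl⟩)⟩
    -- the coordinates
    obtain ⟨M, z, s, hM, hz1, hs0, hind, hPD⟩ := hGT
    have hzb : IsTranscendenceBasis ℂ z := hz1.isTranscendenceBasis_of_trdeg_le
      (by rw [hy.sub.dim]; exact Cardinal.natCast_lt_aleph0)
      (by rw [hy.sub.dim, Cardinal.mk_fin])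
    have halg : Algebra.IsAlgebraic (IntermediateField.adjoin ℂ (Set.range z)) F :=
      hzb.isAlgebraic_field
    obtain ⟨g, c, hc, hgi, hgv⟩ := exists_coord hz1 hs0 (fun j => halg.isAlgebraic _) hind M
    choose i1 hi1 hmin using fun P : Place ℂ F => W603.GR.exists_min P hy.sub.ne
    obtain ⟨o, ho⟩ : ∃ o : Place ℂ F → ℤ, ∀ P, o P = ⌈(M : ℚ) *
        ∑ i, (iord P y (i1 P) (G i) (d i) : ℚ) / (m i : ℚ)⌉ := ⟨_, fun _ => rfl⟩
    have hval0 : ∀ i, ∃ l, W602.GT.val y (G i l) ≠ 0 := fun i => by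
      obtain ⟨l, hl⟩ := hGp i
      exact ⟨l, fun h0 => hl (hy.mem _ ⟨_, hG i l⟩ h0)⟩
    have hdn' : ∀ P i, (0 : ℚ) ≤ (iord P y (i1 P) (G i) (d i) : ℚ) / (m i : ℚ) := fun P i =>
      div_nonneg (Nat.cast_nonneg _) (Nat.cast_nonneg _)
    have ho0 : ∀ P, 0 ≤ o P := by
      intro P
      rw [ho]
      exact Int.ceil_nonneg (mul_nonneg (Nat.cast_nonneg _) (Finset.sum_nonneg fun i _ => hdn' P i))
    -- the regularity of the elements of the algebra
    have hregA : ∀ P : Place ℂ K, (∀ f : MvPolynomial (Fin dd) ℂ, P.Reg (aeval Z f)) →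
        P.ord (aeval Z hh) = 0 → ∀ (z : GG) (hz : z ∈ AA v), P.Reg (f ⟨z, AA_le v hz⟩) := by
      intro P hP hP0 z hz
      obtain ⟨q, rfl⟩ := mem_AA.1 hz
      have h1 : f ⟨aeval v q, AA_le v hz⟩ =
          aeval (fun i => f ⟨v i, AA_le v (Algebra.subset_adjoin ⟨i, rfl⟩)⟩) q := by
        have h2 := MvPolynomial.comp_aeval_apply
          (f := fun i => (⟨v i, AA_le v (Algebra.subset_adjoin ⟨i, rfl⟩)⟩ : SS v)) f q
        rw [← h2]
        congr 1
        apply Subtype.ext
        have h3 := MvPolynomial.comp_aeval_apply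
          (f := fun i => (⟨v i, AA_le v (Algebra.subset_adjoin ⟨i, rfl⟩)⟩ : SS v)) (SS v).val q
        exact h3.symm
      rw [h1]
      have h2 := hhh P hP hP0
      clear h1 hz
      induction q using MvPolynomial.induction_on with
      | C a => rw [aeval_C]; exact P.reg_const a
      | add p q hp hq => rw [map_add]; exact P.reg_add hp hq
      | mul_X p j hp => rw [map_mul, aeval_X]; exact P.reg_mul hp (h2 j)
    have hshift : ∀ (t : ℕ) (z : GG) (hz : z ∈ AA v), (σ ^ t) (f ⟨z, AA_le v hz⟩) =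
        f ⟨(shG ^ t) z, AA_le v (hav.pow t z hz)⟩ := fun t z hz =>
      sigma_pow (fun z _ => hs z) hv t ⟨z, AA_le v hz⟩
    obtain ⟨⟨b, hbA, hb1⟩, hpt2⟩ := hpt
    -- the theorem of Kobayashi and Ochiai
    obtain ⟨k, hk, hper⟩ := ko_orb hy.sub.dim hdd hM hc hgi ho0 (fun P hP D hD j => by
      rw [hgv, ho]
      rcases (hPD P hP (i1 P) (hi1 P) (hmin P) j).1 D hD with h1 | h1
      · exact Or.inl h1
      · exact Or.inr (Int.ceil_le.2 (by exact_mod_cast h1))) σ ι hZ hh0
      (fun t P hPd hPZ hPh ν e he hν hνd => by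
        have hR := hregA P hPZ hPh
        have hR' : ∀ (z : GG) (hz : z ∈ AA v), P.Reg ((σ ^ t) (f ⟨z, AA_le v hz⟩)) := by
          intro z hz
          rw [hshift t z hz]
          exact hR _ (hav.pow t z hz)
        have hval : ∀ H : MvPolynomial (Fin (N + 1)) ℂ, ∀ hH : gg (fun t => eval (x t) H) ∈ AA v,
            aeval (fun j => (σ ^ t) (Y j)) H = (σ ^ t) (f ⟨_, AA_le v hH⟩) := by
          intro H hH
          have h1 : aeval (fun j => (σ ^ t) (Y j)) H = (σ ^ t) (aeval Y H) :=
            (MvPolynomial.comp_aeval_apply (f := Y) (σ ^ t) H).symm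
          have h2 : aeval Y H = f (aeval (fun j => (⟨_, AA_le v (hx j)⟩ : SS v)) H) := by
            rw [hY]
            exact (MvPolynomial.comp_aeval_apply
              (f := fun j => (⟨_, AA_le v (hx j)⟩ : SS v)) f H).symm
          have h3 : aeval (fun j => (⟨_, AA_le v (hx j)⟩ : SS v)) H = ⟨_, AA_le v hH⟩ := by
            apply Subtype.ext
            have h4 := MvPolynomial.comp_aeval_apply
              (f := fun j => (⟨_, AA_le v (hx j)⟩ : SS v)) (SS v).val H
            change _ = gg (fun t => eval (x t) H)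
            rw [gg_eval]
            exact h4
          rw [h1, h2, h3]
        have hmem : ∀ H : MvPolynomial (Fin (N + 1)) ℂ, gg (fun t => eval (x t) H) ∈ AA v := by
          intro H
          rw [gg_eval]
          have h1 : ∀ i, (gg fun m => x m i) ∈ AA v := hx
          induction H using MvPolynomial.induction_on with
          | C c => rw [aeval_C]; exact (AA v).algebraMap_mem c
          | add p q hp hq => rw [map_add]; exact (AA v).add_mem hp hq
          | mul_X p i hp => rw [map_mul, aeval_X]; exact (AA v).mul_mem hp (h1 i)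
        have halt : ∀ i, (e : ℤ) * iord ν y (i1 ν) (G i) (d i) = 0 ∨
            (0 < m i ∧ (m i : ℤ) ≤ e * iord ν y (i1 ν) (G i) (d i)) := by
          intro i
          obtain ⟨s', a, ee, ha, hee, hss, hdiv, b', hb', hbG⟩ := hpt2 i
          have hgA : ∏ l, a l ^ ee l ∈ AA v := prod_mem fun l _ => pow_mem (ha l) _
          have hg : (σ ^ t) (f ⟨∏ l, a l ^ ee l, AA_le v hgA⟩) =
              ∏ l, (σ ^ t) (f ⟨a l, AA_le v (ha l)⟩) ^ ee l := by
            have h1 : (⟨∏ l, a l ^ ee l, AA_le v hgA⟩ : SS v) =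
                ∏ l, (⟨a l, AA_le v (ha l)⟩ : SS v) ^ ee l := by
              apply Subtype.ext
              have h6 := map_prod (SS v).val (fun l => (⟨a l, AA_le v (ha l)⟩ : SS v) ^ ee l)
                Finset.univ
              simp only [map_pow] at h6
              exact h6.symm
            rw [h1, map_prod, map_prod]
            simp only [map_pow]
          obtain ⟨hne, hord⟩ := order_ideal (hi1 ν) (hmin ν) (ψ := (σ ^ t).comp ι) hν
            (X := fun j => (σ ^ t) (Y j)) (c := (σ ^ t) (Y i0 / ι (y i0)))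
            (b := fun j => (σ ^ t) (f ⟨b j, AA_le v (hbA j)⟩)) (by
              rw [Ne, map_eq_zero]
              exact div_ne_zero hYi (by rwa [Ne, map_eq_zero])) (fun j => by
              change (σ ^ t) (Y j) = (σ ^ t) (Y i0 / ι (y i0)) * (σ ^ t) (ι (y j))
              rw [← map_mul]
              congr 1
              have h1 := hι j
              rw [map_div₀] at h1
              have h2 : ι (y i0) ≠ 0 := by rwa [Ne, map_eq_zero]
              rw [div_eq_div_iff h2 hYi] at h1
              field_simp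
              linear_combination -h1) (fun j => by
              have h1 : Y j = f ⟨_, AA_le v (hx j)⟩ := by rw [hY]
              change P.Reg ((σ ^ t) (Y j))
              rw [h1]
              exact hR' _ (hx j)) (fun j => hR' _ (hbA j)) (by
              have h1 : ∑ j, f ⟨b j, AA_le v (hbA j)⟩ * Y j = 1 := by
                have h2 : (∑ j, (⟨b j, AA_le v (hbA j)⟩ : SS v) * ⟨_, AA_le v (hx j)⟩) = 1 := by
                  apply Subtype.ext
                  rw [AddSubmonoidClass.coe_finsetSum]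
                  exact hb1
                have h3 := congrArg f h2
                rw [map_sum, map_one] at h3
                rw [← h3, hY]
                exact Finset.sum_congr rfl fun j _ => (map_mul f _ _).symm
              have h2 := congrArg (σ ^ t) h1
              rw [map_sum, map_one] at h2
              rw [← h2]
              exact Finset.sum_congr rfl fun j _ => (map_mul (σ ^ t) _ _).symm)
            (hG i) (hval0 i) (g := (σ ^ t) (f ⟨∏ l, a l ^ ee l, AA_le v hgA⟩)) (fun l => by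
              obtain ⟨c', hc', h1⟩ := hdiv l
              refine ⟨(σ ^ t) (f ⟨c', AA_le v hc'⟩), hR' _ hc', ?_⟩
              rw [hval _ (hmem _), ← map_mul, ← map_mul]
              congr 2
              exact Subtype.ext h1) (b' := fun l => (σ ^ t) (f ⟨b' l, AA_le v (hb' l)⟩))
            (fun l => hR' _ (hb' l)) (by
              simp only [hval _ (hmem _)]
              have h2 : (⟨∏ l, a l ^ ee l, AA_le v hgA⟩ : SS v) =
                  ∑ l, (⟨b' l, AA_le v (hb' l)⟩ : SS v) * ⟨_, AA_le v (hmem (G i l))⟩ := by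
                apply Subtype.ext
                rw [AddSubmonoidClass.coe_finsetSum]
                exact hbG
              rw [h2, map_sum, map_sum]
              refine Finset.sum_congr rfl fun l _ => ?_
              rw [map_mul, map_mul])
          rw [← hord]
          exact order_alt (fun l => hR' _ (ha l)) hee hss hg hne
        by_cases hall : ∀ i, iord ν y (i1 ν) (G i) (d i) = 0
        · left
          intro D hD j
          rw [hgv]
          exact (hPD ν hνd (i1 ν) (hi1 ν) (hmin ν) j).2 hall D hD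
        · right
          push Not at hall
          obtain ⟨i, hi⟩ := hall
          have heZ : (0 : ℤ) < e := by exact_mod_cast he
          obtain ⟨hmi, hle⟩ := (halt i).resolve_left (mul_ne_zero heZ.ne' (by exact_mod_cast hi))
          rw [ho]
          have h1 : (iord ν y (i1 ν) (G i) (d i) : ℚ) / (m i : ℚ) ≤
              ∑ i, (iord ν y (i1 ν) (G i) (d i) : ℚ) / (m i : ℚ) :=
            Finset.single_le_sum (f := fun i => (iord ν y (i1 ν) (G i) (d i) : ℚ) / (m i : ℚ))
              (fun i _ => hdn' ν i) (Finset.mem_univ i)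
          have h2 : (1 : ℚ) ≤ e * ((iord ν y (i1 ν) (G i) (d i) : ℚ) / (m i : ℚ)) := by
            have hmq : (0 : ℚ) < m i := by exact_mod_cast hmi
            rw [← mul_div_assoc, le_div_iff₀ hmq, one_mul]
            exact_mod_cast hle
          have h3 : (M : ℚ) ≤ e * ((M : ℚ) *
              ∑ i, (iord ν y (i1 ν) (G i) (d i) : ℚ) / (m i : ℚ)) := by
            have heQ : (0 : ℚ) ≤ e := Nat.cast_nonneg _
            have hMQ : (0 : ℚ) ≤ M := Nat.cast_nonneg _
            have h4 := mul_le_mul_of_nonneg_left h1 heQ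
            have h5 := mul_le_mul_of_nonneg_left (h2.trans h4) hMQ
            rw [mul_one] at h5
            linarith
          have h4 : (M : ℚ) ≤ ((e * ⌈(M : ℚ) *
              ∑ i, (iord ν y (i1 ν) (G i) (d i) : ℚ) / (m i : ℚ)⌉ : ℤ) : ℚ) := by
            push_cast
            refine h3.trans (mul_le_mul_of_nonneg_left (Int.le_ceil _) (Nat.cast_nonneg _))
          exact_mod_cast h4)
    refine not_dense_of_fixed hy hv hx hden hf (fun z _ => hs z) (i0 := i0) ι (fun i => ?_)
      (hgi.transcendental ⟨0, hw⟩) hk (hper _)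
    have h1 := hι i
    rw [h1]
    have h2 : f ⟨_, AA_le v (hx i0)⟩ = Y i0 := by rw [hY]
    have h3 : f ⟨_, AA_le v (hx i)⟩ = Y i := by rw [hY]
    rw [h2, h3, mul_div_cancel₀ _ hYi]
  · clear hv hx
    intro v x hv hx M hM ih hav hpt hX hden
    obtain ⟨b, hb⟩ := dense_split' hy hden hM
    exact ih b (hav.res b M hM) (hpt.res b M hM) (ev_res hX hM) hb

end

end Pool.Agent.Q13.NS
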