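import Pool.Agent.TH143.GT.Pull
import Pool.Agent.Y172.Cov3

/-!
Powers of the form `dx 1 ∧ … ∧ dx p` and their pull-back.
-/

set_option autoImplicit false
set_option linter.overlappingInstances false

open FF Pool.Agent.W602.GT Pool.Agent.TH143.GT

namespace Pool.Agent.Q13.NS

section

variable {k F : Type} [Field k] [Field F] [Algebra k F]

/-- the form `dx 1 ∧ … ∧ dx p` -/
noncomputable def dform {p : ℕ} (x : Fin p → F) :
    AlternatingMap F (Derivation k F F) F (Fin p) :=
  (Matrix.detRowAlternating (R := F) (n := Fin p)).compLinearMap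
    { toFun := fun D b => D (x b)
      map_add' := fun _ _ => rfl
      map_smul' := fun _ _ => rfl }

theorem dform_apply {p : ℕ} (x : Fin p → F) (D : Fin p → Derivation k F F) :
    dform x D = (Matrix.of fun a b => D a (x b)).det := rfl

/-- The tensors `x j * c * (dx 1 ∧ … ∧ dx p) ^ N` (with `x 0 = 1`) have at most logarithmic poles,
and are regular at the prime divisors which are not in `Bd`. -/
def GenFib {p : ℕ} (w : ℕ) (Bd : Place k F → Prop) (x : Fin p → F) (c : F) (N : ℕ) : Prop :=
  (∀ P : Place k F, Divisorial w P → ∀ D : Fin p → Derivation k F F, (∀ i, DerLog P (D i)) →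
    ∀ j : Fin (p + 1), P.Reg ((Fin.cons 1 x : Fin (p + 1) → F) j * c *
      (Matrix.of fun a b => D a (x b)).det ^ N)) ∧
  (∀ P : Place k F, Divisorial w P → ¬ Bd P → ∀ D : Fin p → Derivation k F F,
    (∀ i, DerReg P (D i)) → ∀ j : Fin (p + 1), P.Reg ((Fin.cons 1 x : Fin (p + 1) → F) j * c *
      (Matrix.of fun a b => D a (x b)).det ^ N))

end

variable {k K L : Type} [Field k] [Field K] [Field L] [Algebra k K] [Algebra k L] [Algebra K L]
  [IsScalarTower k K L]

theorem pull_dform [CharZero k] {p w : ℕ} (x : Fin p → K) {y : Fin w → K}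
    {E : Fin w → Derivation k K K} (h : Dual y E) (D : Fin p → Derivation k L L) :
    pull (dform (k := k) x).toMultilinearMap y E D =
      (Matrix.of fun a b => D a (algebraMap K L (x b))).det := by
  classical
  have h1 : (Matrix.of fun a b => D a (algebraMap K L (x b))) =
      fun a => ∑ j, D a (algebraMap K L (y j)) • fun b => algebraMap K L (E j (x b)) := by
    funext a b
    rw [Matrix.of_apply, h.chain, Finset.sum_apply]
    rfl
  rw [h1]
  have h2 := MultilinearMap.map_sum (Matrix.detRowAlternating (R := L) (n := Fin p)).toMultilinearMap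
    (fun (a : Fin p) (j : Fin w) =>
      D a (algebraMap K L (y j)) • fun b => algebraMap K L (E j (x b)))
  change pull _ y E D = (Matrix.detRowAlternating (R := L) (n := Fin p)).toMultilinearMap
    (fun a => ∑ j, D a (algebraMap K L (y j)) • fun b => algebraMap K L (E j (x b)))
  rw [h2]
  unfold pull
  refine Finset.sum_congr rfl fun J _ => ?_
  rw [MultilinearMap.map_smul_univ, smul_eq_mul]
  congr 1
  change algebraMap K L (Matrix.of fun a b => E (J a) (x b)).det = _
  rw [RingHom.map_det]
  rfl

/-- **Pull-back.** -/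
theorem GenFib.pull [CharZero k] [Algebra.EssFiniteType k K] {p w n : ℕ}
    (hw : Algebra.trdeg k K = w) (hn : Algebra.trdeg k L = n) {Bd : Place k K → Prop}
    {x : Fin p → K} {c : K} {N : ℕ} (hN : 0 < N) (h : GenFib w Bd x c N) (P : Place k L)
    (hP : Divisorial n P) (D : Fin p → Derivation k L L) (j : Fin (p + 1)) :
    ((∀ i, DerLog P (D i)) →
      P.Reg (algebraMap K L ((Fin.cons 1 x : Fin (p + 1) → K) j * c) *
        (Matrix.of fun a b => D a (algebraMap K L (x b))).det ^ N)) ∧
    ((∀ i, DerReg P (D i)) → (∀ v e, Over P v e → ¬ Bd v) →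
      P.Reg (algebraMap K L ((Fin.cons 1 x : Fin (p + 1) → K) j * c) *
        (Matrix.of fun a b => D a (algebraMap K L (x b))).det ^ N)) := by
  obtain ⟨y, E, hy, hE⟩ := Pool.Agent.Y172.exists_crd hw
  have h1 := local_reg hw hn (dform (k := k) x).toMultilinearMap hN
    ((Fin.cons 1 x : Fin (p + 1) → K) j * c) (Bd := Bd)
    (fun v hv D hD => h.1 v hv D hD j) (fun v hv hb D hD => h.2 v hv hb D hD j)
    (y := y) (E := E) ⟨hy, hE⟩ P hP D
  rw [pull_dform x ⟨hy, hE⟩] at h1
  exact h1

end Pool.Agent.Q13.NS
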