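import Mathlib

/-!
Residue fields of the ring of sequences.
-/

set_option autoImplicit false

namespace Pool.Agent.Q13.NS

theorem exists_ultra {k K : Type} [Field k] [Field K] [Algebra k K] (S : Submonoid (ℕ → K))
    (h0 : (0 : ℕ → K) ∉ S) :
    ∃ (Ω : Type) (_ : Field Ω) (_ : Algebra k Ω) (_ : Algebra K Ω) (_ : IsScalarTower k K Ω)
      (ev : (ℕ → K) →ₐ[K] Ω), Function.Surjective ev ∧ (∀ a ∈ S, ev a ≠ 0) ∧
      ∀ D : Derivation k K K, ∃ D' : Derivation k Ω Ω, ∀ a, D' (ev a) = ev fun n => D (a n) := by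
  classical
  obtain ⟨p, hp, -, hdis⟩ := Ideal.exists_le_prime_disjoint (⊥ : Ideal (ℕ → K)) S (by
    rw [Set.disjoint_left]
    intro x hx hxS
    apply h0
    have : x = 0 := by simpa using hx
    rwa [this] at hxS)
  -- idempotents
  have hidem : ∀ a : ℕ → K, (1 - a * a⁻¹) * a = 0 := by
    intro a
    funext n
    simp only [Pi.mul_apply, Pi.sub_apply, Pi.one_apply, Pi.inv_apply, Pi.zero_apply]
    by_cases ha : a n = 0
    · rw [ha, mul_zero]
    · rw [mul_inv_cancel₀ ha, sub_self, zero_mul]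
  have hmax : p.IsMaximal := by
    have hf : IsField ((ℕ → K) ⧸ p) := by
      have hd : IsDomain ((ℕ → K) ⧸ p) := Ideal.Quotient.isDomain p
      refine ⟨⟨0, 1, zero_ne_one⟩, fun x y => mul_comm x y, fun {x} hx => ?_⟩
      obtain ⟨a, rfl⟩ := Ideal.Quotient.mk_surjective x
      have ha : a ∉ p := fun h => hx (Ideal.Quotient.eq_zero_iff_mem.2 h)
      refine ⟨Ideal.Quotient.mk p a⁻¹, ?_⟩
      have h1 : (1 - a * a⁻¹) * a ∈ p := by rw [hidem]; exact p.zero_mem
      have h2 := (hp.mem_or_mem h1).resolve_right ha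
      have h3 := Ideal.Quotient.eq_zero_iff_mem.2 h2
      rw [map_sub, map_one, map_mul, sub_eq_zero] at h3
      exact h3.symm
    exact Ideal.Quotient.maximal_of_isField p hf
  let _ : Field ((ℕ → K) ⧸ p) := Ideal.Quotient.field p
  let ev : (ℕ → K) →ₐ[K] ((ℕ → K) ⧸ p) := Ideal.Quotient.mkₐ K p
  have hev : ∀ a, ev a = Ideal.Quotient.mk p a := fun a => rfl
  have hsurj : Function.Surjective ev := Ideal.Quotient.mkₐ_surjective K p
  refine ⟨(ℕ → K) ⧸ p, inferInstance, inferInstance, inferInstance, inferInstance, ev, hsurj,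
    fun a ha h => ?_, fun D => ?_⟩
  · rw [hev, Ideal.Quotient.eq_zero_iff_mem] at h
    exact Set.disjoint_left.1 hdis h ha
  · have hD : ∀ a ∈ p, (fun n => D (a n)) ∈ p := by
      intro a ha
      have h1 : (fun n => D (a n)) = a⁻¹ * (fun n => D (a n)) * a := by
        funext n
        simp only [Pi.mul_apply, Pi.inv_apply]
        by_cases ha : a n = 0
        · rw [ha, map_zero, mul_zero]
        · field_simp
      rw [h1]
      exact p.mul_mem_left _ ha
    have hwd : ∀ a b : ℕ → K, ev a = ev b → ev (fun n => D (a n)) = ev fun n => D (b n) := by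
      intro a b hab
      rw [hev, hev, Ideal.Quotient.eq] at hab ⊢
      have h1 := hD _ hab
      have h2 : (fun n => D (a n)) - (fun n => D (b n)) = fun n => D ((a - b) n) := by
        funext n
        simp only [Pi.sub_apply, map_sub]
      rwa [h2]
    choose s hs using hsurj
    let f : ((ℕ → K) ⧸ p) → ((ℕ → K) ⧸ p) := fun x => ev fun n => D (s x n)
    have hf : ∀ a, f (ev a) = ev fun n => D (a n) := fun a => hwd _ _ (hs _)
    let L : ((ℕ → K) ⧸ p) →ₗ[k] ((ℕ → K) ⧸ p) :=
      { toFun := f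
        map_add' := by
          intro x y
          obtain ⟨a, rfl⟩ : ∃ a, ev a = x := ⟨_, hs x⟩
          obtain ⟨b, rfl⟩ : ∃ b, ev b = y := ⟨_, hs y⟩
          rw [← map_add, hf, hf, hf, ← map_add]
          congr 1
          funext n
          simp only [Pi.add_apply, map_add]
        map_smul' := by
          intro c x
          obtain ⟨a, rfl⟩ : ∃ a, ev a = x := ⟨_, hs x⟩
          have h1 : ∀ b : ℕ → K, c • ev b = ev (c • b) := fun b => rfl
          rw [RingHom.id_apply, h1, hf, hf, h1]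
          congr 1
          funext n
          simp only [Pi.smul_apply, D.map_smul] }
    refine ⟨Derivation.mk' L fun x y => ?_, fun a => hf a⟩
    change f (x * y) = x • f y + y • f x
    obtain ⟨a, rfl⟩ : ∃ a, ev a = x := ⟨_, hs x⟩
    obtain ⟨b, rfl⟩ : ∃ b, ev b = y := ⟨_, hs y⟩
    rw [← map_mul, hf, hf, hf, smul_eq_mul, smul_eq_mul, ← map_mul, ← map_mul, ← map_add]
    congr 1
    funext n
    simp only [Pi.mul_apply, Pi.add_apply, D.leibniz, smul_eq_mul]

end Pool.Agent.Q13.NS
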