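import Pool.Agent.Q13.NS.Exps
import Pool.Agent.Q13.NS.Form
import Pool.Agent.Q13.NS.Ultra
import Pool.Agent.Q13.KO.Chain
import Pool.Agent.Y173.QA.Str1

/-!
Sequences of embeddings which depend on the index through Laurent polynomials.
-/

set_option autoImplicit false
set_option linter.overlappingInstances false

open FF MvPolynomial Pool.Agent.W602.GT Pool.Agent.W603.LV Pool.Agent.Y172

namespace Pool.Agent.Q13.NS

/-- values in the residue field -/
theorem aeval_ev {K Ω : Type} [Field K] [Field Ω] [Algebra K Ω] (ev : (ℕ → K) →ₐ[K] Ω) {l : ℕ}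
    (y : ℕ → Fin l → K) (P : MvPolynomial (Fin l) K) :
    aeval (fun i => ev fun n => y n i) P = ev fun n => eval (y n) P := by
  have h1 := MvPolynomial.comp_aeval_apply (f := fun i => (fun n => y n i : ℕ → K)) ev P
  rw [← h1]
  congr 1
  funext n
  have h2 := MvPolynomial.comp_aeval_apply (f := fun i => (fun n => y n i : ℕ → K))
    (Pi.evalAlgHom K (fun _ : ℕ => K) n) P
  have h3 : (aeval (fun i => (fun n => y n i : ℕ → K)) P : ℕ → K) n = aeval (fun i => y n i) P := h2
  rw [h3, MvPolynomial.aeval_eq_eval]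

/-- the field generated by two fields and finitely many elements -/
theorem exists_compositum {k K F Ω : Type} [Field k] [Field K] [Field F] [Field Ω] [Algebra k K]
    [Algebra k F] [Algebra k Ω] [Algebra.EssFiniteType k K] [Algebra.EssFiniteType k F]
    (f : K →ₐ[k] Ω) (g : F →ₐ[k] Ω) {l : ℕ} (u : Fin l → Ω) :
    ∃ M : IntermediateField k Ω, Algebra.EssFiniteType k M ∧ (∀ z, f z ∈ M) ∧ (∀ z, g z ∈ M) ∧
      ∀ i, u i ∈ M := by
  classical
  obtain ⟨S, hS⟩ := IntermediateField.fg_top k K
  obtain ⟨T, hT⟩ := IntermediateField.fg_top k F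
  let M : IntermediateField k Ω :=
    IntermediateField.adjoin k (f '' S ∪ g '' T ∪ Set.range u)
  have hfin : (f '' S ∪ g '' T ∪ Set.range u).Finite :=
    ((S.finite_toSet.image f).union (T.finite_toSet.image g)).union (Set.finite_range u)
  refine ⟨M, ?_, fun z => ?_, fun z => ?_, fun i =>
    IntermediateField.subset_adjoin k _ (Or.inr ⟨i, rfl⟩)⟩
  · rw [IntermediateField.essFiniteType_iff]
    exact ⟨hfin.toFinset, by rw [Set.Finite.coe_toFinset]⟩
  · have h1 : (⊤ : IntermediateField k K) ≤ M.comap f := by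
      rw [← hS, IntermediateField.adjoin_le_iff]
      intro x hx
      exact IntermediateField.subset_adjoin k _ (Or.inl (Or.inl ⟨x, hx, rfl⟩))
    exact h1 (IntermediateField.mem_top (x := z))
  · have h1 : (⊤ : IntermediateField k F) ≤ M.comap g := by
      rw [← hT, IntermediateField.adjoin_le_iff]
      intro x hx
      exact IntermediateField.subset_adjoin k _ (Or.inl (Or.inr ⟨x, hx, rfl⟩))
    exact h1 (IntermediateField.mem_top (x := z))

/-- **The core.** -/
theorem core {k K F : Type} [Field k] [CharZero k] [Field K] [Field F] [Algebra k K]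
    [Algebra k F] [Algebra.EssFiniteType k K] [Algebra.EssFiniteType k F] {w p : ℕ}
    (hw : Algebra.trdeg k F = w) {Bd : Place k F → Prop} {x : Fin p → F} {c : F} {N : ℕ}
    (hN : 0 < N) (h : GenFib w Bd x c N) (ι : ℕ → F →ₐ[k] K) (D : Fin p → Derivation k K K)
    {r : ℕ} {μ : Fin r → k} (hμ : MInd μ) (a : Fin (p + 1) → ℕ → K)
    (ha : ∀ j n, a j n = ι n ((Fin.cons 1 x : Fin (p + 1) → F) j * c) *
      (Matrix.of fun i b => D i (ι n (x b))).det ^ N)
    (hlau : ∀ j, Lau μ (a j)) (h0 : a 0 0 ≠ 0) (j : Fin (p + 1)) (n : ℕ) : a j n = a j 0 := by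
  classical
  have hcK : CharZero K := charZero_of_injective_algebraMap (algebraMap k K).injective
  -- the large field
  let S : Submonoid (ℕ → K) :=
    { carrier := {f | ∃ P : MvPolynomial (Fin (r + 1)) K, P ≠ 0 ∧ f = fun n => eval (pt K μ n) P}
      mul_mem' := by
        rintro _ _ ⟨P, hP, rfl⟩ ⟨P', hP', rfl⟩
        exact ⟨P * P', mul_ne_zero hP hP', funext fun n => by
          simp only [Pi.mul_apply, map_mul]⟩
      one_mem' := ⟨1, one_ne_zero, funext fun n => by simp⟩ }
  obtain ⟨Ω, _, _, _, _, ev, hsurj, hevS, hder⟩ := exists_ultra (k := k) S (by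
    rintro ⟨P, hP, hP0⟩
    exact hP (dense_pt hμ fun n => (congrFun hP0 n).symm))
  choose DΩ hDΩ using hder
  obtain ⟨u, hu⟩ : ∃ u : Fin (r + 1) → Ω, u = fun i => ev fun n => pt K μ n i := ⟨_, rfl⟩
  have hue : ∀ P : MvPolynomial (Fin (r + 1)) K, aeval u P = ev fun n => eval (pt K μ n) P := by
    intro P
    rw [hu]
    exact aeval_ev ev (fun n => pt K μ n) P
  have hind : AlgebraicIndependent K u := by
    rw [algebraicIndependent_iff_injective_aeval, injective_iff_map_eq_zero]
    intro P hP
    by_contra hP0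
    rw [hue] at hP
    exact hevS _ ⟨P, hP0, rfl⟩ hP
  let f : K →ₐ[k] Ω := IsScalarTower.toAlgHom k K Ω
  let evk : (ℕ → K) →ₐ[k] Ω := ev.restrictScalars k
  let g : F →ₐ[k] Ω := evk.comp (AlgHom.pi fun n => ι n)
  have hg : ∀ z, g z = ev fun n => ι n z := fun z => rfl
  obtain ⟨M, hess, hMf, hMg, hMu⟩ := exists_compositum f g u
  let iK : K →ₐ[k] M := f.codRestrict M.toSubalgebra hMf
  let iF : F →ₐ[k] M := g.codRestrict M.toSubalgebra hMg
  have hiK : ∀ z, ((iK z : M) : Ω) = algebraMap K Ω z := fun z => rfl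
  have hiF : ∀ z, ((iF z : M) : Ω) = ev fun n => ι n z := fun z => rfl
  obtain ⟨v, hv⟩ : ∃ v : Fin (r + 1) → M, ∀ i, (v i : Ω) = u i := ⟨fun i => ⟨u i, hMu i⟩, fun i => rfl⟩
  let iA : Algebra F M := iF.toRingHom.toAlgebra
  have hsc : IsScalarTower k F M := IsScalarTower.of_algebraMap_eq fun z => (iF.commutes z).symm
  obtain ⟨d, hd⟩ : ∃ d : ℕ, Algebra.trdeg k K = d := Cardinal.lt_aleph0.1 (trdeg_lt_aleph0 k K)
  obtain ⟨n0, hn0⟩ : ∃ n0 : ℕ, Algebra.trdeg k M = n0 := Cardinal.lt_aleph0.1 (trdeg_lt_aleph0 k M)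
  obtain ⟨Z, hZ⟩ := Pool.Agent.Y173.QA.exists_tb hd
  -- a transcendence basis
  have hindM : AlgebraicIndependent k (Sum.elim v fun i => iK (Z i)) := by
    have h1 : AlgebraicIndependent k (Sum.elim u fun i => f (Z i)) := by
      have h2 : AlgebraicIndependent k fun i => f (Z i) := hZ.1.map' (f := f) f.injective
      refine h2.sumElim_of_tower (S := K) ?_ hind
      rintro _ ⟨i, rfl⟩
      exact ⟨Z i, rfl⟩
    refine AlgebraicIndependent.of_comp M.val ?_
    have h2 : (M.val : M → Ω) ∘ (Sum.elim v fun i => iK (Z i)) = Sum.elim u fun i => f (Z i) := by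
      funext s
      rcases s with s | s
      · exact hv s
      · rfl
    rw [h2]
    exact h1
  obtain ⟨B, hBs, hB⟩ := exists_isTranscendenceBasis_superset (R := k) hindM.coe_range
  have hinj := hindM.injective
  have hvB : ∀ i, v i ∈ B := fun i => hBs ⟨Sum.inl i, rfl⟩
  have hZB : ∀ i, iK (Z i) ∈ B := fun i => hBs ⟨Sum.inr i, rfl⟩
  have hvZ : ∀ i i', v i ≠ iK (Z i') := fun i i' h => by
    have := hinj (a₁ := Sum.inl i) (a₂ := Sum.inr i') h
    exact absurd this (by simp)
  have hvinj : Function.Injective v := fun i i' h => by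
    have := hinj (a₁ := Sum.inl i) (a₂ := Sum.inl i') h
    simpa using this
  have hZinj : Function.Injective fun i => iK (Z i) := fun i i' h => by
    have := hinj (a₁ := Sum.inr i) (a₂ := Sum.inr i') h
    simpa using this
  have hv0 : ∀ i, v i ≠ 0 := fun i h => by
    have h1 := hindM.ne_zero (Sum.inl i)
    exact h1 h
  -- the field `K` in `M`
  have hK0 : ∀ S : Set M, (∀ i, iK (Z i) ∈ S) → ∀ z, iK z ∈ acl k S := by
    intro S hS z
    have h1 : IsAlgebraic (IntermediateField.adjoin k (Set.range Z)) z := by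
      have h2 := hZ.isAlgebraic_field
      exact h2.isAlgebraic z
    have h2 : z ∈ (acl k S).comap iK := by
      refine Closed.mem_of_le (M := (acl k S).comap iK) ?_ ?_ h1
      · intro y hy
        change iK y ∈ acl k S
        apply acl_closed
        obtain ⟨P, hP, hPy⟩ := hy
        let φ : ((acl k S).comap iK) →+* acl k S :=
          { toFun := fun x => ⟨iK x, x.2⟩
            map_one' := Subtype.ext (map_one iK)
            map_mul' := fun x y => Subtype.ext (map_mul iK (x : K) (y : K))
            map_zero' := Subtype.ext (map_zero iK)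
            map_add' := fun x y => Subtype.ext (map_add iK (x : K) (y : K)) }
        refine ⟨P.map φ, (Polynomial.map_ne_zero_iff φ.injective).2 hP, ?_⟩
        have h3 := congrArg (iK : K →+* M) hPy
        rw [map_zero, Polynomial.aeval_def, Polynomial.hom_eval₂] at h3
        rw [Polynomial.aeval_def, Polynomial.eval₂_map]
        exact h3
      · rw [IntermediateField.adjoin_le_iff]
        rintro _ ⟨i, rfl⟩
        exact subset_acl _ (hS i)
    exact h2
  let K0 : IntermediateField k M := iK.fieldRange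
  have hK0' : ∀ S : Set M, (∀ i, iK (Z i) ∈ S) → ∀ z ∈ K0, z ∈ acl k S := by
    rintro S hS _ ⟨z, rfl⟩
    exact hK0 S hS z
  -- the torus
  have hH : ∀ j : Fin (r + 1), ∃ H : Derivation k M M, ∀ b ∈ B, H b = if b = v j then b else 0 := by
    intro j
    obtain ⟨H, hH⟩ := exists_der _ hB fun b : B => if (b : M) = v j then (b : M) else 0
    exact ⟨H, fun b hb => hH ⟨b, hb⟩⟩
  choose H hH using hH
  have hagree : ∀ δ δ' : Derivation k M M, (∀ i, δ (iK (Z i)) = δ' (iK (Z i))) →
      ∀ z, δ (iK z) = δ' (iK z) := by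
    intro δ δ' hδ z
    have h1 := Pool.Agent.Q13.KO.chain_zero (k := k) (iK : K →+* M)
      (fun y => δ (iK y) - δ' (iK y)) (fun y z => by
        simp only [map_add]
        ring) (fun y z => by
        simp only [map_mul, Derivation.leibniz, smul_eq_mul]
        change _ = iK y * _ + iK z * _
        ring) (fun c => by
        rw [AlgHom.commutes, Derivation.map_algebraMap, Derivation.map_algebraMap, sub_zero]) hZ
      (fun l => sub_eq_zero.2 (hδ l)) z
    exact sub_eq_zero.1 h1
  have hHK : ∀ j, Kills (H j) K0 := by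
    rintro j _ ⟨z, rfl⟩
    have h1 := hagree (H j) 0 (fun i => by
      rw [hH j _ (hZB i), if_neg (hvZ j i).symm]
      rfl) z
    exact h1
  have hHv : ∀ i j, H i (v j) = if i = j then v j else 0 := by
    intro i j
    rw [hH i _ (hvB j)]
    by_cases hij : i = j
    · rw [if_pos hij, if_pos (by rw [hij])]
    · rw [if_neg hij, if_neg fun h => hij (hvinj h).symm]
  -- the vector fields of `K`
  have hDM : ∀ l : Fin p, ∃ δ : Derivation k M M, (∀ z, δ (iK z) = iK (D l z)) ∧
      ∀ b ∈ B, (∀ i, b ≠ iK (Z i)) → δ b = 0 := by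
    intro l
    obtain ⟨δ, hδ⟩ := exists_der _ hB fun b : B =>
      if hb : ∃ i, (b : M) = iK (Z i) then iK (D l (Z hb.choose)) else 0
    refine ⟨δ, fun z => ?_, fun b hb hb' => ?_⟩
    · have h1 := Pool.Agent.Q13.KO.chain_zero (k := k) (iK : K →+* M)
        (fun y => δ (iK y) - iK (D l y)) (fun y z => by
          simp only [map_add]
          ring) (fun y z => by
          simp only [map_mul, Derivation.leibniz, smul_eq_mul, map_add]
          change _ = iK y * _ + iK z * _
          ring) (fun c => by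
          rw [AlgHom.commutes, Derivation.map_algebraMap, Derivation.map_algebraMap, map_zero,
            sub_zero]) hZ
        (fun i => by
          have hex : ∃ i', iK (Z i) = iK (Z i') := ⟨i, rfl⟩
          have h2 := hδ ⟨iK (Z i), hZB i⟩
          rw [dif_pos hex] at h2
          have h3 : hex.choose = i := hZinj hex.choose_spec.symm
          rw [h3] at h2
          exact sub_eq_zero.2 h2) z
      exact sub_eq_zero.1 h1
    · have h2 := hδ ⟨b, hb⟩
      rw [dif_neg (fun h => hb' h.choose h.choose_spec)] at h2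
      exact h2
  choose DM hDMK hDMB using hDM
  have hDMv : ∀ l i, DM l (v i) = 0 := fun l i => hDMB l _ (hvB i) fun i' => hvZ i i'
  -- the Laurent polynomials
  choose e A hA using hlau
  have hAe : ∀ j, ev (a j) * (∏ i : Fin r, u i.succ) ^ e j = aeval u (A j) := by
    intro j
    rw [hue, ← funext (hA j)]
    have h1 : (∏ i : Fin r, u i.succ) = ev fun n => ∏ i, algebraMap k K (μ i) ^ n := by
      have h2 : (fun n => ∏ i, algebraMap k K (μ i) ^ n : ℕ → K) =
          ∏ i, fun n => algebraMap k K (μ i) ^ n := by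
        funext n
        rw [Finset.prod_apply]
      rw [h2, map_prod, hu]
      rfl
    rw [h1, ← map_pow, ← map_mul]
    rfl
  let iB : Algebra K M := iK.toRingHom.toAlgebra
  have hsc2 : IsScalarTower K M Ω := IsScalarTower.of_algebraMap_eq fun z => rfl
  have hvA : ∀ P : MvPolynomial (Fin (r + 1)) K, ((aeval v P : M) : Ω) = aeval u P := by
    intro P
    have h1 := MvPolynomial.comp_aeval_apply (f := v) (IsScalarTower.toAlgHom K M Ω) P
    have h2 : (fun i => (IsScalarTower.toAlgHom K M Ω) (v i)) = u := funext fun i => hv i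
    rw [h2] at h1
    exact h1
  obtain ⟨T, hT⟩ : ∃ T : M, T = ∏ i : Fin r, v i.succ := ⟨_, rfl⟩
  have hT0 : T ≠ 0 := by
    rw [hT]
    exact Finset.prod_ne_zero_iff.2 fun i _ => hv0 _
  have hTΩ : (T : Ω) = ∏ i : Fin r, u i.succ := by
    rw [hT]
    have h1 := map_prod M.val (fun i : Fin r => v i.succ) Finset.univ
    refine h1.trans (Finset.prod_congr rfl fun i _ => hv _)
  obtain ⟨aM, haM⟩ : ∃ aM : Fin (p + 1) → M, ∀ j, aM j = aeval v (A j) / T ^ e j :=
    ⟨_, fun _ => rfl⟩
  have haΩ : ∀ j, ((aM j : M) : Ω) = ev (a j) := by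
    intro j
    have h1 : ((T ^ e j : M) : Ω) = (∏ i : Fin r, u i.succ) ^ e j := by
      rw [← hTΩ]
      exact map_pow M.val T (e j)
    have h2 : (∏ i : Fin r, u i.succ) ^ e j ≠ 0 := by
      rw [← h1]
      intro h3
      exact pow_ne_zero (e j) hT0 (Subtype.ext h3)
    rw [haM]
    have h3 := map_div₀ M.val (aeval v (A j)) (T ^ e j)
    change M.val (aeval v (A j) / T ^ e j) = _
    rw [h3]
    change ((aeval v (A j) : M) : Ω) / ((T ^ e j : M) : Ω) = _
    rw [h1, hvA, ← hAe, mul_div_cancel_right₀ _ h2]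
  have ha0 : aM 0 ≠ 0 := by
    intro h1
    have h2 := haΩ 0
    rw [h1] at h2
    have h3 : A 0 ≠ 0 := by
      intro h4
      have h5 := hA 0 0
      rw [h4, map_zero] at h5
      simp only [pow_zero, Finset.prod_const_one, one_pow, mul_one] at h5
      exact h0 h5
    apply h3
    have h4 := hAe 0
    rw [← h2] at h4
    have h5 : aeval u (A 0) = 0 := by
      rw [← h4]
      exact zero_mul _
    exact (injective_iff_map_eq_zero _).1 (algebraicIndependent_iff_injective_aeval.1 hind) _ h5
  have hxM : ∀ j, aM j = iF ((Fin.cons 1 x : Fin (p + 1) → F) j) * aM 0 := by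
    intro j
    apply Subtype.ext
    change (aM j : Ω) = (iF _ : Ω) * (aM 0 : Ω)
    rw [haΩ, haΩ, hiF, ← map_mul]
    congr 1
    funext n
    rw [Pi.mul_apply, ha, ha, Fin.cons_zero, one_mul, map_mul]
    ring
  -- the derivations agree
  let E0 : Fin p → IntermediateField k M := fun l =>
    { carrier := {z | DΩ (D l) (z : Ω) = ((DM l z : M) : Ω)}
      mul_mem' := by
        intro y z hy hz
        change DΩ (D l) ((y : Ω) * (z : Ω)) = ((DM l (y * z) : M) : Ω)
        rw [Derivation.leibniz, Derivation.leibniz, show DΩ (D l) (y : Ω) = _ from hy,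
          show DΩ (D l) (z : Ω) = _ from hz]
        rfl
      add_mem' := by
        intro y z hy hz
        change DΩ (D l) ((y : Ω) + (z : Ω)) = ((DM l (y + z) : M) : Ω)
        rw [map_add, map_add, show DΩ (D l) (y : Ω) = _ from hy,
          show DΩ (D l) (z : Ω) = _ from hz]
        rfl
      algebraMap_mem' := by
        intro c
        change DΩ (D l) (algebraMap k Ω c) = ((DM l (algebraMap k M c) : M) : Ω)
        rw [Derivation.map_algebraMap, Derivation.map_algebraMap]
        rfl
      inv_mem' := by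
        intro y hy
        change DΩ (D l) ((y : Ω)⁻¹) = ((DM l y⁻¹ : M) : Ω)
        rw [Derivation.leibniz_inv, Derivation.leibniz_inv, show DΩ (D l) (y : Ω) = _ from hy]
        rfl }
  have hE0K : ∀ l z, iK z ∈ E0 l := by
    intro l z
    change DΩ (D l) (algebraMap K Ω z) = ((DM l (iK z) : M) : Ω)
    rw [hDMK]
    have h1 : algebraMap K Ω z = ev fun _ => z := (ev.commutes z).symm
    rw [h1, hDΩ]
    exact ev.commutes (D l z)
  have hE0v : ∀ l i, v i ∈ E0 l := by
    intro l i
    change DΩ (D l) (v i : Ω) = ((DM l (v i) : M) : Ω)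
    rw [hDMv, hv, hu]
    change DΩ (D l) (ev fun n => pt K μ n i) = 0
    rw [hDΩ]
    have h1 : (fun n => D l (pt K μ n i)) = 0 := by
      funext n
      refine Fin.cases ?_ (fun i => ?_) i
      · change D l (n : K) = 0
        exact (D l).map_natCast n
      · change D l (algebraMap k K (μ i) ^ n) = 0
        rw [← map_pow, Derivation.map_algebraMap]
    rw [h1, map_zero]
  have hE0P : ∀ l (P : MvPolynomial (Fin (r + 1)) K), aeval v P ∈ E0 l := by
    intro l P
    induction P using MvPolynomial.induction_on with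
    | C m => rw [MvPolynomial.aeval_C]; exact hE0K l m
    | add p q hp hq => rw [map_add]; exact add_mem hp hq
    | mul_X p i hp =>
      rw [map_mul, MvPolynomial.aeval_X]
      exact mul_mem hp (hE0v l i)
  have hE0a : ∀ l j, aM j ∈ E0 l := by
    intro l j
    rw [haM]
    refine div_mem (hE0P l _) (pow_mem ?_ _)
    rw [hT]
    exact prod_mem fun i _ => hE0v l _
  have hE0x : ∀ l b, iF (x b) ∈ E0 l := by
    intro l b
    have h1 := hxM b.succ
    rw [Fin.cons_succ] at h1
    have h2 : iF (x b) = aM b.succ / aM 0 := by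
      rw [h1, mul_div_cancel_right₀ _ ha0]
    rw [h2]
    exact div_mem (hE0a l _) (hE0a l _)
  -- the values of the tensors
  have hval : ∀ j, aM j = algebraMap F M ((Fin.cons 1 x : Fin (p + 1) → F) j * c) *
      (Matrix.of fun l b => DM l (algebraMap F M (x b))).det ^ N := by
    intro j
    apply Subtype.ext
    change (aM j : Ω) = M.val (iF _ * (Matrix.of fun l b => DM l (iF (x b))).det ^ N)
    rw [haΩ, map_mul, map_pow, AlgHom.map_det]
    have h1 : M.val.mapMatrix (Matrix.of fun l b => DM l (iF (x b))) =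
        Matrix.of fun l b => ev fun n => D l (ι n (x b)) := by
      ext l b
      rw [AlgHom.mapMatrix_apply, Matrix.map_apply, Matrix.of_apply, Matrix.of_apply]
      have h2 : DΩ (D l) (iF (x b) : Ω) = ((DM l (iF (x b)) : M) : Ω) := hE0x l b
      change ((DM l (iF (x b)) : M) : Ω) = _
      rw [← h2, hiF, hDΩ]
    rw [h1]
    have h2 : (Matrix.of fun l b => ev fun n => D l (ι n (x b))).det =
        ev fun n => (Matrix.of fun l b => D l (ι n (x b))).det := by
      have h3 := AlgHom.map_det ev (Matrix.of fun l b => (fun n => D l (ι n (x b)) : ℕ → K))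
      have h4 : (Matrix.of fun l b => (fun n => D l (ι n (x b)) : ℕ → K)).det =
          fun n => (Matrix.of fun l b => D l (ι n (x b))).det := by
        funext n
        have h5 := AlgHom.map_det (Pi.evalAlgHom K (fun _ : ℕ => K) n)
          (Matrix.of fun l b => (fun n => D l (ι n (x b)) : ℕ → K))
        exact h5
      rw [h4] at h3
      rw [h3]
      rfl
    rw [h2]
    change _ = (iF _ : Ω) * _
    rw [hiF, ← map_pow, ← map_mul]
    congr 1
    funext n
    exact ha j n
  -- the places
  have hexp : ∀ (sgn : Bool) (i : Fin (r + 1)) (j : Fin (p + 1)), ∀ m ∈ (A j).support,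
      if sgn then (Fin.cons 0 (fun _ => e j) : Fin (r + 1) → ℕ) i ≤ m i
        else m i ≤ (Fin.cons 0 (fun _ => e j) : Fin (r + 1) → ℕ) i := by
    intro sgn i j m hm
    obtain ⟨Q, hQd, hQi, hQC, hQD⟩ := exists_place_basis hn0 hB (hvB i) sgn
    have hZB' : ∀ i', iK (Z i') ∈ B \ {v i} := fun i' => ⟨hZB i', (hvZ i i').symm⟩
    have hlogD : ∀ l, DerLog Q (DM l) := by
      intro l
      refine hQD (DM l) (fun c hc => ?_) ⟨0, by rw [hDMv, zero_smul]⟩
      by_cases hex : ∃ i', c = iK (Z i')
      · obtain ⟨i', rfl⟩ := hex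
        rw [hDMK]
        exact hK0 _ hZB' _
      · rw [hDMB l c hc.1 fun i' h => hex ⟨i', h⟩]
        exact zero_mem _
    have hlogH : ∀ j, DerLog Q (H j) := by
      intro j
      refine hQD (H j) (fun c hc => ?_) ?_
      · rw [hH j c hc.1]
        split_ifs
        · exact subset_acl _ hc
        · exact zero_mem _
      · rw [hHv]
        by_cases hji : j = i
        · exact ⟨1, by rw [if_pos hji, one_smul]⟩
        · exact ⟨0, by rw [if_neg hji, zero_smul]⟩
    have hreg := ((GenFib.pull hw hn0 hN h Q hQd DM j).1 hlogD)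
    rw [← hval j, haM] at hreg
    let φ : K →+* K0 :=
      { toFun := fun z => ⟨iK z, z, rfl⟩
        map_one' := Subtype.ext (map_one iK)
        map_mul' := fun y z => Subtype.ext (map_mul iK y z)
        map_zero' := Subtype.ext (map_zero iK)
        map_add' := fun y z => Subtype.ext (map_add iK y z) }
    have h1 : (aeval v ((A j).map φ) : M) = aeval v (A j) := by
      rw [aeval_def, aeval_def, eval₂_map]
      rfl
    have h2 : ∏ i', v i' ^ (Fin.cons 0 (fun _ => e j) : Fin (r + 1) → ℕ) i' = T ^ e j := by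
      rw [Fin.prod_univ_succ, Fin.cons_zero, pow_zero, one_mul, hT, ← Finset.prod_pow]
      rfl
    have hm' : m ∈ ((A j).map φ).support := by
      rw [support_map_of_injective _ φ.injective]
      exact hm
    have h3 := exps_le hv0 hHK hHv hlogH (K0 := K0)
      (fun c hc hc0 => hQC c (hK0' _ hZB' c hc) hc0) i
      (fun j' hj' => hQC _ (subset_acl _ ⟨hvB j', fun h => hj' (hvinj h)⟩) (hv0 j'))
      hm' (e := Fin.cons 0 fun _ => e j) (by rw [h1, h2]; exact hreg)
    cases sgn with
    | true =>
      rw [if_pos rfl] at hQi ⊢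
      have h4 := le_of_mul_le_mul_right h3 hQi
      exact_mod_cast h4
    | false =>
      rw [if_neg (by decide)] at hQi ⊢
      have h4 := (mul_le_mul_right_of_neg hQi).1 h3
      exact_mod_cast h4
  refine const_of_supp hμ (hA j) (fun m hm => ⟨?_, fun i => ?_⟩) n
  · have h1 := hexp false 0 j m hm
    rw [if_neg (by decide), Fin.cons_zero] at h1
    omega
  · have h1 := hexp false i.succ j m hm
    have h2 := hexp true i.succ j m hm
    rw [if_neg (by decide), Fin.cons_succ] at h1
    rw [if_pos rfl, Fin.cons_succ] at h2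
    omega

end Pool.Agent.Q13.NS
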