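import Mathlib
import Pool.Agent.H327R2.SC.ExpPoly

/-!
Iterates of linear maps as Laurent polynomials in `n` and in multiplicatively independent
exponentials.
-/

set_option autoImplicit false

open MvPolynomial

namespace Pool.Agent.Q13.NS

variable {k K : Type} [Field k] [Field K] [Algebra k K]

/-- the point `(n, μ 1 ^ n, …, μ r ^ n)` -/
def pt (K : Type) [Field K] [Algebra k K] {r : ℕ} (μ : Fin r → k) (n : ℕ) : Fin (r + 1) → K :=
  Fin.cons (n : K) fun i => algebraMap k K (μ i) ^ n

/-- multiplicative independence -/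
def MInd {r : ℕ} (μ : Fin r → k) : Prop :=
  (∀ i, μ i ≠ 0) ∧ ∀ a : Fin r → ℤ, ∏ i, μ i ^ a i = 1 → a = 0

/-- The sequence is a Laurent polynomial in `μ i ^ n` and a polynomial in `n`. -/
def Lau {r : ℕ} (μ : Fin r → k) (a : ℕ → K) : Prop :=
  ∃ (e : ℕ) (A : MvPolynomial (Fin (r + 1)) K),
    ∀ n, a n * (∏ i, algebraMap k K (μ i) ^ n) ^ e = eval (pt K μ n) A

/-- **Density.** -/
theorem dense_pt [CharZero K] {r : ℕ} {μ : Fin r → k} (hμ : MInd μ)
    {A : MvPolynomial (Fin (r + 1)) K} (h : ∀ n, eval (pt K μ n) A = 0) : A = 0 := by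
  classical
  let tl : (Fin (r + 1) →₀ ℕ) → (Fin r → ℕ) := fun m i => m i.succ
  let lam : (Fin r → ℕ) → K := fun e => ∏ i, algebraMap k K (μ i) ^ e i
  let q : (Fin r → ℕ) → Polynomial K := fun e =>
    ∑ m ∈ A.support with tl m = e, Polynomial.monomial (m 0) (coeff m A)
  have hne : ∀ e, lam e ≠ 0 := fun e => Finset.prod_ne_zero_iff.2 fun i _ =>
    pow_ne_zero _ (by rw [Ne, map_eq_zero]; exact hμ.1 i)
  have hinj : Function.Injective lam := by
    intro e e' hee
    have h1 : ∏ i, μ i ^ ((e i : ℤ) - e' i) = 1 := by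
      have h2 : ∏ i, μ i ^ e i = ∏ i, μ i ^ e' i := by
        apply (algebraMap k K).injective
        simpa only [map_prod, map_pow] using hee
      have h3 : ∏ i, μ i ^ ((e i : ℤ) - e' i) = (∏ i, μ i ^ e i) / ∏ i, μ i ^ e' i := by
        rw [← Finset.prod_div_distrib]
        refine Finset.prod_congr rfl fun i _ => ?_
        rw [zpow_sub₀ (hμ.1 i), zpow_natCast, zpow_natCast]
      rw [h3, h2, div_self]
      exact Finset.prod_ne_zero_iff.2 fun i _ => pow_ne_zero _ (hμ.1 i)
    have h2 := hμ.2 _ h1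
    funext i
    have h3 := congrFun h2 i
    simp only [Pi.zero_apply] at h3
    omega
  have hterm : ∀ n (m : Fin (r + 1) →₀ ℕ), ∏ i, pt K μ n i ^ m i =
      (n : K) ^ m 0 * lam (tl m) ^ n := by
    intro n m
    rw [Fin.prod_univ_succ]
    simp only [pt, Fin.cons_zero, Fin.cons_succ, lam, tl, ← Finset.prod_pow]
    congr 1
    refine Finset.prod_congr rfl fun i _ => ?_
    rw [← pow_mul, ← pow_mul, mul_comm]
  have hsum : ∀ n : ℕ, ∑ e ∈ A.support.image tl, (q e).eval (n : K) * lam e ^ n = 0 := by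
    intro n
    rw [← h n, MvPolynomial.eval_eq', ← Finset.sum_fiberwise_of_maps_to
      (s := A.support) (t := A.support.image tl) (g := tl)
      (fun m hm => Finset.mem_image_of_mem _ hm)]
    refine Finset.sum_congr rfl fun e _ => ?_
    simp only [q, Polynomial.eval_finsetSum, Finset.sum_mul]
    refine Finset.sum_congr rfl fun m hm => ?_
    rw [Polynomial.eval_monomial, hterm, (Finset.mem_filter.1 hm).2]
    ring
  have hq := Pool.Agent.H327R2.SC.expPoly_indep (A.support.image tl) lam hinj hne q hsum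
  by_contra hA
  obtain ⟨m, hm⟩ := support_nonempty.2 hA
  have h1 := congrArg (fun p => p.coeff (m 0)) (hq (tl m) (Finset.mem_image_of_mem _ hm))
  simp only [q, Polynomial.finsetSum_coeff, Polynomial.coeff_zero] at h1
  rw [Finset.sum_eq_single m] at h1
  · rw [Polynomial.coeff_monomial, if_pos rfl] at h1
    exact mem_support_iff.1 hm h1
  · intro m' hm' hne'
    rw [Polynomial.coeff_monomial, if_neg]
    intro h0
    apply hne'
    ext i
    refine Fin.cases h0 (fun i => ?_) i
    exact congrFun (Finset.mem_filter.1 hm').2 i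
  · intro hcon
    exact absurd (Finset.mem_filter.2 ⟨hm, rfl⟩ : m ∈ A.support.filter fun m' => tl m' = tl m) hcon

section lau

variable {r : ℕ} {μ : Fin r → k}

theorem Lau.up {a : ℕ → K} {e e' : ℕ} (he : e ≤ e') {A : MvPolynomial (Fin (r + 1)) K}
    (h : ∀ n, a n * (∏ i, algebraMap k K (μ i) ^ n) ^ e = eval (pt K μ n) A) :
    ∃ A' : MvPolynomial (Fin (r + 1)) K,
      ∀ n, a n * (∏ i, algebraMap k K (μ i) ^ n) ^ e' = eval (pt K μ n) A' := by
  refine ⟨A * (∏ i : Fin r, X i.succ) ^ (e' - e), fun n => ?_⟩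
  have h1 : eval (pt K μ n) (∏ i : Fin r, X i.succ) = ∏ i, algebraMap k K (μ i) ^ n := by
    rw [map_prod]
    refine Finset.prod_congr rfl fun i _ => ?_
    rw [eval_X]
    rfl
  rw [map_mul, map_pow, h1, ← h, mul_assoc, ← pow_add, Nat.add_sub_cancel' he]

theorem Lau.add {a b : ℕ → K} (ha : Lau μ a) (hb : Lau μ b) : Lau μ fun n => a n + b n := by
  obtain ⟨e, A, h⟩ := ha
  obtain ⟨e', B, h'⟩ := hb
  obtain ⟨A', hA'⟩ := Lau.up (le_max_left e e') h
  obtain ⟨B', hB'⟩ := Lau.up (le_max_right e e') h'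
  exact ⟨max e e', A' + B', fun n => by rw [add_mul, hA', hB', map_add]⟩

theorem Lau.zero : Lau μ fun _ => (0 : K) := ⟨0, 0, fun n => by simp⟩

theorem Lau.mul {a b : ℕ → K} (ha : Lau μ a) (hb : Lau μ b) : Lau μ fun n => a n * b n := by
  obtain ⟨e, A, h⟩ := ha
  obtain ⟨e', B, h'⟩ := hb
  exact ⟨e + e', A * B, fun n => by rw [map_mul, ← h, ← h', pow_add]; ring⟩

theorem Lau.poly (p : Polynomial K) : Lau μ fun n => p.eval (n : K) := by
  refine ⟨0, Polynomial.aeval (X 0) p, fun n => ?_⟩
  rw [pow_zero, mul_one]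
  have h1 : eval (pt K μ n) (Polynomial.aeval (X 0 : MvPolynomial (Fin (r + 1)) K) p) =
      (MvPolynomial.aeval (pt K μ n)) (Polynomial.aeval (X 0 : MvPolynomial (Fin (r + 1)) K) p) := by
    rw [aeval_eq_eval]
  rw [h1, ← Polynomial.aeval_algHom_apply, aeval_X, Polynomial.coe_aeval_eq_eval]
  rfl

theorem Lau.const (c : K) : Lau μ fun _ => c := by
  have := Lau.poly (μ := μ) (Polynomial.C c)
  simpa using this

theorem Lau.sum {ι : Type} (s : Finset ι) {a : ι → ℕ → K} (h : ∀ i ∈ s, Lau μ (a i)) :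
    Lau μ fun n => ∑ i ∈ s, a i n := by
  classical
  induction s using Finset.induction_on with
  | empty => simpa using Lau.zero
  | insert i s hi ih =>
    simp only [Finset.sum_insert hi]
    exact (h i (Finset.mem_insert_self i s)).add
      (ih fun j hj => h j (Finset.mem_insert_of_mem hj))

theorem Lau.exp (hμ : ∀ i, μ i ≠ 0) (a : Fin r → ℤ) :
    Lau (K := K) μ fun n => algebraMap k K (∏ i, μ i ^ a i) ^ n := by
  obtain ⟨e, he⟩ : ∃ e : ℕ, ∀ i, 0 ≤ a i + e := by
    refine ⟨∑ i, (a i).natAbs, fun i => ?_⟩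
    have h1 : (a i).natAbs ≤ ∑ i, (a i).natAbs :=
      Finset.single_le_sum (f := fun i => (a i).natAbs) (fun _ _ => Nat.zero_le _)
        (Finset.mem_univ i)
    omega
  refine ⟨e, ∏ i, X i.succ ^ (a i + e).toNat, fun n => ?_⟩
  change algebraMap k K (∏ i, μ i ^ a i) ^ n * _ = _
  rw [map_prod (eval _), map_prod (algebraMap k K), ← Finset.prod_pow, ← Finset.prod_pow,
    ← Finset.prod_mul_distrib]
  refine Finset.prod_congr rfl fun i _ => ?_
  have hi : algebraMap k K (μ i) ≠ 0 := by rw [Ne, map_eq_zero]; exact hμ i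
  rw [map_pow, eval_X, map_zpow₀]
  change _ = (algebraMap k K (μ i) ^ n) ^ _
  rw [← zpow_natCast, ← zpow_natCast, ← zpow_natCast, ← zpow_natCast,
    Int.toNat_of_nonneg (he i), ← zpow_mul, ← zpow_mul, ← zpow_mul, ← zpow_add₀ hi]
  congr 1
  ring

end lau

/-- a multiplicative basis up to powers -/
theorem exists_mbasis {s : ℕ} (lam : Fin s → k) (h0 : ∀ j, lam j ≠ 0) :
    ∃ (n0 r : ℕ) (μ : Fin r → k), 0 < n0 ∧ MInd μ ∧
      ∀ j, ∃ a : Fin r → ℤ, lam j ^ n0 = ∏ i, μ i ^ a i := by
  classical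
  obtain ⟨u, hu⟩ : ∃ u : Fin s → kˣ, ∀ j, (u j : k) = lam j :=
    ⟨fun j => Units.mk0 _ (h0 j), fun j => rfl⟩
  obtain ⟨B, hB, hmax⟩ := exists_maximal_linearIndepOn ℤ (fun j => Additive.ofMul (u j))
  let e := (Fintype.equivFin B).symm
  let μ : Fin (Fintype.card B) → k := fun i => lam (e i)
  have hB' : LinearIndependent ℤ (fun i : Fin (Fintype.card B) => Additive.ofMul (u (e i))) := by
    have h1 : LinearIndependent ℤ (fun b : B => Additive.ofMul (u b)) := hB
    exact h1.comp e e.injective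
  have hsum : ∀ a : Fin (Fintype.card B) → ℤ,
      ((Additive.toMul (∑ i, a i • Additive.ofMul (u (e i))) : kˣ) : k) = ∏ i, μ i ^ a i := by
    intro a
    rw [toMul_sum, Units.coe_prod]
    refine Finset.prod_congr rfl fun i _ => ?_
    rw [toMul_zsmul, toMul_ofMul, Units.val_zpow_eq_zpow_val, hu]
  have hμ : MInd μ := by
    refine ⟨fun i => h0 _, fun a ha => ?_⟩
    rw [← hsum] at ha
    have h1 : (∑ i, a i • Additive.ofMul (u (e i))) = 0 := by
      apply Additive.toMul.injective
      rw [toMul_zero]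
      exact Units.ext ha
    funext i
    exact Fintype.linearIndependent_iff.1 hB' a h1 i
  have hmem : ∀ j, ∃ m : ℕ, 0 < m ∧ ∃ a : Fin (Fintype.card B) → ℤ,
      lam j ^ m = ∏ i, μ i ^ a i := by
    intro j
    by_cases hj : j ∈ B
    · refine ⟨1, one_pos, fun i => if i = e.symm ⟨j, hj⟩ then 1 else 0, ?_⟩
      rw [Finset.prod_eq_single (e.symm ⟨j, hj⟩)]
      · beta_reduce
        rw [if_pos rfl, zpow_one, pow_one]
        change _ = lam (e (e.symm ⟨j, hj⟩))
        rw [Equiv.apply_symm_apply]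
      · intro i _ hi
        beta_reduce
        rw [if_neg hi, zpow_zero]
      · intro h
        exact absurd (Finset.mem_univ _) h
    · obtain ⟨c, hc, hcs⟩ := hmax j hj
      have h1 : (fun j => Additive.ofMul (u j)) '' B =
          Set.range (fun i : Fin (Fintype.card B) => Additive.ofMul (u (e i))) := by
        ext z
        constructor
        · rintro ⟨b, hb, rfl⟩
          exact ⟨e.symm ⟨b, hb⟩, by beta_reduce; rw [Equiv.apply_symm_apply]⟩
        · rintro ⟨i, rfl⟩
          exact ⟨e i, (e i).2, rfl⟩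
      rw [h1, Submodule.mem_span_range_iff_exists_fun] at hcs
      obtain ⟨a, ha⟩ := hcs
      have h2 : lam j ^ c = ∏ i, μ i ^ a i := by
        rw [← hsum, ha, toMul_zsmul, toMul_ofMul, Units.val_zpow_eq_zpow_val, hu]
      rcases le_or_gt 0 c with hc0 | hc0
      · refine ⟨c.toNat, by omega, a, ?_⟩
        rw [← h2, ← zpow_natCast, Int.toNat_of_nonneg hc0]
      · refine ⟨(-c).toNat, by omega, fun i => - a i, ?_⟩
        have h3 : ∏ i, μ i ^ (- a i) = (∏ i, μ i ^ a i)⁻¹ := by
          rw [← Finset.prod_inv_distrib]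
          exact Finset.prod_congr rfl fun i _ => zpow_neg _ _
        rw [h3, ← h2, ← zpow_natCast, Int.toNat_of_nonneg (by omega), zpow_neg]
  choose m hm a ha using hmem
  refine ⟨∏ j, m j, _, μ, Finset.prod_pos fun j _ => hm j, hμ, fun j => ?_⟩
  obtain ⟨t, ht⟩ := Finset.dvd_prod_of_mem m (Finset.mem_univ j)
  refine ⟨fun i => a j i * t, ?_⟩
  rw [ht, pow_mul, ha, ← Finset.prod_pow]
  refine Finset.prod_congr rfl fun i _ => ?_
  rw [zpow_mul, zpow_natCast]

/-- the binomial coefficients as polynomials -/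
theorem exists_choose [CharZero K] (j : ℕ) :
    ∃ p : Polynomial K, ∀ n : ℕ, p.eval (n : K) = (n.choose j : K) := by
  refine ⟨Polynomial.C ((j.factorial : K)⁻¹) * descPochhammer K j, fun n => ?_⟩
  rw [Polynomial.eval_mul, Polynomial.eval_C, descPochhammer_eval_eq_descFactorial,
    Nat.descFactorial_eq_factorial_mul_choose]
  push_cast
  rw [← mul_assoc, inv_mul_cancel₀ (by exact_mod_cast j.factorial_ne_zero), one_mul]

variable {W : Type} [AddCommGroup W] [Module k W]

theorem lau_gen [CharZero K] {r : ℕ} {μ : Fin r → k} (hμ : ∀ i, μ i ≠ 0) {T : Module.End k W}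
    {lam : k} (hlam : lam ≠ 0) {a : Fin r → ℤ} (ha : lam = ∏ i, μ i ^ a i) {w : W} {m : ℕ}
    (hw : ((T - lam • (1 : Module.End k W)) ^ m) w = 0) (ℓ : W →ₗ[k] K) :
    Lau μ fun n => ℓ ((T ^ n) w) := by
  classical
  obtain ⟨S, hS⟩ : ∃ S, S = T - lam • (1 : Module.End k W) := ⟨_, rfl⟩
  rw [← hS] at hw
  have hT : T = S + lam • (1 : Module.End k W) := by rw [hS, sub_add_cancel]
  have hcomm : Commute S (lam • (1 : Module.End k W)) := by
    rw [← Algebra.algebraMap_eq_smul_one]
    exact (Algebra.commutes lam S).symm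
  have hz : ∀ j, m ≤ j → (S ^ j) w = 0 := by
    intro j hj
    obtain ⟨i, rfl⟩ := Nat.exists_eq_add_of_le hj
    rw [add_comm, pow_add, Module.End.mul_apply, hw, map_zero]
  choose p hp using fun j => exists_choose (K := K) j
  have hmain : (fun n => ℓ ((T ^ n) w)) = fun n : ℕ => ∑ j ∈ Finset.range m,
      ((p j).eval (n : K) * (algebraMap k K lam ^ n)) *
        (algebraMap k K (lam ^ j)⁻¹ * ℓ ((S ^ j) w)) := by
    funext n
    rw [hT, hcomm.add_pow, LinearMap.sum_apply, map_sum]
    have h1 : ∀ j ∈ Finset.range (n + 1),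
        ℓ ((S ^ j * (lam • (1 : Module.End k W)) ^ (n - j) * (n.choose j : Module.End k W)) w) =
        ((p j).eval (n : K) * (algebraMap k K lam ^ n)) *
        (algebraMap k K (lam ^ j)⁻¹ * ℓ ((S ^ j) w)) := by
      intro j hj
      have hjn : j ≤ n := Nat.lt_succ_iff.1 (Finset.mem_range.1 hj)
      have h2 : (S ^ j * (lam • (1 : Module.End k W)) ^ (n - j) *
          (n.choose j : Module.End k W)) w = ((n.choose j : k) * lam ^ (n - j)) • (S ^ j) w := by
        rw [smul_pow, one_pow, mul_smul_comm, mul_one, Module.End.mul_apply,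
          Module.End.natCast_apply, map_nsmul, LinearMap.smul_apply, mul_smul,
          ← Nat.cast_smul_eq_nsmul k]
      rw [h2, map_smul, Algebra.smul_def, map_mul, map_natCast, hp]
      have h3 : algebraMap k K (lam ^ (n - j)) =
          algebraMap k K lam ^ n * algebraMap k K (lam ^ j)⁻¹ := by
        rw [← map_pow, ← map_mul]
        congr 1
        rw [pow_sub₀ _ hlam hjn]
      rw [h3]
      ring
    rw [Finset.sum_congr rfl h1]
    rcases le_total m (n + 1) with hmn | hmn
    · refine (Finset.sum_subset (Finset.range_mono hmn) fun j _ hj => ?_).symm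
      rw [hz j (by simpa using hj), map_zero, mul_zero, mul_zero]
    · refine Finset.sum_subset (Finset.range_mono hmn) fun j _ hj => ?_
      rw [hp, Nat.choose_eq_zero_of_lt (by simpa using hj), Nat.cast_zero, zero_mul, zero_mul]
  rw [hmain]
  refine Lau.sum _ fun j _ => ((Lau.poly (p j)).mul ?_).mul (Lau.const _)
  rw [ha]
  exact Lau.exp hμ a

/-- **Iterates.** -/
theorem exists_lau [IsAlgClosed k] [CharZero K] [FiniteDimensional k W] (T : Module.End k W) :
    ∃ (n0 d r : ℕ) (μ : Fin r → k), 0 < n0 ∧ MInd μ ∧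
      ∀ (w : W) (ℓ : W →ₗ[k] K), Lau μ fun n => ℓ ((T ^ (d + n0 * n)) w) := by
  classical
  have hfin : {x : k | T.HasEigenvalue x ∧ x ≠ 0}.Finite :=
    T.finite_hasEigenvalue.subset fun x hx => hx.1
  let e := (hfin.toFinset.equivFin).symm
  obtain ⟨n0, r, μ, hn0, hμ, hlam⟩ := exists_mbasis (fun j => ((e j : hfin.toFinset) : k))
    (fun j => (hfin.mem_toFinset.1 (e j).2).2)
  refine ⟨n0, Module.finrank k W, r, μ, hn0, hμ, fun w ℓ => ?_⟩
  have htop : w ∈ ⨆ x : k, T.maxGenEigenspace x := by
    rw [Module.End.iSup_maxGenEigenspace_eq_top]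
    trivial
  induction htop using Submodule.iSup_induction' with
  | mem x w hw =>
    by_cases hw0 : w = 0
    · subst hw0
      simpa using Lau.zero (K := K) (μ := μ)
    by_cases hx : x = 0
    · subst hx
      rw [Module.End.maxGenEigenspace_eq_genEigenspace_finrank, Module.End.mem_genEigenspace_nat,
        LinearMap.mem_ker, zero_smul, sub_zero] at hw
      have h1 : ∀ n, (T ^ (Module.finrank k W + n0 * n)) w = 0 := by
        intro n
        rw [add_comm, pow_add, Module.End.mul_apply, hw, map_zero]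
      simp only [h1, map_zero]
      exact Lau.zero
    · have hev : T.HasEigenvalue x := by
        obtain ⟨m, hm⟩ := (T.mem_maxGenEigenspace x w).1 hw
        refine Module.End.hasEigenvalue_of_hasGenEigenvalue (k := m) ?_
        intro h0
        apply hw0
        have h1 : w ∈ T.genEigenspace x m := by
          rw [Module.End.mem_genEigenspace_nat, LinearMap.mem_ker]
          exact hm
        rw [h0] at h1
        exact h1
      obtain ⟨a, ha⟩ := hlam (e.symm ⟨x, hfin.mem_toFinset.2 ⟨hev, hx⟩⟩)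
      rw [Equiv.apply_symm_apply] at ha
      obtain ⟨m, hm⟩ := (T.mem_maxGenEigenspace x w).1 hw
      have h1 : ((T ^ n0 - (x ^ n0) • (1 : Module.End k W)) ^ m)
          ((T ^ Module.finrank k W) w) = 0 := by
        have hcomm : Commute T (x • (1 : Module.End k W)) := by
          rw [← Algebra.algebraMap_eq_smul_one]
          exact (Algebra.commutes x T).symm
        obtain ⟨S, hS⟩ : ∃ S, S * (T - x • (1 : Module.End k W)) =
            T ^ n0 - (x • (1 : Module.End k W)) ^ n0 := ⟨_, hcomm.geom_sum₂_mul n0⟩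
        rw [smul_pow, one_pow] at hS
        have hc1 : Commute (T - x • (1 : Module.End k W)) T :=
          (Commute.refl T).sub_left hcomm.symm
        have hc2 : Commute (T - x • (1 : Module.End k W))
            (T ^ n0 - (x ^ n0) • (1 : Module.End k W)) := by
          refine (hc1.pow_right n0).sub_right ?_
          rw [← Algebra.algebraMap_eq_smul_one]
          exact (Algebra.commutes (x ^ n0) _).symm
        have h2 : ∀ m, ∃ S', (T ^ n0 - (x ^ n0) • (1 : Module.End k W)) ^ m =
            S' * (T - x • (1 : Module.End k W)) ^ m := by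
          intro m
          induction m with
          | zero => exact ⟨1, by rw [pow_zero, pow_zero, one_mul]⟩
          | succ m ih =>
            obtain ⟨S', hS'⟩ := ih
            refine ⟨S' * S, ?_⟩
            rw [pow_succ, hS', mul_assoc, (hc2.pow_left m).eq, ← hS, mul_assoc, mul_assoc,
              ← pow_succ']
        obtain ⟨S', hS'⟩ := h2 m
        rw [← Module.End.mul_apply, hS', mul_assoc, (hc1.pow_pow m (Module.finrank k W)).eq,
          Module.End.mul_apply, Module.End.mul_apply, hm, map_zero, map_zero]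
      have h2 := lau_gen (K := K) hμ.1 (T := T ^ n0) (pow_ne_zero n0 hx) ha h1 ℓ
      refine (congrArg (fun f => Lau μ f) (funext fun n => ?_)).mp h2
      rw [← Module.End.mul_apply, ← pow_mul, ← pow_add, add_comm]
  | zero => simpa using Lau.zero (K := K) (μ := μ)
  | add x y _ _ hx hy =>
    have := hx.add hy
    simpa using this

end Pool.Agent.Q13.NS
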