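import Pool.Agent.Q13.NS.Plc
import Pool.Agent.Q13.NS.Seq

/-!
The exponents of Laurent polynomials which are regular at certain places.
-/

set_option autoImplicit false
set_option linter.overlappingInstances false

open FF MvPolynomial Pool.Agent.W602.GT Pool.Agent.W603.LV Pool.Agent.Y172

namespace Pool.Agent.Q13.NS

variable {k M : Type} [Field k] [CharZero k] [Field M] [Algebra k M]

theorem exps_le {K0 : IntermediateField k M} {l : ℕ} {u : Fin l → M} (hu : ∀ j, u j ≠ 0)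
    {H : Fin l → Derivation k M M} (hHM : ∀ j, Kills (H j) K0)
    (hHu : ∀ i j, H i (u j) = if i = j then u j else 0) {Q : Place k M}
    (hlog : ∀ j, DerLog Q (H j)) (hK0 : ∀ c ∈ K0, c ≠ 0 → Q.ord c = 0) (i : Fin l)
    (hui : ∀ j, j ≠ i → Q.ord (u j) = 0) {g : MvPolynomial (Fin l) K0} {m : Fin l →₀ ℕ}
    (hm : m ∈ g.support) {e : Fin l → ℕ} (hreg : Q.Reg (aeval u g / ∏ j, u j ^ e j)) :
    (e i : ℤ) * Q.ord (u i) ≤ (m i : ℤ) * Q.ord (u i) := by
  classical
  have hT0 : ∏ j, u j ^ e j ≠ 0 := Finset.prod_ne_zero_iff.2 fun j _ => pow_ne_zero _ (hu j)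
  have hT : Q.ord (∏ j, u j ^ e j) = e i * Q.ord (u i) := by
    rw [Pool.Agent.W619.PQ.ord_prod _ Q _ fun j _ => pow_ne_zero _ (hu j),
      Finset.sum_eq_single i]
    · rw [Q.ord_pow]
    · intro j _ hj
      rw [Q.ord_pow, hui j hj, mul_zero]
    · intro h
      exact absurd (Finset.mem_univ i) h
  have h1 : Ge Q ((e i : ℤ) * Q.ord (u i)) (aeval u g) := by
    have h2 : Ge Q 0 (aeval u g / ∏ j, u j ^ e j) := hreg
    have h3 := h2.mul (Or.inr le_rfl : Ge Q (Q.ord (∏ j, u j ^ e j)) (∏ j, u j ^ e j))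
    rw [div_mul_cancel₀ _ hT0, hT, zero_add] at h3
    exact h3
  have h2 := ge_trm hu hHM hHu hlog g hm h1
  rcases h2 with h2 | h2
  · exact absurd h2 (trm_ne hu hm)
  · have hc : ((coeff m g : K0) : M) ≠ 0 := fun h => mem_support_iff.1 hm (Subtype.ext h)
    rw [trm, Q.ord_mul hc (mono_ne hu _), hK0 _ (Subtype.coe_prop _) hc, zero_add, mono,
      Pool.Agent.W619.PQ.ord_prod _ Q _ fun j _ => zpow_ne_zero _ (hu j),
      Finset.sum_eq_single i] at h2
    · rwa [Q.ord_zpow] at h2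
    · intro j _ hj
      rw [Q.ord_zpow, hui j hj, mul_zero]
    · intro h
      exact absurd (Finset.mem_univ i) h

/-- the sequences given by one monomial -/
theorem const_of_supp {k K : Type} [Field k] [Field K] [Algebra k K] {r : ℕ} {μ : Fin r → k}
    (hμ : MInd μ) {e : ℕ} {A : MvPolynomial (Fin (r + 1)) K} {a : ℕ → K}
    (ha : ∀ n, a n * (∏ i, algebraMap k K (μ i) ^ n) ^ e = eval (pt K μ n) A)
    (hA : ∀ m ∈ A.support, m 0 = 0 ∧ ∀ i : Fin r, m i.succ = e) (n : ℕ) : a n = a 0 := by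
  classical
  obtain ⟨m0, hm0⟩ : ∃ m0 : Fin (r + 1) →₀ ℕ, m0 0 = 0 ∧ ∀ i : Fin r, m0 i.succ = e :=
    ⟨Finsupp.equivFunOnFinite.symm (Fin.cons 0 fun _ => e), rfl, fun i => rfl⟩
  have h1 : ∀ m ∈ A.support, m = m0 := by
    intro m hm
    obtain ⟨h1, h2⟩ := hA m hm
    ext i
    refine Fin.cases (h1.trans hm0.1.symm) (fun i => ?_) i
    exact (h2 i).trans (hm0.2 i).symm
  have h2 : A = monomial m0 (coeff m0 A) := by
    ext m
    rw [coeff_monomial]
    by_cases hm : m0 = m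
    · rw [if_pos hm, hm]
    · rw [if_neg hm]
      by_contra hcon
      exact hm (h1 m (mem_support_iff.2 hcon)).symm
  have h3 : ∀ n, a n = coeff m0 A := by
    intro n
    have h4 : (∏ i, algebraMap k K (μ i) ^ n) ^ e ≠ 0 :=
      pow_ne_zero _ (Finset.prod_ne_zero_iff.2 fun i _ => pow_ne_zero _ (by
        rw [Ne, map_eq_zero]
        exact hμ.1 i))
    apply mul_right_cancel₀ h4
    rw [ha, h2, eval_monomial, coeff_monomial, if_pos rfl]
    congr 1
    rw [Finsupp.prod_fintype _ _ (fun i => pow_zero _), Fin.prod_univ_succ, hm0.1, pow_zero,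
      one_mul, ← Finset.prod_pow]
    refine Finset.prod_congr rfl fun i _ => ?_
    rw [hm0.2]
    rfl
  rw [h3, h3]

end Pool.Agent.Q13.NS
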