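import Pool.Agent.Q13.KO.FD
import Pool.Agent.W602.GT.NG

/-!
The values of the tensors with controlled poles lie in a finite-dimensional space.
-/

set_option autoImplicit false
set_option linter.overlappingInstances false
set_option linter.unusedSectionVars false

open FF IntermediateField MvPolynomial

namespace Pool.Agent.Q13.NS

open Pool.Agent.W602.GT Pool.Agent.TH466.QG Pool.Agent.TH466.QT Pool.Agent.Q13.KO
open Pool.Agent.W619.PQ Pool.Agent.W619.Y Pool.Agent.Y173.QA
open Pool.Agent.W603.LV (Ge)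
open Pool.Agent.W619.TW (Dom)

variable {k : Type} [Field k] [CharZero k]

/-- The value of the tensor on the vector fields. -/
noncomputable def tval {k K : Type} [Field k] [Field K] [Algebra k K] {w : ℕ} (m : ℕ)
    (y : Fin w → K) (a : K) (D : Fin w → Derivation k K K) : K :=
  (Matrix.of fun j i => D j (y i)).det ^ m * a

/-- The tensor `a (dy) ^ m` has at most logarithmic poles, and it is regular at the places with
centre on the affine space with coordinates `Z`, outside of `h = 0`. -/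
def Tame {k K : Type} [Field k] [Field K] [Algebra k K] {d w : ℕ} (Z : Fin d → K)
    (h : MvPolynomial (Fin d) k) (m : ℕ) (y : Fin w → K) (a : K) : Prop :=
  (∀ P : Place k K, Divisorial d P → ∀ D : Fin w → Derivation k K K, (∀ i, DerLog P (D i)) →
    P.Reg (tval m y a D)) ∧
  (∀ P : Place k K, Divisorial d P → (∀ f : MvPolynomial (Fin d) k, P.Reg (aeval Z f)) →
    P.ord (aeval Z h) = 0 → ∀ D : Fin w → Derivation k K K, (∀ i, DerReg P (D i)) →
    P.Reg (tval m y a D))

theorem tval_smul {K : Type} [Field K] [Algebra k K] {w m : ℕ} {y : Fin w → K}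
    {a : K} {D : Fin w → Derivation k K K} {q : K} :
    tval m y a (fun i => q • D i) = q ^ (w * m) * tval m y a D := by
  unfold tval
  have h2 : (Matrix.of fun j i => (q • D j) (y i)) = q • (Matrix.of fun j i => D j (y i)) := by
    ext j i
    rw [Matrix.of_apply, Matrix.smul_apply, Matrix.of_apply, Derivation.smul_apply]
  rw [h2, Matrix.det_smul, Fintype.card_fin, mul_pow, ← pow_mul, mul_assoc]

theorem log_of_smul {K : Type} [Field K] [Algebra k K] {P : Place k K} {D : Derivation k K K}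
    (hD : Pres P D) {s : K} (hs0 : s ≠ 0) (hs : 1 ≤ P.ord s) : DerLog P (s • D) := by
  obtain ⟨τ, hτ0, hτ⟩ := P.surj
  refine pl_log (τ := τ) (fun f hf => ?_) hτ ?_
  · rw [Derivation.smul_apply, smul_eq_mul]
    exact P.reg_mul (Or.inr (by omega)) (hD f hf)
  · rw [Derivation.smul_apply, smul_eq_mul]
    by_cases h0 : D τ = 0
    · rw [h0, mul_zero, zero_div]; exact P.reg_zero
    right
    have h1 := (hD τ (Or.inr (by omega))).resolve_left h0
    rw [P.ord_div (mul_ne_zero hs0 h0) hτ0, P.ord_mul hs0 h0, hτ]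
    omega

/-- **Finiteness.** -/
theorem fin_tame {K : Type} [Field K] [Algebra k K] {d w m : ℕ} (hd : 0 < d)
    (htr : Algebra.trdeg k K = d)
    (hfr : ∀ y : Fin d → K, IsTranscendenceBasis k y →
      FiniteDimensional (IntermediateField.adjoin k (Set.range y)) K)
    {Z : Fin d → K} (hZ : IsTranscendenceBasis k Z) {h : MvPolynomial (Fin d) k} (hh : h ≠ 0)
    (D : Fin w → Derivation k K K) :
    ∃ V : Submodule k K, FiniteDimensional k V ∧ ∀ (y : Fin w → K) (a : K),
      Tame Z h m y a → tval m y a D ∈ V := by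
  classical
  let S0 : Set K := {f | ∃ (y : Fin w → K) (a : K), Tame Z h m y a ∧ f = tval m y a D}
  have hfd := hfr Z hZ
  have hZ0 : ∀ f : MvPolynomial (Fin d) k, f ≠ 0 → aeval Z f ≠ 0 := fun f hf h0 =>
    hf ((injective_iff_map_eq_zero _).1 hZ.1 _ h0)
  -- the finite part
  choose Q0 hQ0 hQ0' using fun i => exists_clear hZ hfd (D i)
  obtain ⟨Q1, hQ1def⟩ : ∃ Q1, Q1 = ∏ i, Q0 i := ⟨_, rfl⟩
  have hQ1 : Q1 ≠ 0 := by
    rw [hQ1def]
    exact Finset.prod_ne_zero_iff.2 fun i _ => hQ0 i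
  have hQP : ∀ p : MvPolynomial (Fin d) k, Irreducible p → ∀ P : Place k K, Adic Z p P →
      ∀ i, Pres P (aeval Z Q1 • D i) := by
    intro p hp P hP i f hf
    have h1 := hQ0' i p hp P hP f hf
    rw [Derivation.smul_apply, smul_eq_mul] at h1
    rw [Derivation.smul_apply, smul_eq_mul, hQ1def,
      ← Finset.mul_prod_erase Finset.univ Q0 (Finset.mem_univ i), map_mul,
      mul_comm (aeval Z (Q0 i)), mul_assoc]
    exact P.reg_mul (adic_reg hP _) h1
  obtain ⟨Q, hQdef⟩ : ∃ Q, Q = h * Q1 := ⟨_, rfl⟩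
  have hQ : Q ≠ 0 := hQdef ▸ mul_ne_zero hh hQ1
  have hQD : ∀ i, aeval Z Q • D i = aeval Z h • (aeval Z Q1 • D i) := by
    intro i
    rw [hQdef, map_mul, mul_smul]
  have hfinite : ∀ p : MvPolynomial (Fin d) k, Irreducible p → ∀ P : Place k K, Adic Z p P →
      ∀ y a, Tame Z h m y a → P.Reg (tval m y a fun i => aeval Z Q • D i) := by
    intro p hp P hP y a hT
    have hdiv : Divisorial d P := adic_div hZ.1 hp hP
    simp only [hQD]
    by_cases hph : p ∣ h
    · refine hT.1 P hdiv _ fun i => log_of_smul (hQP p hp P hP i) (hZ0 h hh) ?_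
      have h1 := hP h hh
      have h2 : P.ord (aeval Z h) ≠ 0 := fun h3 => h1.2.1 h3 hph
      omega
    · refine hT.2 P hdiv (adic_reg hP) ((hP h hh).2.2 hph) _ fun i f hf => ?_
      rw [Derivation.smul_apply, smul_eq_mul]
      exact P.reg_mul (adic_reg hP _) (hQP p hp P hP i f hf)
  obtain ⟨T, hT, hTdeg, C, c, hcount⟩ := count_L hd hZ hfd {(aeval Z Q ^ (w * m))⁻¹}
  have hTdiv : ∀ b, ∀ P ∈ T b, IsDivisorial P d := by
    intro b P hP
    obtain ⟨e, he, hf⟩ := hTdeg b P hP
    refine div_of_deg hZ.1 (b := b) fun f hf0 hf1 => ?_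
    rw [hf f hf0, hf1]
    simp
  -- the places of infinity
  have hinf : ∀ b, ∃ C1 : ℕ, ∀ P ∈ T b, ∀ f ∈ S0, Ge P (-(C1 : ℤ)) f := by
    intro b
    have h1 : ∀ P : Place k K, ∃ C1 : ℕ, P ∈ T b → ∀ f ∈ S0, Ge P (-(C1 : ℤ)) f := by
      intro P
      by_cases hP : P ∈ T b
      · obtain ⟨s, hs0, hs⟩ := P.surj
        choose C2 hC2 using fun i => exists_pow_pres htr hfr (hTdiv b P hP) hs0 hs (D i)
        refine ⟨(∑ i, C2 i + 1) * (w * m), fun _ f hf => ?_⟩
        obtain ⟨y, a, hgood, rfl⟩ := hf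
        have h2 : P.Reg (tval m y a fun i => s ^ (∑ i, C2 i + 1) • D i) := by
          refine hgood.1 P (hTdiv b P hP) _ fun i => ?_
          have h3 := log_of_smul (P := P) (hC2 i (∑ i, C2 i) (Finset.single_le_sum (f := C2)
            (fun _ _ => Nat.zero_le _) (Finset.mem_univ i))) hs0 (by omega)
          rwa [← mul_smul, ← pow_succ'] at h3
        rw [tval_smul] at h2
        by_cases h0 : tval m y a D = 0
        · exact Or.inl h0
        right
        have h3 := h2.resolve_left (mul_ne_zero (pow_ne_zero _ (pow_ne_zero _ hs0)) h0)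
        rw [P.ord_mul (pow_ne_zero _ (pow_ne_zero _ hs0)) h0, P.ord_pow, P.ord_pow, hs] at h3
        push_cast at h3 ⊢
        linarith
      · exact ⟨0, fun h => absurd h hP⟩
    choose C1 hC1 using h1
    refine ⟨∑ P ∈ (hT b).toFinset, C1 P, fun P hP f hf => ?_⟩
    refine (hC1 P hP f hf).mono ?_
    have h2 : C1 P ≤ ∑ P ∈ (hT b).toFinset, C1 P :=
      Finset.single_le_sum (f := C1) (fun _ _ => Nat.zero_le _) ((hT b).mem_toFinset.2 hP)
    have h3 : (C1 P : ℤ) ≤ ((∑ P ∈ (hT b).toFinset, C1 P : ℕ) : ℤ) := by exact_mod_cast h2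
    linarith
  choose C1 hC1 using hinf
  refine ⟨Submodule.span k S0, fd_of_bound S0 (C * ∏ b, (C1 b + c)) fun N f hli hf => ?_,
    fun y a hgood => Submodule.subset_span ⟨y, a, hgood, rfl⟩⟩
  refine hcount C1 N f hli ?_ fun l b P hP => hC1 b P hP _ (hf l)
  intro l p hp P hP
  obtain ⟨y, a, hgood, hfl⟩ := hf l
  have h1 := hfinite p hp P hP y a hgood
  rw [tval_smul, ← hfl] at h1
  by_cases h0 : f l = 0
  · exact Or.inl h0
  right
  have hne : aeval Z Q ^ (w * m) ≠ 0 := pow_ne_zero _ (hZ0 Q hQ)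
  refine ⟨_, Finset.mem_singleton_self _, inv_ne_zero hne, ?_⟩
  have h2 := h1.resolve_left (mul_ne_zero hne h0)
  rw [P.ord_mul hne h0] at h2
  rw [P.ord_inv]
  push_cast
  linarith

end Pool.Agent.Q13.NS
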