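import Pool.Agent.Q13.NS.Main

/-!
The theorem of Kobayashi-Ochiai type for tensors with at most logarithmic poles, with a general
hypothesis on the regularity of the pull-backs.
-/

set_option autoImplicit false
set_option linter.overlappingInstances false

open FF MvPolynomial Pool.Agent.W602.GT Pool.Agent.W603.LV Pool.Agent.Q13.KO

namespace Pool.Agent.Q13.NS

variable {k K F : Type} [Field k] [CharZero k] [Field K] [Field F] [Algebra k K] [Algebra k F]

/-- **Kobayashi-Ochiai**, for tensors with at most logarithmic poles whose pull-backs are regular at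
the places with centre on an open subset of an affine space. -/
theorem ko_gen [IsAlgClosed k] [Algebra.EssFiniteType k K] [Algebra.EssFiniteType k F]
    {w p d : ℕ} (hw : Algebra.trdeg k F = w) (hd : Algebra.trdeg k K = d)
    {Bd : Place k F → Prop} {x : Fin p → F} {c : F} {N : ℕ} (hN : 0 < N) (hc : c ≠ 0)
    (hx : AlgebraicIndependent k x) (h : GenFib w Bd x c N) (σ : K →ₐ[k] K) (ι : F →ₐ[k] K)
    {Z : Fin d → K} (hZ : IsTranscendenceBasis k Z) {hh : MvPolynomial (Fin d) k} (hh0 : hh ≠ 0)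
    (hTame : ∀ j n, Tame Z hh N (fun b => (σ ^ n) (ι (x b)))
      ((σ ^ n) (ι ((Fin.cons 1 x : Fin (p + 1) → F) j * c)))) :
    ∃ n, 0 < n ∧ ∀ b, (σ ^ n) (ι (x b)) = ι (x b) := by
  classical
  rcases Nat.eq_zero_or_pos p with rfl | hp
  · exact ⟨1, one_pos, fun b => b.elim0⟩
  have hcK : CharZero K := charZero_of_injective_algebraMap (algebraMap k K).injective
  obtain ⟨dd, hdd⟩ := Pool.Agent.Y173.QA.exists_duals hZ
  have hd0 : 0 < d := by
    by_contra h0
    obtain rfl : d = 0 := by omega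
    have hind : AlgebraicIndependent k (fun l => ι (x l)) := hx.map' (f := ι) ι.injective
    have h1 := hind.cardinalMk_le_trdeg
    rw [hd, Cardinal.mk_fin] at h1
    have h2 : p ≤ 0 := by exact_mod_cast h1
    omega
  have hpow : ∀ n z, (σ ^ (n + 1)) z = σ ((σ ^ n) z) := fun n z => by
    rw [pow_succ']
    rfl
  obtain ⟨y, hy⟩ : ∃ y : ℕ → Fin p → K, ∀ n, y n = fun b => (σ ^ n) (ι (x b)) := ⟨_, fun _ => rfl⟩
  obtain ⟨a, ha⟩ : ∃ a : Fin (p + 1) → ℕ → K,
      ∀ j n, a j n = (σ ^ n) (ι ((Fin.cons 1 x : Fin (p + 1) → F) j * c)) := ⟨_, fun _ _ => rfl⟩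
  have hT : ∀ j n, Tame Z hh N (y n) (a j n) := by
    intro j n
    rw [hy, ha]
    exact hTame j n
  -- the finite-dimensional space
  let s : Set (MvPolynomial (Fin p × Fin d) K) :=
    {q | ∃ j n, q = gform dd N (y n) (a j n)}
  have hfin : FiniteDimensional k (Submodule.span k s) := by
    refine fin_of_values (k := k) (p * N) s ?_ fun A => ?_
    · rintro _ ⟨j, n, rfl⟩
      exact gform_homog N _ _
    · obtain ⟨V, h1, h2⟩ := fin_tame (w := p) (m := N) hd0 hd
        (fun y hy => Pool.Agent.W619.Y.fin_over y hy) hZ hh0 (fun j => ∑ l, A (j, l) • dd l)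
      refine ⟨V, h1, ?_⟩
      rintro _ ⟨j, n, rfl⟩
      rw [eval_gform]
      exact h2 _ _ (hT j n)
  let T0 : MvPolynomial (Fin p × Fin d) K →ₗ[k] MvPolynomial (Fin p × Fin d) K :=
    { toFun := fun q => TT dd Z σ q
      map_add' := fun q q' => map_add (TT dd Z σ) q q'
      map_smul' := fun c q => TT_smul σ c q }
  have hTg : ∀ j n, T0 (gform dd N (y n) (a j n)) = gform dd N (y (n + 1)) (a j (n + 1)) := by
    intro j n
    change TT dd Z σ _ = _
    rw [TT_gform hZ hdd]
    congr 1
    · rw [hy, hy]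
      funext b
      exact (hpow n _).symm
    · rw [ha, ha, hpow]
  have hTW : ∀ q ∈ Submodule.span k s, T0 q ∈ Submodule.span k s := by
    intro q hq
    have h1 : Submodule.span k s ≤ (Submodule.span k s).comap T0 := by
      rw [Submodule.span_le]
      rintro _ ⟨j, n, rfl⟩
      change T0 _ ∈ Submodule.span k s
      rw [hTg]
      exact Submodule.subset_span ⟨j, n + 1, rfl⟩
    exact h1 hq
  let T : Module.End k (Submodule.span k s) := T0.restrict hTW
  obtain ⟨n0, d0, r, μ, hn0, hμ, hlau⟩ := exists_lau (K := K) T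
  obtain ⟨g, hg⟩ : ∃ g : Fin (p + 1) → Submodule.span k s,
      ∀ j, (g j : MvPolynomial (Fin p × Fin d) K) = gform dd N (y 0) (a j 0) :=
    ⟨fun j => ⟨_, Submodule.subset_span ⟨j, 0, rfl⟩⟩, fun j => rfl⟩
  have hTn : ∀ j n, (((T ^ n) (g j) : Submodule.span k s) : MvPolynomial (Fin p × Fin d) K) =
      gform dd N (y n) (a j n) := by
    intro j n
    induction n with
    | zero => rw [pow_zero, Module.End.one_apply, hg]
    | succ n ih =>
      rw [pow_succ', Module.End.mul_apply]
      exact (congrArg T0 ih).trans (hTg j n)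
  -- the vector fields
  have hind : AlgebraicIndependent k (y d0) := by
    rw [hy]
    exact (hx.map' (f := ι) ι.injective).map' (f := σ ^ d0) (σ ^ d0).injective
  obtain ⟨D, hD⟩ := Pool.Agent.TH466.QT.exists_dual_of_indep hind
  let ℓ : Submodule.span k s →ₗ[k] K :=
    ((aeval (fun q : Fin p × Fin d => D q.1 (Z q.2)) :
      MvPolynomial (Fin p × Fin d) K →ₐ[K] K).toLinearMap.restrictScalars k).comp
      (Submodule.span k s).subtype
  have hℓ : ∀ j n, ℓ ((T ^ n) (g j)) =
      a j n * (Matrix.of fun i b => D i (y n b)).det ^ N := by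
    intro j n
    change aeval _ (((T ^ n) (g j) : Submodule.span k s) : MvPolynomial (Fin p × Fin d) K) = _
    rw [hTn, aeval_eq_eval, eval_gform, mul_comm]
    congr 3
    ext i b
    rw [Matrix.of_apply, Matrix.of_apply, ← Pool.Agent.Y173.QA.der_expand hZ hdd (D i)]
  obtain ⟨a', ha'⟩ : ∃ a' : Fin (p + 1) → ℕ → K,
      ∀ j n, a' j n = ℓ ((T ^ (d0 + n0 * n)) (g j)) := ⟨_, fun _ _ => rfl⟩
  have hval : ∀ j n, a' j n = ((σ ^ (d0 + n0 * n)).comp ι)
      ((Fin.cons 1 x : Fin (p + 1) → F) j * c) *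
      (Matrix.of fun i b => D i (((σ ^ (d0 + n0 * n)).comp ι) (x b))).det ^ N := by
    intro j n
    rw [ha', hℓ, ha, hy]
    rfl
  have h00 : a' 0 0 ≠ 0 := by
    rw [ha', hℓ, mul_zero, add_zero]
    have h2 : (Matrix.of fun i b => D i (y d0 b)) = (1 : Matrix (Fin p) (Fin p) K) := by
      ext j i
      rw [Matrix.of_apply, hD, Matrix.one_apply]
      by_cases hij : i = j
      · rw [if_pos hij, if_pos hij.symm]
      · rw [if_neg hij, if_neg (Ne.symm hij)]
    rw [h2, Matrix.det_one, one_pow, mul_one, ha, Fin.cons_zero, one_mul]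
    rw [Ne, map_eq_zero, map_eq_zero]
    exact hc
  have hcore := core hw hN h (fun n => (σ ^ (d0 + n0 * n)).comp ι) D hμ a' hval
    (fun j => by
      have := hlau (g j) ℓ
      have h1 : (fun n => ℓ ((T ^ (d0 + n0 * n)) (g j))) = a' j := funext fun n => (ha' j n).symm
      rwa [h1] at this) h00
  refine ⟨n0, hn0, fun b => ?_⟩
  have hrat : ∀ n, a' b.succ n = (σ ^ (d0 + n0 * n)) (ι (x b)) * a' 0 n := by
    intro n
    rw [hval, hval, Fin.cons_succ, Fin.cons_zero, one_mul, map_mul]
    change (σ ^ (d0 + n0 * n)) (ι (x b)) * _ * _ = _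
    ring
  have h1 := hrat 1
  have h2 := hrat 0
  rw [hcore b.succ 1, hcore 0 1, h2] at h1
  have h3 := mul_right_cancel₀ h00 h1
  rw [mul_zero, add_zero, mul_one, pow_add] at h3
  exact ((σ ^ d0).injective h3).symm

end Pool.Agent.Q13.NS
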