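import Pool.Agent.Q13.NS.Camp
import Pool.Agent.W602.GT.NG

/-!
Pull-back of tensors whose order along a prime divisor is controlled on logarithmic vector fields.
-/

set_option autoImplicit false
set_option linter.overlappingInstances false

open FF Pool.Agent.W602.GT Pool.Agent.W603.LV Pool.Agent.TH143.GT

namespace Pool.Agent.Q13.NS

section

variable {k K L : Type} [Field k] [Field K] [Field L] [Algebra k K] [Algebra k L] [Algebra K L]
  [IsScalarTower k K L]

/-- the pull-back of a form with at most logarithmic poles at `v` (proof of `local_reg`) -/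
theorem loc_log [CharZero k] [Algebra.EssFiniteType k K] {p w : ℕ}
    (hw : Algebra.trdeg k K = w)
    (θ : MultilinearMap K (fun _ : Fin p => Derivation k K K) K) {N : ℕ} (hN : 0 < N) (f : K)
    {v : Place k K} (hv : Divisorial w v)
    (hlog : ∀ D : Fin p → Derivation k K K, (∀ i, DerLog v (D i)) → v.Reg (f * θ D ^ N))
    {y : Fin w → K} {E : Fin w → Derivation k K K} (h : Dual y E)
    {P : Place k L} {e : ℕ} (hov : Over P v e) (D : Fin p → Derivation k L L)
    (hD : ∀ i, DerLog P (D i)) : P.Reg (algebraMap K L f * pull θ y E D ^ N) := by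
  classical
  obtain ⟨y', E', i0, hb', hE', hi0, hy'r, hpres⟩ := Pool.Agent.W240.PG.Frame.main
    Pool.Agent.W762.PG.main k K w hw (fun y hy => fin_adjoin y hy) v hv
  have h' : Dual y' E' := ⟨hb', hE'⟩
  rw [pull_indep θ h h' D]
  have hr' : ∀ j, P.Reg (algebraMap K L (y' j)) := fun j => hov.reg.2 (hy'r j)
  have hy0 : y' i0 ≠ 0 := by
    intro h0
    rw [h0, v.ord_zero] at hi0
    omega
  let s : Fin w → K := fun j => if j = i0 then y' i0 else 1
  have hs : ∀ j, s j ≠ 0 := by
    intro j
    simp only [s]
    split_ifs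
    · exact hy0
    · exact one_ne_zero
  have hsL : ∀ j, algebraMap K L (s j) ≠ 0 := fun j => by simpa using hs j
  let E'' : Fin w → Derivation k K K := fun j => s j • E' j
  have hE'' : ∀ j, DerLog v (E'' j) := by
    intro j
    have hp1 : DerReg v (E'' j) := by
      intro g hg
      change v.Reg (s j * E' j g)
      refine v.reg_mul ?_ (hpres j g hg)
      simp only [s]
      split_ifs
      · exact Or.inr (by rw [hi0]; norm_num)
      · exact v.reg_one
    refine pl_log hp1 hi0 ?_
    change v.Reg (s j * E' j (y' i0) / y' i0)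
    rw [hE']
    by_cases hj : j = i0
    · rw [if_pos hj, mul_one]
      simp only [s, if_pos hj]
      rw [div_self hy0]
      exact v.reg_one
    · rw [if_neg hj, mul_zero, zero_div]
      exact v.reg_zero
  have hexp : pull θ y' E' D = ∑ J : Fin p → Fin w,
      (∏ i, D i (algebraMap K L (y' (J i))) / algebraMap K L (s (J i))) *
        algebraMap K L (θ fun i => E'' (J i)) := by
    unfold pull
    refine Finset.sum_congr rfl fun J _ => ?_
    have h1 : (θ fun i => E'' (J i)) = (∏ i, s (J i)) * θ fun i => E' (J i) := by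
      have := MultilinearMap.map_smul_univ θ (fun i => s (J i)) (fun i => E' (J i))
      rw [smul_eq_mul] at this
      exact this
    rw [h1, map_mul, map_prod, ← mul_assoc, ← Finset.prod_mul_distrib]
    congr 1
    refine Finset.prod_congr rfl fun i _ => ?_
    rw [div_mul_cancel₀ _ (hsL _)]
  rw [hexp]
  refine reg_combo P _ _ _ _ hN (fun J _ => ?_) fun J _ => ?_
  · change _ ∈ P.O
    refine prod_mem fun i _ => ?_
    change P.Reg _
    simp only [s]
    by_cases hj : J i = i0
    · rw [if_pos hj, hj]
      exact hD i _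
    · rw [if_neg hj, map_one, div_one]
      by_cases hz : algebraMap K L (y' (J i)) = 0
      · rw [hz, map_zero]
        exact P.reg_zero
      have h2 := P.reg_mul (hD i (algebraMap K L (y' (J i)))) (hr' (J i))
      rwa [div_mul_cancel₀ _ hz] at h2
  · rw [← map_pow, ← map_mul]
    exact hov.reg.2 (hlog _ fun i => hE'' _)

/-- the pull-back of a form which is regular at `v` (proof of `local_reg`) -/
theorem loc_reg [CharZero k] [Algebra.EssFiniteType k K] {p w : ℕ}
    (hw : Algebra.trdeg k K = w)
    (θ : MultilinearMap K (fun _ : Fin p => Derivation k K K) K) {N : ℕ} (hN : 0 < N) (f : K)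
    {v : Place k K} (hv : Divisorial w v)
    (hreg : ∀ D : Fin p → Derivation k K K, (∀ i, DerReg v (D i)) → v.Reg (f * θ D ^ N))
    {y : Fin w → K} {E : Fin w → Derivation k K K} (h : Dual y E)
    {P : Place k L} {e : ℕ} (hov : Over P v e) (D : Fin p → Derivation k L L)
    (hD : ∀ i, DerReg P (D i)) : P.Reg (algebraMap K L f * pull θ y E D ^ N) := by
  classical
  obtain ⟨y', E', i0, hb', hE', hi0, hy'r, hpres⟩ := Pool.Agent.W240.PG.Frame.main
    Pool.Agent.W762.PG.main k K w hw (fun y hy => fin_adjoin y hy) v hv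
  have h' : Dual y' E' := ⟨hb', hE'⟩
  rw [pull_indep θ h h' D]
  have hr' : ∀ j, P.Reg (algebraMap K L (y' j)) := fun j => hov.reg.2 (hy'r j)
  refine reg_combo P _ _ _ _ hN (fun J _ => ?_) fun J _ => ?_
  · change _ ∈ P.O
    exact prod_mem fun i _ => hD i _ (hr' _)
  · rw [← map_pow, ← map_mul]
    exact hov.reg.2 (hreg _ fun i => hpres _)

/-- the order of the pull-back on logarithmic vector fields -/
theorem ord_pull [CharZero k] [Algebra.EssFiniteType k K] {p w : ℕ}
    (hw : Algebra.trdeg k K = w) {N : ℕ} (hN : 0 < N) (x : Fin p → K) (f : K)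
    {v : Place k K} (hv : Divisorial w v) {o : ℤ}
    (hord : ∀ D : Fin p → Derivation k K K, (∀ i, DerLog v (D i)) →
      f * (Matrix.of fun a b => D a (x b)).det ^ N = 0 ∨
        o ≤ v.ord (f * (Matrix.of fun a b => D a (x b)).det ^ N))
    {P : Place k L} {e : ℕ} (hov : Over P v e) (D : Fin p → Derivation k L L)
    (hD : ∀ i, DerLog P (D i)) :
    algebraMap K L f * (Matrix.of fun a b => D a (algebraMap K L (x b))).det ^ N = 0 ∨
      e * o ≤ P.ord (algebraMap K L f *
        (Matrix.of fun a b => D a (algebraMap K L (x b))).det ^ N) := by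
  obtain ⟨y, E, hy, hE⟩ := Pool.Agent.Y172.exists_crd hw
  obtain ⟨t, ht0, ht⟩ := v.surj
  have hz0 : t ^ (-o) ≠ 0 := zpow_ne_zero _ ht0
  have h1 := loc_log hw (dform (k := k) x).toMultilinearMap hN (t ^ (-o) * f) hv
    (fun D hD => by
      change v.Reg (t ^ (-o) * f * (Matrix.of fun a b => D a (x b)).det ^ N)
      rw [mul_assoc]
      by_cases h0 : f * (Matrix.of fun a b => D a (x b)).det ^ N = 0
      · rw [h0, mul_zero]
        exact v.reg_zero
      · right
        have h2 := (hord D hD).resolve_left h0
        rw [v.ord_mul hz0 h0, v.ord_zpow, ht]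
        linarith) ⟨hy, hE⟩ hov D hD
  rw [pull_dform x ⟨hy, hE⟩, map_mul, mul_assoc] at h1
  by_cases h0 : algebraMap K L f * (Matrix.of fun a b => D a (algebraMap K L (x b))).det ^ N = 0
  · exact Or.inl h0
  right
  have hz1 : algebraMap K L (t ^ (-o)) ≠ 0 := by rwa [Ne, map_eq_zero]
  have h2 := h1.resolve_left (mul_ne_zero hz1 h0)
  rw [P.ord_mul hz1 h0, hov.2, v.ord_zpow, ht] at h2
  linarith

/-- regularity on regular vector fields from the order on logarithmic ones -/
theorem reg_of_order {P : Place k L} {p N : ℕ} {a : L} {x : Fin p → L}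
    (h : ∀ D : Fin p → Derivation k L L, (∀ i, DerLog P (D i)) →
      a * (Matrix.of fun i b => D i (x b)).det ^ N = 0 ∨
        (N : ℤ) ≤ P.ord (a * (Matrix.of fun i b => D i (x b)).det ^ N))
    (D : Fin p → Derivation k L L) (hD : ∀ i, DerReg P (D i)) :
    P.Reg (a * (Matrix.of fun i b => D i (x b)).det ^ N) := by
  classical
  obtain ⟨τ, hτ0, hτ⟩ := P.surj
  by_cases hall : ∀ i, P.Reg (D i τ / τ)
  · rcases h D (fun i => pl_log (hD i) hτ (hall i)) with h1 | h1
    · rw [h1]
      exact P.reg_zero
    · right
      have : (0 : ℤ) ≤ N := Int.natCast_nonneg N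
      linarith
  · push Not at hall
    obtain ⟨i0, hi0⟩ := hall
    have hne : D i0 τ ≠ 0 := by
      intro h0
      rw [h0, zero_div] at hi0
      exact hi0 P.reg_zero
    have hge : 0 ≤ P.ord (D i0 τ) := (hD i0 τ (Or.inr (by rw [hτ]; norm_num))).resolve_left hne
    have hlt : P.ord (D i0 τ) < 1 := by
      by_contra hcon
      push Not at hcon
      apply hi0
      right
      rw [P.ord_div hne hτ0, hτ]
      linarith
    have hz : P.ord (D i0 τ) = 0 := by omega
    have hτr : P.Reg τ := Or.inr (by rw [hτ]; norm_num)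
    have hq : ∀ i, P.Reg (D i τ / D i0 τ) := by
      intro i
      by_cases h0 : D i τ = 0
      · rw [h0, zero_div]
        exact P.reg_zero
      · right
        have h1 := (hD i τ hτr).resolve_left h0
        rw [P.ord_div h0 hne, hz]
        linarith
    obtain ⟨D', hD'⟩ : ∃ D' : Fin p → Derivation k L L, ∀ i, D' i =
        if i = i0 then τ • D i0 else D i - (D i τ / D i0 τ) • D i0 := ⟨_, fun _ => rfl⟩
    have hlog : ∀ i, DerLog P (D' i) := by
      intro i
      rw [hD']
      by_cases hi : i = i0
      · rw [if_pos hi]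
        refine pl_log (fun f hf => ?_) hτ ?_
        · rw [Derivation.smul_apply, smul_eq_mul]
          exact P.reg_mul hτr (hD i0 f hf)
        · rw [Derivation.smul_apply, smul_eq_mul, mul_div_cancel_left₀ _ hτ0]
          exact hD i0 τ hτr
      · rw [if_neg hi]
        refine pl_log (fun f hf => ?_) hτ ?_
        · rw [Derivation.sub_apply, Derivation.smul_apply, smul_eq_mul, sub_eq_add_neg]
          exact P.reg_add (hD i f hf) (P.reg_neg (P.reg_mul (hq i) (hD i0 f hf)))
        · rw [Derivation.sub_apply, Derivation.smul_apply, smul_eq_mul, div_mul_cancel₀ _ hne,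
            sub_self, zero_div]
          exact P.reg_zero
    have hdet : (Matrix.of fun i b => D' i (x b)).det =
        τ * (Matrix.of fun i b => D i (x b)).det := by
      obtain ⟨B, hB⟩ : ∃ B : Matrix (Fin p) (Fin p) L, B = Matrix.of fun i b => D i (x b) :=
        ⟨_, rfl⟩
      have h1 : (B.updateRow i0 (τ • B i0)).det = τ * B.det := by
        rw [Matrix.det_updateRow_smul, Matrix.updateRow_eq_self]
      rw [← hB, ← h1]
      refine Matrix.det_eq_of_forall_row_eq_smul_add_const
        (fun i => if i = i0 then 0 else -(D i τ / D i0 τ) / τ) i0 (if_pos rfl) fun i b => ?_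
      rw [Matrix.updateRow_self, Matrix.of_apply, hD', Pi.smul_apply, smul_eq_mul]
      by_cases hi : i = i0
      · rw [if_pos hi, if_pos hi, hi, Matrix.updateRow_self, Pi.smul_apply, smul_eq_mul, zero_mul,
          add_zero, hB]
        rfl
      · rw [if_neg hi, if_neg hi, Matrix.updateRow_ne hi, hB, Matrix.of_apply, Matrix.of_apply,
          Derivation.sub_apply, Derivation.smul_apply, smul_eq_mul]
        field_simp
        ring
    rcases h D' hlog with h1 | h1
    · rw [hdet, mul_pow, mul_left_comm] at h1
      rw [(mul_eq_zero.1 h1).resolve_left (pow_ne_zero _ hτ0)]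
      exact P.reg_zero
    · by_cases h0 : a * (Matrix.of fun i b => D i (x b)).det ^ N = 0
      · exact Or.inl h0
      right
      rw [hdet, mul_pow, mul_left_comm, P.ord_mul (pow_ne_zero _ hτ0) h0, P.ord_pow, hτ] at h1
      linarith

end

end Pool.Agent.Q13.NS
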