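import Pool.Agent.Q13.NS.Gen
import Pool.Agent.Q13.NS.Loc

/-!
The theorem of Kobayashi-Ochiai type for orbifold pairs.
-/

set_option autoImplicit false
set_option linter.overlappingInstances false

open FF MvPolynomial Pool.Agent.W602.GT Pool.Agent.W603.LV Pool.Agent.Q13.KO
  Pool.Agent.TH143.GT

namespace Pool.Agent.Q13.NS

variable {k K F : Type} [Field k] [CharZero k] [Field K] [Field F] [Algebra k K] [Algebra k F]

/-- The value of the tensor `x j * c * (dx 1 ∧ … ∧ dx p) ^ N`. -/
noncomputable def tv {k F : Type} [Field k] [Field F] [Algebra k F] {p : ℕ} (x : Fin p → F)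
    (c : F) (N : ℕ) (j : Fin (p + 1)) (D : Fin p → Derivation k F F) : F :=
  (Fin.cons 1 x : Fin (p + 1) → F) j * c * (Matrix.of fun a b => D a (x b)).det ^ N

theorem tame_orb [Algebra.EssFiniteType k F] {w p d : ℕ} (hw : Algebra.trdeg k F = w)
    (hd : Algebra.trdeg k K = d) {x : Fin p → F} {c : F} {N : ℕ} (hN : 0 < N)
    {o : Place k F → ℤ} (ho : ∀ v, 0 ≤ o v)
    (hord : ∀ v : Place k F, Divisorial w v → ∀ D : Fin p → Derivation k F F,
      (∀ i, DerLog v (D i)) → ∀ j, tv x c N j D = 0 ∨ o v ≤ v.ord (tv x c N j D))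
    (ι : F →ₐ[k] K) {Z : Fin d → K} {hh : MvPolynomial (Fin d) k}
    (hgood : ∀ P : Place k K, Divisorial d P → (∀ f : MvPolynomial (Fin d) k, P.Reg (aeval Z f)) →
      P.ord (aeval Z hh) = 0 → ∀ (v : Place k F) (e : ℕ), 0 < e →
        (∀ z, P.ord (ι z) = e * v.ord z) → Divisorial w v →
        (∀ D : Fin p → Derivation k F F, (∀ i, DerReg v (D i)) → ∀ j, v.Reg (tv x c N j D)) ∨
          (N : ℤ) ≤ e * o v) (j : Fin (p + 1)) :
    Tame Z hh N (fun b => ι (x b)) (ι ((Fin.cons 1 x : Fin (p + 1) → F) j * c)) := by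
  let _ : Algebra F K := ι.toRingHom.toAlgebra
  have : IsScalarTower k F K := IsScalarTower.of_algebraMap_eq fun z => (ι.commutes z).symm
  have h : GenFib w (fun _ : Place k F => True) x c N := by
    refine ⟨fun P hP D hD j => ?_, fun P hP hb => absurd trivial hb⟩
    rcases hord P hP D hD j with h1 | h1
    · exact Or.inl h1
    · exact Or.inr ((ho P).trans h1)
  refine ⟨fun P hP D hD => ?_, fun P hP hZ hhP D hD => ?_⟩
  · have h1 := (h.pull hw hd hN P hP D j).1 hD
    rw [mul_comm] at h1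
    exact h1
  · by_cases htriv : ∀ g : F, P.ord (algebraMap F K g) = 0
    · have h1 := (h.pull hw hd hN P hP D j).2 hD fun v e hv => by
        exfalso
        obtain ⟨t, -, ht⟩ := v.surj
        have h2 := hv.2 t
        rw [htriv, ht] at h2
        have h3 := hv.1
        omega
      rw [mul_comm] at h1
      exact h1
    · push Not at htriv
      obtain ⟨e, v, hov⟩ := exists_over (K := F) P htriv
      have hv : Divisorial w v := Pool.Agent.W419.PG.main k F K w d v P e hw hd hov hP
      have h1 : P.Reg (algebraMap F K ((Fin.cons 1 x : Fin (p + 1) → F) j * c) *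
          (Matrix.of fun a b => D a (algebraMap F K (x b))).det ^ N) := by
        rcases hgood P hP hZ hhP v e hov.1 hov.2 hv with h1 | h1
        · obtain ⟨y, E, hy, hE⟩ := Pool.Agent.Y172.exists_crd hw
          have h2 := loc_reg hw (dform (k := k) x).toMultilinearMap hN
            ((Fin.cons 1 x : Fin (p + 1) → F) j * c) hv (fun D hD => h1 D hD j) (y := y) (E := E)
            ⟨hy, hE⟩ hov D hD
          rw [pull_dform x ⟨hy, hE⟩] at h2
          exact h2
        · refine reg_of_order (x := fun b => algebraMap F K (x b)) (fun D hD => ?_) D hD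
          rcases ord_pull hw hN x ((Fin.cons 1 x : Fin (p + 1) → F) j * c) hv
            (fun D hD => hord v hv D hD j) hov D hD with h2 | h2
          · exact Or.inl h2
          · exact Or.inr (h1.trans h2)
      rw [mul_comm] at h1
      exact h1

/-- **Kobayashi-Ochiai for orbifold pairs.** -/
theorem ko_orb [IsAlgClosed k] [Algebra.EssFiniteType k K] [Algebra.EssFiniteType k F]
    {w p d : ℕ} (hw : Algebra.trdeg k F = w) (hd : Algebra.trdeg k K = d)
    {x : Fin p → F} {c : F} {N : ℕ} (hN : 0 < N) (hc : c ≠ 0)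
    (hx : AlgebraicIndependent k x) {o : Place k F → ℤ} (ho : ∀ v, 0 ≤ o v)
    (hord : ∀ v : Place k F, Divisorial w v → ∀ D : Fin p → Derivation k F F,
      (∀ i, DerLog v (D i)) → ∀ j, tv x c N j D = 0 ∨ o v ≤ v.ord (tv x c N j D))
    (σ : K →ₐ[k] K) (ι : F →ₐ[k] K)
    {Z : Fin d → K} (hZ : IsTranscendenceBasis k Z) {hh : MvPolynomial (Fin d) k} (hh0 : hh ≠ 0)
    (hgood : ∀ n, ∀ P : Place k K, Divisorial d P →
      (∀ f : MvPolynomial (Fin d) k, P.Reg (aeval Z f)) → P.ord (aeval Z hh) = 0 →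
      ∀ (v : Place k F) (e : ℕ), 0 < e → (∀ z, P.ord ((σ ^ n) (ι z)) = e * v.ord z) →
        Divisorial w v →
        (∀ D : Fin p → Derivation k F F, (∀ i, DerReg v (D i)) → ∀ j, v.Reg (tv x c N j D)) ∨
          (N : ℤ) ≤ e * o v) :
    ∃ n, 0 < n ∧ ∀ b, (σ ^ n) (ι (x b)) = ι (x b) := by
  have h : GenFib w (fun _ : Place k F => True) x c N := by
    refine ⟨fun P hP D hD j => ?_, fun P hP hb => absurd trivial hb⟩
    rcases hord P hP D hD j with h1 | h1
    · exact Or.inl h1
    · exact Or.inr ((ho P).trans h1)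
  exact ko_gen hw hd hN hc hx h σ ι hZ hh0 fun j n =>
    tame_orb hw hd hN ho hord ((σ ^ n).comp ι) (hgood n) j

end Pool.Agent.Q13.NS
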