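import Pool.Agent.Y172.Adic
import Pool.Agent.Y172.Cov3
import Pool.Agent.W602.GT.Pl
import Pool.Agent.TH143.GT.Pull

/-!
Places at which many vector fields are logarithmic.
-/

set_option autoImplicit false
set_option linter.overlappingInstances false

open FF Pool.Agent.W602.GT Pool.Agent.W603.LV Pool.Agent.Y172

namespace Pool.Agent.Q13.NS

variable {k M : Type} [Field k] [CharZero k] [Field M] [Algebra k M]

/-- the place given by a variable over a closed subfield -/
theorem exists_place [Algebra.EssFiniteType k M] {C : IntermediateField k M} (hC : Closed C)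
    {τ : M} (hτ : τ ∉ C)
    (halg : ∀ x : M, IsAlgebraic (IntermediateField.adjoin k ((C : Set M) ∪ {τ})) x) :
    ∃ Q : Place k M, 0 < Q.ord τ ∧ (∀ c ∈ C, c ≠ 0 → Q.ord c = 0) ∧
      ∀ D : Derivation k M M, (∀ c ∈ C, D c ∈ C) → (∃ c : k, D τ = c • τ) → DerLog Q D := by
  classical
  obtain ⟨L1, hL1⟩ : ∃ L1, L1 = IntermediateField.adjoin k ((C : Set M) ∪ {τ}) := ⟨_, rfl⟩
  rw [← hL1] at halg
  have hCL : C ≤ L1 := by
    rw [hL1]
    exact fun x hx => IntermediateField.subset_adjoin k _ (Or.inl hx)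
  have hτL : τ ∈ L1 := by
    rw [hL1]
    exact IntermediateField.subset_adjoin k _ (Or.inr rfl)
  let C1 : IntermediateField k L1 := C.comap L1.val
  have hC1 : ∀ x : L1, x ∈ C1 ↔ (x : M) ∈ C := fun x => Iff.rfl
  let τ1 : L1 := ⟨τ, hτL⟩
  have htr : Transcendental C τ := fun h => hτ (hC τ h)
  have htr1 : Transcendental C1 τ1 := by
    rintro ⟨p, hp, hp0⟩
    let f : C1 →+* C :=
      { toFun := fun x => ⟨((x : L1) : M), x.2⟩
        map_one' := rfl
        map_mul' := fun _ _ => rfl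
        map_zero' := rfl
        map_add' := fun _ _ => rfl }
    refine htr ⟨p.map f, (Polynomial.map_ne_zero_iff f.injective).2 hp, ?_⟩
    have h1 := congrArg (L1.val : L1 →+* M) hp0
    rw [map_zero, Polynomial.aeval_def, Polynomial.hom_eval₂] at h1
    rw [Polynomial.aeval_def, Polynomial.eval₂_map]
    exact h1
  have htop : IntermediateField.adjoin C1 {τ1} = ⊤ := by
    let E : IntermediateField k L1 := (IntermediateField.adjoin C1 {τ1}).restrictScalars k
    have h1 : L1 ≤ IntermediateField.lift E := by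
      conv_lhs => rw [hL1]
      rw [IntermediateField.adjoin_le_iff]
      rintro x (hx | hx)
      · have h2 : (⟨x, hCL hx⟩ : L1) ∈ E := by
          change _ ∈ IntermediateField.adjoin C1 {τ1}
          exact (IntermediateField.adjoin C1 {τ1}).algebraMap_mem (⟨⟨x, hCL hx⟩, hx⟩ : C1)
        exact (IntermediateField.mem_lift (⟨x, hCL hx⟩ : L1)).2 h2
      · have hx' : x = τ := hx
        subst hx'
        have h2 : τ1 ∈ E := IntermediateField.mem_adjoin_simple_self C1 τ1
        exact (IntermediateField.mem_lift τ1).2 h2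
    rw [eq_top_iff]
    intro x _
    exact (IntermediateField.mem_lift x).1 (h1 x.2)
  obtain ⟨S, hS1, hS2⟩ := places C1 htr1 htop
  have hτ0 : τ ≠ 0 := by
    rintro rfl
    exact hτ C.zero_mem
  have hτ10 : τ1 ≠ 0 := fun h => hτ0 (congrArg Subtype.val h)
  obtain ⟨P0, hP0, hord⟩ : ∃ P0 ∈ S, P0.ord τ1 = 1 := by
    by_contra hcon
    push Not at hcon
    have h1 : τ1⁻¹ ∈ Algebra.adjoin C1 {τ1} := by
      refine hS2 _ fun P hP => Or.inr ?_
      rw [P.ord_inv, (hS1 P hP).2.2.2.resolve_right (hcon P hP), neg_zero]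
    rw [Algebra.adjoin_singleton_eq_range_aeval] at h1
    obtain ⟨p, hp⟩ := h1
    have hp' : Polynomial.aeval τ1 p = τ1⁻¹ := hp
    have h2 : Polynomial.aeval τ1 (p * Polynomial.X - 1) = 0 := by
      rw [map_sub, map_mul, Polynomial.aeval_X, map_one, hp', inv_mul_cancel₀ hτ10, sub_self]
    have h3 := (transcendental_iff.1 htr1) _ h2
    have h4 := congrArg (fun q => Polynomial.coeff q 0) h3
    simp at h4
  obtain ⟨hP1, hP2, hP3, -⟩ := hS1 P0 hP0
  have hess : Algebra.EssFiniteType L1 M := Algebra.EssFiniteType.of_comp k L1 M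
  have halg1 : Algebra.IsAlgebraic L1 M := ⟨halg⟩
  have hfin : FiniteDimensional L1 M := by
    obtain ⟨s, hs⟩ := IntermediateField.fg_top L1 M
    have h1 : FiniteDimensional L1 (IntermediateField.adjoin L1 (s : Set M)) :=
      IntermediateField.finiteDimensional_adjoin fun x _ => (halg1.isAlgebraic x).isIntegral
    rw [hs] at h1
    exact h1.equiv IntermediateField.topEquiv.toLinearEquiv
  obtain ⟨Q, e, hQ⟩ := exists_above (L := M) P0
  have he : (0 : ℤ) < e := by exact_mod_cast hQ.1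
  have hQτ : Q.ord τ = e := by
    have h1 := hQ.2 τ1
    rw [hord, mul_one] at h1
    exact h1
  refine ⟨Q, by rw [hQτ]; exact he, fun c hc hc0 => ?_, fun D hDC hDτ => ?_⟩
  · have h1 := hQ.2 ⟨c, hCL hc⟩
    rw [hP1 ⟨c, hCL hc⟩ hc (fun h => hc0 (congrArg Subtype.val h)), mul_zero] at h1
    exact h1
  obtain ⟨c0, hDτ⟩ := hDτ
  have hτreg : Q.Reg (D τ / τ) := by
    rw [hDτ, Algebra.smul_def, mul_div_cancel_right₀ _ hτ0]
    exact Q.reg_const c0
  -- polynomials
  have hpol : ∀ a ∈ Algebra.adjoin C1 {τ1}, Q.Reg (D (a : M)) := by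
    intro a ha
    have h1 : ∃ b ∈ Algebra.adjoin C1 {τ1}, (b : M) = D (a : M) := by
      induction ha using Algebra.adjoin_induction with
      | mem x hx =>
        have hx' : x = τ1 := hx
        subst hx'
        refine ⟨algebraMap k L1 c0 * τ1, ?_, ?_⟩
        · refine mul_mem ?_ (Algebra.self_mem_adjoin_singleton C1 τ1)
          rw [IsScalarTower.algebraMap_apply k C1 L1]
          exact Subalgebra.algebraMap_mem _ _
        · change algebraMap k M c0 * τ = D τ
          rw [hDτ, Algebra.smul_def]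
      | algebraMap r =>
        have h2 := hDC _ r.2
        refine ⟨⟨D ((r : L1) : M), hCL h2⟩, ?_, rfl⟩
        exact Subalgebra.algebraMap_mem (Algebra.adjoin C1 {τ1})
          (⟨⟨D ((r : L1) : M), hCL h2⟩, h2⟩ : C1)
      | add x y _ _ hx hy =>
        obtain ⟨b, hb, hbx⟩ := hx
        obtain ⟨b', hb', hby⟩ := hy
        refine ⟨b + b', add_mem hb hb', ?_⟩
        change (b : M) + (b' : M) = D ((x : M) + (y : M))
        rw [hbx, hby, map_add]
      | mul x y hx1 hy1 hx hy =>
        obtain ⟨b, hb, hbx⟩ := hx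
        obtain ⟨b', hb', hby⟩ := hy
        refine ⟨x * b' + y * b, add_mem (mul_mem hx1 hb') (mul_mem hy1 hb), ?_⟩
        change (x : M) * (b' : M) + (y : M) * (b : M) = D ((x : M) * (y : M))
        rw [hbx, hby, D.leibniz, smul_eq_mul, smul_eq_mul]
    obtain ⟨b, hb, hba⟩ := h1
    rw [← hba]
    exact hQ.reg.2 (hP2 b hb)
  -- regular functions
  have hreg : ∀ f : L1, P0.Reg f → Q.Reg (D (f : M)) := by
    intro f hf
    obtain ⟨a, ha, b, hb, hb0, hbo, hab⟩ := hP3 f hf
    have hb0' : (b : M) ≠ 0 := fun h => hb0 (Subtype.ext h)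
    have h1 : (f : M) * (b : M) = (a : M) := congrArg Subtype.val hab
    have h2 := congrArg D h1
    rw [D.leibniz, smul_eq_mul, smul_eq_mul] at h2
    have h3 : D (f : M) = (D (a : M) + -((f : M) * D (b : M))) * (b : M)⁻¹ := by
      rw [← h2]
      field_simp
      ring
    rw [h3]
    refine Q.reg_mul (Q.reg_add (hpol a ha) (Q.reg_neg (Q.reg_mul (hQ.reg.2 hf) (hpol b hb)))) ?_
    right
    have h4 := hQ.2 b
    rw [hbo, mul_zero] at h4
    rw [Q.ord_inv]
    change 0 ≤ -Q.ord (algebraMap L1 M b)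
    rw [h4, neg_zero]
  intro z
  refine Pool.Agent.W619.Y.pLOG.{0, 0} k L1 M P0 Q e hQ D (fun x => ?_) z
  change Q.Reg (D (x : M) / (x : M))
  by_cases hx : x = 0
  · rw [hx]
    rw [ZeroMemClass.coe_zero, map_zero, zero_div]
    exact Q.reg_zero
  have hx' : (x : M) ≠ 0 := fun h => hx (Subtype.ext h)
  obtain ⟨u, hu⟩ : ∃ u, u = x * τ1 ^ (-P0.ord x) := ⟨_, rfl⟩
  have hu0 : u ≠ 0 := hu ▸ mul_ne_zero hx (zpow_ne_zero _ hτ10)
  have huo : P0.ord u = 0 := by
    rw [hu, P0.ord_mul hx (zpow_ne_zero _ hτ10), P0.ord_zpow, hord]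
    ring
  have hu0' : (u : M) ≠ 0 := fun h => hu0 (Subtype.ext h)
  have hxu : (x : M) = (u : M) * τ ^ P0.ord x := by
    have h1 : x = u * τ1 ^ P0.ord x := by
      rw [hu, mul_assoc, ← zpow_add₀ hτ10, neg_add_cancel, zpow_zero, mul_one]
    have h2 := congrArg (algebraMap L1 M) h1
    rw [map_mul, map_zpow₀] at h2
    exact h2
  rw [hxu, logd_mul D hu0' (zpow_ne_zero _ hτ0)]
  have h5 : Q.Reg (D (u : M) / (u : M)) := by
    rw [div_eq_mul_inv]
    refine Q.reg_mul (hreg u (Or.inr huo.ge)) (Or.inr ?_)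
    have h4 := hQ.2 u
    rw [huo, mul_zero] at h4
    rw [Q.ord_inv]
    change 0 ≤ -Q.ord (algebraMap L1 M u)
    rw [h4, neg_zero]
  have h6 : D (τ ^ P0.ord x) / τ ^ P0.ord x = algebraMap k M ((P0.ord x : ℤ) : k) * (D τ / τ) := by
    rw [der_zpow D hτ0, map_intCast]
    have h7 : τ ^ P0.ord x ≠ 0 := zpow_ne_zero _ hτ0
    field_simp
  rw [h6]
  exact Q.reg_add h5 (Q.reg_mul (Q.reg_const _) hτreg)

/-- A place for an element of a transcendence basis. -/
theorem exists_place_basis [Algebra.EssFiniteType k M] {n : ℕ} (hn : Algebra.trdeg k M = n)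
    {B : Set M} (hB : IsTranscendenceBasis k (Subtype.val : B → M)) {b : M} (hb : b ∈ B)
    (sgn : Bool) :
    ∃ Q : Place k M, Divisorial n Q ∧ (if sgn then 0 < Q.ord b else Q.ord b < 0) ∧
      (∀ c ∈ acl k (B \ {b}), c ≠ 0 → Q.ord c = 0) ∧
      ∀ D : Derivation k M M, (∀ c ∈ B \ {b}, D c ∈ acl k (B \ {b})) →
        (∃ c : k, D b = c • b) → DerLog Q D := by
  classical
  obtain ⟨C, hCdef⟩ : ∃ C, C = acl k (B \ {b}) := ⟨_, rfl⟩
  have hC : Closed C := hCdef ▸ acl_closed _
  have hBC : B \ {b} ⊆ C := by rw [hCdef]; exact subset_acl _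
  -- `b` is transcendental
  have hbC : b ∉ C := by
    intro h
    obtain ⟨D, hD⟩ := exists_der _ hB fun x : B => if (x : M) = b then 1 else 0
    have h1 : Kills D (acl k (B \ {b})) := kills_acl (by
      rintro s ⟨hs, hsb⟩
      have hsb' : s ≠ b := hsb
      have := hD ⟨s, hs⟩
      rwa [if_neg hsb'] at this)
    have h2 := hD ⟨b, hb⟩
    rw [if_pos rfl, h1 b (hCdef ▸ h)] at h2
    exact zero_ne_one h2
  have hb0 : b ≠ 0 := by
    rintro rfl
    exact hbC C.zero_mem
  have hfin : B.Finite := by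
    have h1 := hB.cardinalMk_eq_trdeg
    rw [hn] at h1
    exact Cardinal.lt_aleph0_iff_set_finite.1 (h1 ▸ Cardinal.natCast_lt_aleph0)
  have hcard : (B \ {b}).ncard = n - 1 := by
    have h1 := hB.cardinalMk_eq_trdeg
    rw [hn] at h1
    have h2 : B.ncard = n := by
      rw [← Set.cast_ncard hfin] at h1
      exact_mod_cast h1
    rw [Set.ncard_sdiff_singleton_of_mem hb, h2]
  have hacl : ∀ x : M, x ∈ acl k (C ∪ {b} : Set M) := by
    intro x
    have h1 : IsAlgebraic (IntermediateField.adjoin k B) x := by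
      have h2 := hB.isAlgebraic_field
      rw [Subtype.range_coe_subtype] at h2
      exact h2.isAlgebraic x
    have h2 : B ⊆ acl k (C ∪ {b} : Set M) := by
      intro y hy
      by_cases hyb : y = b
      · exact subset_acl _ (Or.inr hyb)
      · exact subset_acl _ (Or.inl (hBC ⟨hy, hyb⟩))
    exact acl_le (acl_closed _) h2 (mem_acl.2 h1)
  obtain ⟨τ, hτC, hτalg, hτ⟩ : ∃ τ : M, τ ∉ C ∧
      (∀ x : M, IsAlgebraic (IntermediateField.adjoin k ((C : Set M) ∪ {τ})) x) ∧
      ((sgn = true ∧ τ = b) ∨ (sgn = false ∧ τ = b⁻¹)) := by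
    cases sgn with
    | true => exact ⟨b, hbC, fun x => mem_acl.1 (hacl x), Or.inl ⟨rfl, rfl⟩⟩
    | false =>
      refine ⟨b⁻¹, fun h => hbC ?_, fun x => ?_, Or.inr ⟨rfl, rfl⟩⟩
      · have := C.inv_mem h
        rwa [inv_inv] at this
      · rw [← mem_acl]
        refine acl_le (acl_closed _) ?_ (hacl x)
        rintro y (hy | hy)
        · exact subset_acl _ (Or.inl hy)
        · have hy' : y = b := hy
          rw [hy']
          have h1 : b⁻¹ ∈ acl k ((C : Set M) ∪ {b⁻¹}) := subset_acl _ (Or.inr rfl)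
          have h2 := inv_mem h1
          rwa [inv_inv] at h2
  obtain ⟨Q, hQτ, hQC, hQD⟩ := exists_place hC hτC hτalg
  refine ⟨Q, ?_, ?_, fun c hc hc0 => hQC c (hCdef ▸ hc) hc0, fun D hD hDb => hQD D ?_ ?_⟩
  · have hfin' : (B \ {b}).Finite := hfin.subset Set.sdiff_subset
    have := hfin'.fintype
    have hc : Fintype.card (B \ {b} : Set M) = n - 1 := by
      rw [← hcard, Set.ncard_eq_toFinset_card', Set.toFinset_card]
    let e := (Fintype.equivFinOfCardEq hc).symm
    refine ⟨fun i => (e i : M), fun F hF => ?_⟩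
    have hind : AlgebraicIndependent k (fun i => ((e i : (B \ {b} : Set M)) : M)) := by
      have h1 := hB.1.comp (fun i => (⟨(e i : M), (e i).2.1⟩ : B)) (by
        intro i j hij
        exact e.injective (Subtype.ext (congrArg (fun z : B => (z : M)) hij)))
      exact h1
    have h0 : MvPolynomial.aeval (fun i => (e i : M)) F ≠ 0 := fun h =>
      hF ((injective_iff_map_eq_zero _).1 hind F h)
    refine ⟨h0, hQC _ ?_ h0⟩
    have h1 : ∀ G : MvPolynomial (Fin (n - 1)) k, MvPolynomial.aeval (fun i => (e i : M)) G ∈ C := by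
      intro G
      induction G using MvPolynomial.induction_on with
      | C m => rw [MvPolynomial.aeval_C]; exact C.algebraMap_mem m
      | add p q hp hq => rw [map_add]; exact add_mem hp hq
      | mul_X p i hp =>
        rw [map_mul, MvPolynomial.aeval_X]
        exact mul_mem hp (hBC (e i).2)
    exact h1 F
  · rcases hτ with ⟨h1, h2⟩ | ⟨h1, h2⟩
    · rw [h1, if_pos rfl, ← h2]
      exact hQτ
    · rw [h1, if_neg (by decide)]
      rw [h2, Q.ord_inv] at hQτ
      omega
  · intro c hc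
    rw [hCdef] at hc ⊢
    exact stab_acl hD c hc
  · obtain ⟨c, hc⟩ := hDb
    rcases hτ with ⟨-, h2⟩ | ⟨-, h2⟩
    · exact ⟨c, by rw [h2, hc]⟩
    · refine ⟨-c, ?_⟩
      rw [h2, D.leibniz_inv, hc, smul_eq_mul, Algebra.smul_def, Algebra.smul_def, map_neg]
      field_simp

end Pool.Agent.Q13.NS
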